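import Pool.Agent.Lib.MP_55179a_pr.Defs
set_option autoImplicit false
namespace Pool.Agent.MP_55179a_pr.BridgeM

open Finset

/-! ### Walk sums -/

theorem ws_congr : ∀ (n : ℕ) (x : ℤ) (G G' : List ℤ → ℝ),
    (∀ t : List ℤ, t.length = n → G (x :: t) = G' (x :: t)) → ws n x G = ws n x G'
  | 0, x, G, G', h => by
      simpa [ws] using h [] rfl
  | n + 1, x, G, G', h => by
      simp only [ws]
      rw [ws_congr n (x + 1) (fun l => G (x :: l)) (fun l => G' (x :: l))
          (fun t ht => h ((x + 1) :: t) (by simp [ht])),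
        ws_congr n (x - 1) (fun l => G (x :: l)) (fun l => G' (x :: l))
          (fun t ht => h ((x - 1) :: t) (by simp [ht]))]

theorem ws_le : ∀ (n : ℕ) (x : ℤ) (G G' : List ℤ → ℝ),
    (∀ t : List ℤ, t.length = n → G (x :: t) ≤ G' (x :: t)) → ws n x G ≤ ws n x G'
  | 0, x, G, G', h => by
      simpa [ws] using h [] rfl
  | n + 1, x, G, G', h => by
      simp only [ws]
      exact add_le_add (ws_le n (x + 1) (fun l => G (x :: l)) (fun l => G' (x :: l))
          (fun t ht => h ((x + 1) :: t) (by simp [ht])))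
        (ws_le n (x - 1) (fun l => G (x :: l)) (fun l => G' (x :: l))
          (fun t ht => h ((x - 1) :: t) (by simp [ht])))

theorem ws_const_zero : ∀ (n : ℕ) (x : ℤ), ws n x (fun _ => 0) = 0
  | 0, x => by simp [ws]
  | n + 1, x => by simp [ws, ws_const_zero n]

theorem ws_eq_zero (n : ℕ) (x : ℤ) (G : List ℤ → ℝ)
    (h : ∀ t : List ℤ, t.length = n → G (x :: t) = 0) : ws n x G = 0 := by
  rw [ws_congr n x G (fun _ => 0) h, ws_const_zero]

theorem ws_nonneg (n : ℕ) (x : ℤ) (G : List ℤ → ℝ)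
    (h : ∀ t : List ℤ, t.length = n → 0 ≤ G (x :: t)) : 0 ≤ ws n x G := by
  rw [← ws_const_zero n x]
  exact ws_le n x _ _ h

theorem ws_mul_right : ∀ (n : ℕ) (x : ℤ) (G : List ℤ → ℝ) (c : ℝ),
    ws n x G * c = ws n x (fun l => G l * c)
  | 0, x, G, c => by simp [ws]
  | n + 1, x, G, c => by
      simp only [ws]
      rw [add_mul, ws_mul_right n, ws_mul_right n]

/-! ### The transfer-matrix side -/

/-- Left part: `BL R w x i` is the total weight of the sites `< x`, given `i` up-crossings of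
the edge `(x-1, x)`. -/
noncomputable def BL (R : ℕ) (w : ℕ → ℕ → ℝ) : ℕ → ℕ → ℝ
  | 0 => fun i => if i = 0 then 1 else 0
  | x + 1 => fun i => ∑ i' ∈ range R, ((i' + i - 1).choose i' : ℝ) * w x (i + i') * BL R w x i'

/-- Right part: `BR R w d x j` is the total weight of the sites `x+1, ..., x+d`, given `j`
down-crossings of the edge `(x, x+1)`. -/
noncomputable def BR (R : ℕ) (w : ℕ → ℕ → ℝ) : ℕ → ℕ → ℕ → ℝ
  | 0 => fun _ j => if j = 0 then 1 else 0
  | d + 1 => fun x j =>
      ∑ j' ∈ range R, ((j + j').choose j : ℝ) * w (x + 1) (j + j' + 1) * BR R w d (x + 1) j'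

/-- Total weight of the walks from `x` to `x + d` inside `[0, x + d]`. -/
noncomputable def BT (R : ℕ) (w : ℕ → ℕ → ℝ) (x d : ℕ) : ℝ :=
  ∑ i ∈ range R, ∑ j ∈ range R,
    BL R w x i * ((i + j).choose i : ℝ) * w x (i + j + 1) * BR R w d x j

/-- Weights after removing one visit of `x`. -/
def sh (w : ℕ → ℕ → ℝ) (x : ℕ) : ℕ → ℕ → ℝ := fun y l => if y = x then w x (l + 1) else w y l

theorem BL_congr (R : ℕ) : ∀ (x : ℕ) (w w' : ℕ → ℕ → ℝ), (∀ y < x, w y = w' y) →
    BL R w x = BL R w' x
  | 0, w, w', _ => rfl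
  | x + 1, w, w', h => by
      funext i
      simp only [BL]
      rw [BL_congr R x w w' (fun y hy => h y (by omega)), h x (by omega)]

theorem BR_congr (R : ℕ) : ∀ (d x : ℕ) (w w' : ℕ → ℕ → ℝ), (∀ y, x < y → w y = w' y) →
    BR R w d x = BR R w' d x
  | 0, x, w, w', _ => rfl
  | d + 1, x, w, w', h => by
      funext j
      simp only [BR]
      rw [BR_congr R d (x + 1) w w' (fun y hy => h y (by omega)), h (x + 1) (by omega)]

theorem BL_sh (R : ℕ) (w : ℕ → ℕ → ℝ) (x z : ℕ) (h : z ≤ x) : BL R (sh w x) z = BL R w z :=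
  BL_congr R z _ _ (fun y hy => by
    funext l
    simp [sh, show y ≠ x by omega])

theorem BR_sh (R : ℕ) (w : ℕ → ℕ → ℝ) (x z d : ℕ) (h : x ≤ z) :
    BR R (sh w x) d z = BR R w d z :=
  BR_congr R d z _ _ (fun y hy => by
    funext l
    simp [sh, show y ≠ x by omega])

theorem BL_zero_right {R : ℕ} (hR : 0 < R) (w : ℕ → ℕ → ℝ) :
    ∀ x, BL R w x 0 = ∏ y ∈ range x, w y 0
  | 0 => by simp [BL]
  | x + 1 => by
      simp only [BL]
      rw [Finset.sum_eq_single_of_mem 0 (by simpa using hR)]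
      · simp [BL_zero_right hR w x, Finset.prod_range_succ, mul_comm]
      · intro b _ hb
        have : (b + 0 - 1).choose b = 0 := Nat.choose_eq_zero_of_lt (by omega)
        rw [this]; simp

/-- `T w x (d+1)`, first step up. -/
theorem BT_up (R : ℕ) (w : ℕ → ℕ → ℝ) (x d : ℕ) :
    BT R (sh w x) (x + 1) d =
      ∑ i ∈ range R, ∑ j ∈ range R,
        BL R w x i * ((i + j - 1).choose i : ℝ) * w x (i + j + 1) * BR R w (d + 1) x j := by
  unfold BT
  rw [BR_sh R w x (x + 1) d (by omega)]
  have h1 : ∀ i j : ℕ, sh w x (x + 1) (i + j + 1) = w (x + 1) (i + j + 1) := by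
    intro i j; simp [sh]
  simp only [h1]
  -- left side: sum over j (crossings of (x,x+1)) of Left * Right
  have h2 : ∀ j : ℕ, ∑ k ∈ range R, BL R (sh w x) (x + 1) j * ((j + k).choose j : ℝ) *
      w (x + 1) (j + k + 1) * BR R w d (x + 1) k = BL R (sh w x) (x + 1) j * BR R w (d + 1) x j := by
    intro j
    simp only [BR]
    rw [Finset.mul_sum]
    refine Finset.sum_congr rfl (fun k _ => by ring)
  simp only [h2]
  rw [Finset.sum_comm]
  refine Finset.sum_congr rfl (fun j _ => ?_)
  simp only [BL]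
  rw [BL_sh R w x x le_rfl, Finset.sum_mul]
  refine Finset.sum_congr rfl (fun i _ => ?_)
  have : sh w x x (j + i) = w x (i + j + 1) := by simp [sh, add_comm]
  rw [this]
  ring

theorem BT_down (R : ℕ) (w : ℕ → ℕ → ℝ) (hw : ∀ y l, R ≤ l → w y l = 0) (x d : ℕ) :
    BT R (sh w (x + 1)) x (d + 1) =
      ∑ i ∈ range R, ∑ j ∈ range R,
        (if i = 0 then 0 else BL R w (x + 1) i * ((i + j - 1).choose (i - 1) : ℝ) *
          w (x + 1) (i + j + 1) * BR R w d (x + 1) j) := by
  have key : ∀ i, R ≤ i → ∑ j ∈ range R, (if i = 0 then 0 else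
      BL R w (x + 1) i * ((i + j - 1).choose (i - 1) : ℝ) *
          w (x + 1) (i + j + 1) * BR R w d (x + 1) j) = 0 := by
    intro i hi
    refine Finset.sum_eq_zero (fun j _ => ?_)
    rw [hw (x + 1) (i + j + 1) (by omega)]
    simp
  have h0 : ∑ i ∈ range R, ∑ j ∈ range R, (if i = 0 then 0 else
      BL R w (x + 1) i * ((i + j - 1).choose (i - 1) : ℝ) *
          w (x + 1) (i + j + 1) * BR R w d (x + 1) j) =
      ∑ i ∈ range (R + 1), ∑ j ∈ range R, (if i = 0 then 0 else
      BL R w (x + 1) i * ((i + j - 1).choose (i - 1) : ℝ) *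
          w (x + 1) (i + j + 1) * BR R w d (x + 1) j) := by
    rw [Finset.sum_range_succ, key R le_rfl, add_zero]
  rw [h0, Finset.sum_range_succ']
  simp only [if_true, Finset.sum_const_zero, add_zero, Nat.add_eq_zero_iff, one_ne_zero, and_false,
    if_false]
  unfold BT
  rw [BL_sh R w (x + 1) x (by omega)]
  rw [Finset.sum_comm]
  refine Finset.sum_congr rfl (fun k _ => ?_)
  have e1 : ∀ j, k + 1 + j - 1 = k + j := by intro j; omega
  simp only [e1, Nat.add_sub_cancel]
  -- LHS: ∑ h, BL x h * C(h+k,h) * sh.. x (h+k+1) * BR (d+1) x k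
  have e2 : BR R (sh w (x + 1)) (d + 1) x k =
      ∑ j ∈ range R, ((k + j).choose k : ℝ) * w (x + 1) (k + 1 + j + 1) * BR R w d (x + 1) j := by
    simp only [BR]
    rw [BR_sh R w (x + 1) (x + 1) d le_rfl]
    refine Finset.sum_congr rfl (fun j _ => ?_)
    have : sh w (x + 1) (x + 1) (k + j + 1) = w (x + 1) (k + 1 + j + 1) := by
      simp only [sh, if_true]
      congr 1; omega
    rw [this]
  have e3 : ∀ h, sh w (x + 1) x (h + k + 1) = w x (k + 1 + h) := by
    intro h
    simp only [sh, show x ≠ x + 1 by omega, if_false]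
    congr 1; omega
  rw [e2]
  simp only [e3]
  rw [← Finset.sum_mul, Finset.mul_sum]
  refine Finset.sum_congr rfl (fun j _ => ?_)
  have e4 : BL R w (x + 1) (k + 1) = ∑ h ∈ range R, BL R w x h * ((h + k).choose h : ℝ) *
      w x (k + 1 + h) := by
    simp only [BL]
    refine Finset.sum_congr rfl (fun h _ => ?_)
    have : h + (k + 1) - 1 = h + k := by omega
    rw [this]; ring
  rw [e4]; ring

theorem choose_split (i j : ℕ) : ((i + j).choose i : ℝ) =
    (if i = 0 then 0 else ((i + j - 1).choose (i - 1) : ℝ)) + ((i + j - 1).choose i : ℝ) := by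
  rcases i with _ | i
  · simp
  · simp only [Nat.add_eq_zero_iff, one_ne_zero, and_false, if_false]
    have : i + 1 + j = (i + j) + 1 := by omega
    rw [this, Nat.choose_succ_succ, Nat.add_sub_cancel, Nat.add_sub_cancel]
    push_cast; ring

/-- Down-step part of `BT`. -/
noncomputable def BD (R : ℕ) (w : ℕ → ℕ → ℝ) : ℕ → ℕ → ℝ
  | 0, _ => 0
  | x + 1, d => BT R (sh w (x + 1)) x (d + 1)

theorem BD_eq (R : ℕ) (w : ℕ → ℕ → ℝ) (hw : ∀ y l, R ≤ l → w y l = 0) (x d : ℕ) :
    BD R w x d = ∑ i ∈ range R, ∑ j ∈ range R,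
        (if i = 0 then 0 else BL R w x i * ((i + j - 1).choose (i - 1) : ℝ) *
          w x (i + j + 1) * BR R w d x j) := by
  rcases x with _ | x
  · simp only [BD]
    symm
    refine Finset.sum_eq_zero (fun i _ => Finset.sum_eq_zero (fun j _ => ?_))
    by_cases hi : i = 0
    · simp [hi]
    · simp [hi, BL]
  · exact BT_down R w hw x d

theorem BT_succ (R : ℕ) (w : ℕ → ℕ → ℝ) (hw : ∀ y l, R ≤ l → w y l = 0) (x d : ℕ) :
    BT R w x (d + 1) = BT R (sh w x) (x + 1) d + BD R w x (d + 1) := by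
  rw [BT_up, BD_eq R w hw]
  unfold BT
  rw [← Finset.sum_add_distrib]
  refine Finset.sum_congr rfl (fun i _ => ?_)
  rw [← Finset.sum_add_distrib]
  refine Finset.sum_congr rfl (fun j _ => ?_)
  rw [choose_split i j]
  split_ifs with h <;> ring

theorem BT_zero {R : ℕ} (hR : 0 < R) (w : ℕ → ℕ → ℝ) (hw : ∀ y l, R ≤ l → w y l = 0) (x : ℕ) :
    BT R w x 0 = w x 1 * ∏ y ∈ range x, w y 0 + BD R w x 0 := by
  have h1 : w x 1 * ∏ y ∈ range x, w y 0 = ∑ i ∈ range R, ∑ j ∈ range R,
        BL R w x i * ((i + j - 1).choose i : ℝ) * w x (i + j + 1) * BR R w 0 x j := by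
    rw [Finset.sum_eq_single_of_mem 0 (by simpa using hR)]
    · rw [Finset.sum_eq_single_of_mem 0 (by simpa using hR)]
      · simp [BR, BL_zero_right hR w x, mul_comm]
      · intro j _ hj
        simp [BR, hj]
    · intro i _ hi
      refine Finset.sum_eq_zero (fun j _ => ?_)
      by_cases hj : j = 0
      · have : (i + j - 1).choose i = 0 := Nat.choose_eq_zero_of_lt (by omega)
        rw [this]; simp
      · simp [BR, hj]
  rw [h1, BD_eq R w hw]
  unfold BT
  rw [← Finset.sum_add_distrib]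
  refine Finset.sum_congr rfl (fun i _ => ?_)
  rw [← Finset.sum_add_distrib]
  refine Finset.sum_congr rfl (fun j _ => ?_)
  rw [choose_split i j]
  split_ifs with h <;> ring

/-! ### The walk side -/

/-- Weight of a walk (as a list) inside `[0, L]` ending at `L`. -/
noncomputable def GW (L : ℕ) (w : ℕ → ℕ → ℝ) (l : List ℤ) : ℝ :=
  if (∀ y ∈ l, 0 ≤ y ∧ y ≤ (L : ℤ)) ∧ l.getLastD 0 = (L : ℤ) then
    ∏ y ∈ range (L + 1), w y (l.count (y : ℤ)) else 0

theorem GW_cons (L : ℕ) (w : ℕ → ℕ → ℝ) (x : ℕ) (hx : x ≤ L) (y : ℤ) (t : List ℤ) :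
    GW L w ((x : ℤ) :: y :: t) = GW L (sh w x) (y :: t) := by
  have h1 : (∀ z ∈ ((x : ℤ) :: y :: t), 0 ≤ z ∧ z ≤ (L : ℤ)) ↔
      ∀ z ∈ (y :: t), 0 ≤ z ∧ z ≤ (L : ℤ) := by
    constructor
    · intro h z hz; exact h z (List.mem_cons_of_mem _ hz)
    · intro h z hz
      rcases List.mem_cons.1 hz with rfl | hz
      · constructor <;> omega
      · exact h z hz
  have h2 : ((x : ℤ) :: y :: t).getLastD 0 = (y :: t).getLastD 0 := by
    simp
  have h3 : ∏ z ∈ range (L + 1), w z (((x : ℤ) :: y :: t).count (z : ℤ)) =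
      ∏ z ∈ range (L + 1), sh w x z ((y :: t).count (z : ℤ)) := by
    refine Finset.prod_congr rfl (fun z _ => ?_)
    by_cases hz : z = x
    · subst hz
      simp [sh]
    · have : (x : ℤ) ≠ (z : ℤ) := by omega
      rw [List.count_cons_of_ne this]
      simp [sh, hz]
  unfold GW
  rw [h2, h3]
  simp only [h1]

theorem GW_out (L : ℕ) (w : ℕ → ℕ → ℝ) (x : ℤ) (hx : x < 0 ∨ (L : ℤ) < x) (t : List ℤ) :
    GW L w (x :: t) = 0 := by
  unfold GW
  rw [if_neg]
  rintro ⟨h, _⟩
  have := h x List.mem_cons_self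
  omega

theorem ws_GW_succ (L : ℕ) (w : ℕ → ℕ → ℝ) (x : ℕ) (hx : x ≤ L) (n : ℕ) :
    ws (n + 1) (x : ℤ) (GW L w) =
      ws n ((x : ℤ) + 1) (GW L (sh w x)) + ws n ((x : ℤ) - 1) (GW L (sh w x)) := by
  simp only [ws]
  rw [ws_congr n ((x : ℤ) + 1) (fun l => GW L w ((x : ℤ) :: l)) (GW L (sh w x))
      (fun t _ => GW_cons L w x hx _ t),
    ws_congr n ((x : ℤ) - 1) (fun l => GW L w ((x : ℤ) :: l)) (GW L (sh w x))
      (fun t _ => GW_cons L w x hx _ t)]

theorem ws_GW_zero (L : ℕ) (w : ℕ → ℕ → ℝ) (x : ℕ) (hx : x ≤ L) :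
    ws 0 (x : ℤ) (GW L w) = if x = L then w x 1 * ∏ y ∈ range x, w y 0 else 0 := by
  simp only [ws, GW]
  by_cases h : x = L
  · subst h
    rw [if_pos, if_pos rfl, Finset.prod_range_succ, mul_comm]
    · congr 1
      · simp
      · refine Finset.prod_congr rfl (fun y hy => ?_)
        have hy' : y < x := Finset.mem_range.1 hy
        have : (x : ℤ) ≠ (y : ℤ) := by omega
        rw [List.count_cons_of_ne this]; simp
    · constructor
      · intro z hz
        simp at hz
        subst hz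
        constructor <;> omega
      · simp
  · rw [if_neg, if_neg h]
    rintro ⟨_, h2⟩
    simp at h2
    exact h (by exact_mod_cast h2)

theorem ws_GW_dead (L : ℕ) (w : ℕ → ℕ → ℝ) (x : ℕ) (hx : x ≤ L) (h0 : ∀ l, w x l = 0)
    (n : ℕ) (y : ℤ) : ws n y (GW L w) = 0 := by
  refine ws_eq_zero n y _ (fun t _ => ?_)
  unfold GW
  split_ifs
  · exact Finset.prod_eq_zero (Finset.mem_range.2 (by omega : x < L + 1)) (h0 _)
  · rfl

theorem BT_dead (R : ℕ) (w : ℕ → ℕ → ℝ) (x d : ℕ) (h0 : ∀ l, w x (l + 1) = 0) :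
    BT R w x d = 0 := by
  unfold BT
  refine Finset.sum_eq_zero (fun i _ => Finset.sum_eq_zero (fun j _ => ?_))
  rw [h0]; simp

/-- Main identity: the transfer-matrix expression is the walk sum. -/
theorem BT_eq_ws {R : ℕ} (hR : 0 < R) (L : ℕ) : ∀ (N : ℕ) (w : ℕ → ℕ → ℝ) (s : ℕ → ℕ),
    (∀ y l, s y < l → w y l = 0) → (∀ y l, R ≤ l → w y l = 0) →
    ∑ y ∈ range (L + 1), s y ≤ N → ∀ x d : ℕ, x + d = L →
    BT R w x d = ∑ n ∈ range N, ws n (x : ℤ) (GW L w)
  | 0, w, s, hs, hw, hN, x, d, hxd => by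
      have : s x = 0 := by
        have h1 : s x ≤ ∑ y ∈ range (L + 1), s y :=
          Finset.single_le_sum (f := s) (fun _ _ => Nat.zero_le _)
            (Finset.mem_range.2 (by omega : x < L + 1))
        omega
      rw [BT_dead R w x d (fun l => hs x _ (by omega))]
      simp
  | N + 1, w, s, hs, hw, hN, x, d, hxd => by
      have hxL : x ≤ L := by omega
      rw [Finset.sum_range_succ']
      simp only [ws_GW_succ L w x hxL, ws_GW_zero L w x hxL]
      by_cases hsx : s x = 0
      · have hd : ∀ l, sh w x x l = 0 := by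
          intro l; simp only [sh, if_true]; exact hs x _ (by omega)
        rw [BT_dead R w x d (fun l => hs x _ (by omega))]
        have h1 : w x 1 = 0 := hs x 1 (by omega)
        simp [ws_GW_dead L (sh w x) x hxL hd, h1]
      · -- capacity decreases
        set s' : ℕ → ℕ := Function.update s x (s x - 1) with hs'
        have hs2 : ∀ y l, s' y < l → sh w x y l = 0 := by
          intro y l hl
          by_cases hy : y = x
          · subst hy
            simp only [sh, if_true]
            rw [hs', Function.update_self] at hl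
            exact hs y _ (by omega)
          · simp only [sh, hy, if_false]
            rw [hs', Function.update_of_ne hy] at hl
            exact hs y _ hl
        have hw2 : ∀ y l, R ≤ l → sh w x y l = 0 := by
          intro y l hl
          simp only [sh]
          split_ifs
          · exact hw _ _ (by omega)
          · exact hw _ _ hl
        have hsum : ∑ y ∈ range (L + 1), s' y ≤ N := by
          have hmem : x ∈ range (L + 1) := Finset.mem_range.2 (by omega)
          have e1 : ∑ y ∈ range (L + 1), s y = s x + ∑ y ∈ (range (L + 1)).erase x, s y :=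
            (Finset.add_sum_erase _ _ hmem).symm
          have e2 : ∑ y ∈ range (L + 1), s' y = s' x + ∑ y ∈ (range (L + 1)).erase x, s' y :=
            (Finset.add_sum_erase _ _ hmem).symm
          have e3 : ∑ y ∈ (range (L + 1)).erase x, s' y = ∑ y ∈ (range (L + 1)).erase x, s y := by
            refine Finset.sum_congr rfl (fun y hy => ?_)
            rw [hs', Function.update_of_ne (Finset.ne_of_mem_erase hy)]
          have e4 : s' x = s x - 1 := by rw [hs', Function.update_self]
          omega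
        have ih := BT_eq_ws hR L N (sh w x) s' hs2 hw2 hsum
        have hup : (∑ n ∈ range N, ws n ((x : ℤ) + 1) (GW L (sh w x))) =
            if x = L then 0 else BT R (sh w x) (x + 1) (d - 1) := by
          split_ifs with hx
          · refine Finset.sum_eq_zero (fun n _ => ws_eq_zero n _ _ (fun t _ => ?_))
            exact GW_out L _ _ (Or.inr (by omega)) t
          · rw [ih (x + 1) (d - 1) (by omega)]
            push_cast; rfl
        have hdown : (∑ n ∈ range N, ws n ((x : ℤ) - 1) (GW L (sh w x))) = BD R w x d := by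
          rcases x with _ | x
          · simp only [BD]
            refine Finset.sum_eq_zero (fun n _ => ws_eq_zero n _ _ (fun t _ => ?_))
            exact GW_out L _ _ (Or.inl (by simp)) t
          · simp only [BD]
            rw [ih x (d + 1) (by omega)]
            push_cast
            simp
        rw [Finset.sum_add_distrib, hup, hdown]
        rcases d with _ | d
        · rw [BT_zero hR w hw x]
          have : x = L := by omega
          simp [this]; ring
        · rw [BT_succ R w hw x d]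
          have : x ≠ L := by omega
          simp [this]

/-! ### Specialisation -/

/-- Truncated Gaussian weights. -/
noncomputable def wt (r β : ℝ) (S : ℕ) : ℕ → ℕ → ℝ := fun _ l =>
  if l ≤ S then Real.exp (r * (l : ℝ) - β * (l : ℝ) ^ 2) else 0

theorem wt_nonneg (r β : ℝ) (S x l : ℕ) : 0 ≤ wt r β S x l := by
  unfold wt; split_ifs
  · exact (Real.exp_pos _).le
  · exact le_rfl

theorem wt_le (r β : ℝ) (S x l : ℕ) :
    wt r β S x l ≤ Real.exp (r * (l : ℝ) - β * (l : ℝ) ^ 2) := by
  unfold wt; split_ifs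
  · exact le_rfl
  · exact (Real.exp_pos _).le

theorem BR_nonneg (R S : ℕ) (r β : ℝ) : ∀ d x j, 0 ≤ BR R (wt r β S) d x j
  | 0, x, j => by simp only [BR]; split_ifs <;> norm_num
  | d + 1, x, j => by
      simp only [BR]
      exact Finset.sum_nonneg (fun i _ => mul_nonneg (mul_nonneg (Nat.cast_nonneg _)
        (wt_nonneg _ _ _ _ _)) (BR_nonneg R S r β d (x + 1) i))

theorem K_nonneg (r β : ℝ) (i j : ℕ) : 0 ≤ K r β i j :=
  mul_nonneg (Nat.cast_nonneg _) (Real.exp_pos _).le

theorem g_nonneg' (M : ℕ) (r β : ℝ) : ∀ L i, 0 ≤ g M r β L i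
  | 0, i => by simp only [g]; split_ifs <;> norm_num
  | L + 1, i => by
      simp only [g]
      exact Finset.sum_nonneg (fun j _ => mul_nonneg (K_nonneg r β i j) (g_nonneg' M r β L j))

theorem BR_le_g (r β : ℝ) (M : ℕ) : ∀ d x j, BR (M + 1) (wt r β M) d x j ≤ g M r β d j
  | 0, x, j => le_rfl
  | d + 1, x, j => by
      simp only [BR, g]
      refine Finset.sum_le_sum (fun i _ => ?_)
      refine mul_le_mul ?_ (BR_le_g r β M d (x + 1) i) (BR_nonneg _ _ _ _ _ _ _)
        (K_nonneg r β j i)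
      unfold K
      refine mul_le_mul_of_nonneg_left ?_ (Nat.cast_nonneg _)
      have := wt_le r β M (x + 1) (j + i + 1)
      push_cast at this
      exact this

theorem g_le_BR (r β : ℝ) (M : ℕ) : ∀ d x j, j ≤ M →
    g M r β d j ≤ BR (2 * M + 2) (wt r β (2 * M + 1)) d x j
  | 0, x, j, _ => le_rfl
  | d + 1, x, j, hj => by
      simp only [BR, g]
      calc ∑ i ∈ range (M + 1), K r β j i * g M r β d i
          ≤ ∑ i ∈ range (M + 1), ((j + i).choose j : ℝ) *
              wt r β (2 * M + 1) (x + 1) (j + i + 1) *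
              BR (2 * M + 2) (wt r β (2 * M + 1)) d (x + 1) i := by
            refine Finset.sum_le_sum (fun i hi => ?_)
            have hi' : i ≤ M := by have := Finset.mem_range.1 hi; omega
            refine mul_le_mul ?_ (g_le_BR r β M d (x + 1) i hi') (g_nonneg' M r β d i) ?_
            · unfold K wt
              rw [if_pos (by omega)]
              push_cast
              exact le_rfl
            · exact mul_nonneg (Nat.cast_nonneg _) (wt_nonneg _ _ _ _ _)
        _ ≤ _ := by
            refine Finset.sum_le_sum_of_subset_of_nonneg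
              (Finset.range_subset_range.2 (by omega)) (fun i _ _ => ?_)
            exact mul_nonneg (mul_nonneg (Nat.cast_nonneg _) (wt_nonneg _ _ _ _ _))
              (BR_nonneg _ _ _ _ _ _ _)

/-- `BT` at `0` is one more transfer step. -/
theorem BT_at_zero {R : ℕ} (hR : 0 < R) (r β : ℝ) (S L : ℕ) (x' : ℕ) :
    BT R (wt r β S) 0 L = BR R (wt r β S) (L + 1) x' 0 := by
  have hloc : ∀ d x y j, BR R (wt r β S) d x j = BR R (wt r β S) d y j := by
    intro d
    induction d with
    | zero => intro x y j; rfl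
    | succ d ih =>
      intro x y j
      simp only [BR]
      refine Finset.sum_congr rfl (fun i _ => ?_)
      rw [ih (x + 1) (y + 1) i]; rfl
  unfold BT
  rw [Finset.sum_eq_single_of_mem 0 (by simpa using hR)]
  · simp only [BL, BR, if_true]
    refine Finset.sum_congr rfl (fun j _ => ?_)
    rw [hloc L 0 (x' + 1) j]
    simp [wt]
  · intro i _ hi
    refine Finset.sum_eq_zero (fun j _ => ?_)
    simp [BL, hi]

theorem Hl_eq (L : ℕ) (l : List ℤ) (h : ∀ y ∈ l, 0 ≤ y ∧ y ≤ (L : ℤ)) :
    Hl l = ∑ y ∈ range (L + 1), (l.count (y : ℤ)) ^ 2 := by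
  unfold Hl
  rw [Finset.sum_list_map_count]
  have hsub : l.toFinset ⊆ (range (L + 1)).map ⟨fun y : ℕ => (y : ℤ), Nat.cast_injective⟩ := by
    intro z hz
    have hz' := h z (List.mem_toFinset.1 hz)
    simp only [Finset.mem_map, Finset.mem_range, Function.Embedding.coeFn_mk]
    exact ⟨z.toNat, by omega, by omega⟩
  rw [Finset.sum_subset hsub]
  · rw [Finset.sum_map]
    refine Finset.sum_congr rfl (fun y _ => ?_)
    simp [pow_two]
  · intro z _ hz
    have : l.count z = 0 := List.count_eq_zero.2 (fun hh => hz (List.mem_toFinset.2 hh))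
    simp [this]

theorem length_eq_sum_count (L : ℕ) (l : List ℤ) (h : ∀ y ∈ l, 0 ≤ y ∧ y ≤ (L : ℤ)) :
    l.length = ∑ y ∈ range (L + 1), l.count (y : ℤ) := by
  have h1 : l.length = ∑ z ∈ l.toFinset, l.count z := (List.sum_toFinset_count_eq_length l).symm
  rw [h1]
  have hsub : l.toFinset ⊆ (range (L + 1)).map ⟨fun y : ℕ => (y : ℤ), Nat.cast_injective⟩ := by
    intro z hz
    have hz' := h z (List.mem_toFinset.1 hz)
    simp only [Finset.mem_map, Finset.mem_range, Function.Embedding.coeFn_mk]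
    exact ⟨z.toNat, by omega, by omega⟩
  rw [Finset.sum_subset hsub]
  · rw [Finset.sum_map]
    rfl
  · intro z _ hz
    exact List.count_eq_zero.2 (fun hh => hz (List.mem_toFinset.2 hh))

/-- The integrand of `Br`, times `e^{r(n+1)}`. -/
theorem prod_exp_eq (r β : ℝ) (L : ℕ) (l : List ℤ) (h : ∀ y ∈ l, 0 ≤ y ∧ y ≤ (L : ℤ)) :
    ∏ y ∈ range (L + 1), Real.exp (r * (l.count (y : ℤ) : ℝ) - β * (l.count (y : ℤ) : ℝ) ^ 2) =
      Real.exp (-β * (Hl l : ℝ)) * Real.exp (r * (l.length : ℝ)) := by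
  rw [← Real.exp_sum, ← Real.exp_add]
  congr 1
  rw [Hl_eq L l h]
  conv_rhs => rw [length_eq_sum_count L l h]
  push_cast
  rw [Finset.sum_sub_distrib, ← Finset.mul_sum, ← Finset.mul_sum]
  ring

theorem GW_wt_le (r β : ℝ) (S L : ℕ) (l : List ℤ) :
    GW L (wt r β S) l ≤ (if (∀ y ∈ l, 0 ≤ y ∧ y ≤ (L : ℤ)) ∧ l.getLastD 0 = (L : ℤ) then
    Real.exp (-β * (Hl l : ℝ)) else 0) * Real.exp (r * (l.length : ℝ)) := by
  unfold GW
  split_ifs with h
  · rw [← prod_exp_eq r β L l h.1]
    exact Finset.prod_le_prod (fun _ _ => wt_nonneg _ _ _ _ _) (fun y _ => wt_le _ _ _ _ _)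
  · simp

theorem GW_wt_eq (r β : ℝ) (S L : ℕ) (l : List ℤ) (hl : l.length ≤ S) :
    GW L (wt r β S) l = (if (∀ y ∈ l, 0 ≤ y ∧ y ≤ (L : ℤ)) ∧ l.getLastD 0 = (L : ℤ) then
    Real.exp (-β * (Hl l : ℝ)) else 0) * Real.exp (r * (l.length : ℝ)) := by
  unfold GW
  split_ifs with h
  · rw [← prod_exp_eq r β L l h.1]
    refine Finset.prod_congr rfl (fun y _ => ?_)
    unfold wt
    rw [if_pos (le_trans List.count_le_length hl)]
  · simp

theorem bridge_le (r β : ℝ) (n L M : ℕ) (hM : n + 1 ≤ M) :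
    Br β n L * Real.exp (r * ((n : ℝ) + 1)) ≤ g M r β (L + 1) 0 := by
  have h1 : Br β n L * Real.exp (r * ((n : ℝ) + 1)) = ws n 0 (GW L (wt r β M)) := by
    unfold Br
    rw [ws_mul_right]
    refine ws_congr n 0 _ _ (fun t ht => ?_)
    rw [GW_wt_eq r β M L _ (by simp [ht]; omega)]
    congr 2
    simp [ht]
  have h2 := BT_eq_ws (R := M + 1) (Nat.succ_pos M) L ((L + 1) * M) (wt r β M) (fun _ => M)
    (fun y l hl => by unfold wt; rw [if_neg (by omega)])
    (fun y l hl => by unfold wt; rw [if_neg (by omega)])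
    (by simp) 0 L (by omega)
  have h3 : ws n 0 (GW L (wt r β M)) ≤ ∑ n ∈ range ((L + 1) * M), ws n ((0 : ℕ) : ℤ)
      (GW L (wt r β M)) := by
    have hmem : n ∈ range ((L + 1) * M) := Finset.mem_range.2 (by nlinarith)
    refine Finset.single_le_sum (f := fun n => ws n ((0 : ℕ) : ℤ) (GW L (wt r β M)))
      (fun k _ => ws_nonneg k _ _ (fun t _ => ?_)) hmem
    unfold GW
    split_ifs
    · exact Finset.prod_nonneg (fun _ _ => wt_nonneg _ _ _ _ _)
    · exact le_rfl
  rw [h1]
  refine h3.trans ?_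
  rw [← h2, BT_at_zero (Nat.succ_pos M) r β M L 0]
  exact BR_le_g r β M (L + 1) 0 0

theorem le_bridge (r β : ℝ) (L M : ℕ) :
    g M r β (L + 1) 0 ≤
      ∑ n ∈ Finset.range ((2 * M + 2) * (L + 1)), Br β n L * Real.exp (r * ((n : ℝ) + 1)) := by
  have h2 := BT_eq_ws (R := 2 * M + 2) (Nat.succ_pos _) L ((2 * M + 2) * (L + 1))
    (wt r β (2 * M + 1)) (fun _ => 2 * M + 1)
    (fun y l hl => by unfold wt; rw [if_neg (by omega)])
    (fun y l hl => by unfold wt; rw [if_neg (by omega)])
    (by simp only [Finset.sum_const, Finset.card_range, smul_eq_mul]; nlinarith) 0 L (by omega)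
  refine (g_le_BR r β M (L + 1) 0 0 (Nat.zero_le _)).trans ?_
  rw [← BT_at_zero (Nat.succ_pos _) r β (2 * M + 1) L 0, h2]
  refine Finset.sum_le_sum (fun n _ => ?_)
  unfold Br
  rw [ws_mul_right]
  refine ws_le n _ _ _ (fun t ht => ?_)
  refine (GW_wt_le r β (2 * M + 1) L _).trans (le_of_eq ?_)
  congr 2
  simp [ht]

end Pool.Agent.MP_55179a_pr.BridgeM
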