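import Mathlib

/-!
Elementary correlation inequalities for finite sums (monotone likelihood ratio, single crossing).
-/

set_option autoImplicit false

namespace Pool.Agent.MP_55179a_pr

open Finset

/-- Chebyshev / monotone likelihood ratio inequality. -/
theorem mlr_sum (N : ℕ) (u v Φ : ℕ → ℝ)
    (h : ∀ x y, x ≤ y → y < N → u y * v x ≤ u x * v y)
    (hΦ : ∀ x y, x ≤ y → y < N → Φ x ≤ Φ y) :
    (∑ x ∈ range N, u x * Φ x) * (∑ x ∈ range N, v x) ≤
      (∑ x ∈ range N, v x * Φ x) * (∑ x ∈ range N, u x) := by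
  have h1 : (∑ x ∈ range N, v x * Φ x) * (∑ x ∈ range N, u x) =
      ∑ x ∈ range N, ∑ y ∈ range N, v y * Φ y * u x := by
    rw [sum_mul_sum, sum_comm]
  have h1' : (∑ x ∈ range N, v x * Φ x) * (∑ x ∈ range N, u x) =
      ∑ x ∈ range N, ∑ y ∈ range N, v x * Φ x * u y := by
    rw [sum_mul_sum]
  have h2 : (∑ x ∈ range N, u x * Φ x) * (∑ x ∈ range N, v x) =
      ∑ x ∈ range N, ∑ y ∈ range N, u x * Φ x * v y := by
    rw [sum_mul_sum]
  have h2' : (∑ x ∈ range N, u x * Φ x) * (∑ x ∈ range N, v x) =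
      ∑ x ∈ range N, ∑ y ∈ range N, u y * Φ y * v x := by
    rw [sum_mul_sum, sum_comm]
  have key : 0 ≤ ∑ x ∈ range N, ∑ y ∈ range N, (u x * v y - u y * v x) * (Φ y - Φ x) := by
    refine sum_nonneg fun x hx => sum_nonneg fun y hy => ?_
    rw [mem_range] at hx hy
    rcases le_total x y with hxy | hxy
    · exact mul_nonneg (sub_nonneg.2 (h x y hxy hy)) (sub_nonneg.2 (hΦ x y hxy hy))
    · exact mul_nonneg_of_nonpos_of_nonpos (sub_nonpos.2 (h y x hxy hx)) (sub_nonpos.2 (hΦ y x hxy hx))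
  have e : ∑ x ∈ range N, ∑ y ∈ range N, (u x * v y - u y * v x) * (Φ y - Φ x) =
      (∑ x ∈ range N, ∑ y ∈ range N, v y * Φ y * u x) + (∑ x ∈ range N, ∑ y ∈ range N, v x * Φ x * u y)
      - (∑ x ∈ range N, ∑ y ∈ range N, u x * Φ x * v y) - (∑ x ∈ range N, ∑ y ∈ range N, u y * Φ y * v x) := by
    simp only [← sum_add_distrib, ← sum_sub_distrib]
    refine sum_congr rfl fun x _ => sum_congr rfl fun y _ => ?_
    ring
  rw [e, ← h1, ← h1', ← h2, ← h2'] at key
  linarith

/-- Single crossing: a sequence of total mass `0`, first negative then nonnegative, has a nonnegative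
pairing with nondecreasing functions. -/
theorem single_crossing (N : ℕ) (n Φ : ℕ → ℝ) (h0 : ∑ x ∈ range N, n x = 0)
    (hp : ∀ k, k + 1 < N → 0 ≤ n k → 0 ≤ n (k + 1))
    (hΦ : ∀ x y, x ≤ y → y < N → Φ x ≤ Φ y) :
    0 ≤ ∑ x ∈ range N, n x * Φ x := by
  classical
  by_cases hex : ∃ k, k < N ∧ 0 ≤ n k
  · set k0 := Nat.find hex with hk0
    have hk0N : k0 < N := (Nat.find_spec hex).1
    have hk0n : 0 ≤ n k0 := (Nat.find_spec hex).2
    have hlt : ∀ k, k < k0 → n k < 0 := by
      intro k hk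
      by_contra hcon
      exact Nat.find_min hex hk ⟨hk.trans hk0N, not_lt.1 hcon⟩
    have hge : ∀ d, k0 + d < N → 0 ≤ n (k0 + d) := by
      intro d
      induction d with
      | zero => intro _; simpa using hk0n
      | succ d ih =>
        intro hd
        exact hp (k0 + d) (by omega) (ih (by omega))
    have e : ∑ x ∈ range N, n x * Φ x = ∑ x ∈ range N, n x * (Φ x - Φ k0) := by
      simp only [mul_sub, sum_sub_distrib, ← sum_mul, h0, zero_mul, sub_zero]
    rw [e]
    refine sum_nonneg fun x hx => ?_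
    rw [mem_range] at hx
    rcases lt_or_ge x k0 with hx' | hx'
    · exact mul_nonneg_of_nonpos_of_nonpos (hlt x hx').le (sub_nonpos.2 (hΦ x k0 hx'.le hk0N))
    · obtain ⟨d, rfl⟩ := Nat.exists_eq_add_of_le hx'
      exact mul_nonneg (hge d hx) (sub_nonneg.2 (hΦ k0 _ hx' hx))
  · push Not at hex
    have hz : ∀ x ∈ range N, n x = 0 := by
      have hnp : ∀ x ∈ range N, 0 ≤ -n x := fun x hx => by
        have := hex x (mem_range.1 hx); linarith
      have hs : ∑ x ∈ range N, -n x = 0 := by rw [sum_neg_distrib, h0, neg_zero]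
      intro x hx
      have := (sum_eq_zero_iff_of_nonneg hnp).1 hs x hx
      linarith
    rw [sum_congr rfl (fun x hx => by rw [hz x hx, zero_mul] : ∀ x ∈ range N, n x * Φ x = 0)]
    simp

end Pool.Agent.MP_55179a_pr
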