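import Pool.Agent.Lib.MP_55179a_pr.Core1

/-!
The one-step inequalities: from a law `a` on `{0..M}` to its `κ`-biased version, `κ j = (I+j) p^j`.
-/

set_option autoImplicit false

namespace Pool.Agent.MP_55179a_pr

open Finset

/-- The setting of the one-step inequalities. -/
structure Law (M : ℕ) (p I α : ℝ) (f a : ℕ → ℝ) : Prop where
  hp0 : 0 < p
  hp1 : p < 1
  hI : 1 ≤ I
  hα : 0 < α
  ha : ∀ j, j ≤ M → 0 < a j
  ha0 : ∀ j, M < j → a j = 0
  hf : ∀ j, j ≤ M → 0 < f j
  hlc : ∀ x y, x ≤ y → y + 1 ≤ M → f x * f (y + 1) ≤ f (x + 1) * f y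
  rel : ∀ j : ℕ, j + 1 ≤ M →
    ((j : ℝ) + 1) * f j * a (j + 1) = α * ((I + j) * p ^ j * a j) * f (j + 1)

/-- The weight `κ`. -/
noncomputable def kap (p I : ℝ) (j : ℕ) : ℝ := (I + j) * p ^ j

variable {M : ℕ} {p I α : ℝ} {f a : ℕ → ℝ}

theorem Law.ann (hl : Law M p I α f a) (j : ℕ) : 0 ≤ a j := by
  rcases le_or_gt j M with h | h
  · exact (hl.ha j h).le
  · rw [hl.ha0 j h]

theorem kap_pos (hp0 : 0 < p) (hI : 1 ≤ I) (j : ℕ) : 0 < kap p I j := by
  unfold kap; positivity

theorem kap_succ (j : ℕ) : kap p I (j + 1) = p ^ j * (p * (I + j + 1)) := by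
  unfold kap; push_cast; ring

theorem Law.S1pos (hl : Law M p I α f a) : 0 < ∑ j ∈ range (M + 1), kap p I j * a j := by
  refine sum_pos (fun j hj => ?_) ⟨0, by simp⟩
  exact mul_pos (kap_pos hl.hp0 hl.hI j) (hl.ha j (by simpa [Nat.lt_succ_iff] using hj))

theorem Law.Apos (hl : Law M p I α f a) : 0 < ∑ j ∈ range (M + 1), a j := by
  refine sum_pos (fun j hj => ?_) ⟨0, by simp⟩
  exact hl.ha j (by simpa [Nat.lt_succ_iff] using hj)

/-- The shifted `κ`-biased law dominates any `h`-biased law with `h j / j` nonincreasing. -/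
theorem Law.shift_mlr (hl : Law M p I α f a) (h Φ : ℕ → ℝ) (hh0 : h 0 = 0)
    (hnn : ∀ j, 0 ≤ h j)
    (hh : ∀ x y : ℕ, x ≤ y → y + 1 ≤ M → h (y + 1) * ((x : ℝ) + 1) ≤ h (x + 1) * ((y : ℝ) + 1))
    (hΦ : ∀ x y, 1 ≤ x → x ≤ y → y ≤ M + 1 → Φ x ≤ Φ y) :
    (∑ j ∈ range (M + 1), h j * a j * Φ j) * (∑ j ∈ range (M + 1), kap p I j * a j) ≤
      (∑ j ∈ range (M + 1), kap p I j * a j * Φ (j + 1)) * (∑ j ∈ range (M + 1), h j * a j) := by
  have e : ∀ Ψ : ℕ → ℝ, ∑ j ∈ range (M + 1), h j * a j * Ψ j =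
      ∑ k ∈ range (M + 1), h (k + 1) * a (k + 1) * Ψ (k + 1) := by
    intro Ψ
    have h1 : ∑ j ∈ range (M + 1 + 1), h j * a j * Ψ j =
        ∑ k ∈ range (M + 1), h (k + 1) * a (k + 1) * Ψ (k + 1) := by
      rw [sum_range_succ']; simp [hh0]
    rw [← h1, sum_range_succ _ (M + 1), hl.ha0 (M + 1) (by omega)]; simp
  have e1 : ∑ j ∈ range (M + 1), h j * a j = ∑ k ∈ range (M + 1), h (k + 1) * a (k + 1) := by
    have := e (fun _ => 1); simpa using this
  rw [e Φ, e1]
  refine mlr_sum (M + 1) (fun k => h (k + 1) * a (k + 1)) (fun k => kap p I k * a k)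
    (fun k => Φ (k + 1)) ?_ ?_
  · intro x y hxy hy
    show h (y + 1) * a (y + 1) * (kap p I x * a x) ≤ h (x + 1) * a (x + 1) * (kap p I y * a y)
    rcases le_or_gt (y + 1) M with hyM | hyM
    · have hfx := hl.hf x (by omega)
      have hfy := hl.hf y (by omega)
      have hfx1 := hl.hf (x + 1) (by omega)
      have hfy1 := hl.hf (y + 1) hyM
      have hax1 := hl.ha (x + 1) (by omega)
      have hay1 := hl.ha (y + 1) hyM
      have hα := hl.hα
      have rx : kap p I x * a x = ((x : ℝ) + 1) * f x * a (x + 1) / (α * f (x + 1)) := by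
        rw [eq_div_iff (by positivity)]
        have := hl.rel x (by omega)
        unfold kap; rw [this]; ring
      have ry : kap p I y * a y = ((y : ℝ) + 1) * f y * a (y + 1) / (α * f (y + 1)) := by
        rw [eq_div_iff (by positivity)]
        have := hl.rel y hyM
        unfold kap; rw [this]; ring
      rw [rx, ry, mul_div_assoc', mul_div_assoc', div_le_div_iff₀ (by positivity) (by positivity)]
      have h1 := hh x y hxy hyM
      have h2 := hl.hlc x y hxy hyM
      have h3 : (h (y + 1) * ((x : ℝ) + 1)) * (f x * f (y + 1)) ≤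
          (h (x + 1) * ((y : ℝ) + 1)) * (f (x + 1) * f y) := by
        refine mul_le_mul h1 h2 (by positivity) ?_
        exact mul_nonneg (hnn _) (by positivity)
      have h4 : 0 ≤ α * (a (x + 1) * a (y + 1)) := by positivity
      have h5 := mul_le_mul_of_nonneg_left h3 h4
      nlinarith [h5]
    · rw [hl.ha0 (y + 1) hyM]
      have := hnn (x + 1)
      have h2 := hl.ann (x + 1)
      have h3 := kap_pos hl.hp0 hl.hI y
      have h4 := hl.ann y
      simp only [mul_zero, zero_mul]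
      positivity
  · intro x y hxy hy
    exact hΦ (x + 1) (y + 1) (by omega) (by omega) (by omega)

/-- `(1 - p^y)/y` is nonincreasing. -/
theorem one_sub_pow_div (hp0 : 0 < p) (hp1 : p < 1) (x y : ℕ) (hxy : x ≤ y) :
    (1 - p ^ (y + 1)) * ((x : ℝ) + 1) ≤ (1 - p ^ (x + 1)) * ((y : ℝ) + 1) := by
  obtain ⟨d, rfl⟩ := Nat.exists_eq_add_of_le hxy
  clear hxy
  induction d with
  | zero => simp
  | succ d ih =>
    -- (1 - p^{x+d+2})(x+1) ≤ (1-p^{x+1})(x+d+2)
    have hstep : (1 - p) * p ^ (x + d + 1) * ((x : ℝ) + 1) ≤ 1 - p ^ (x + 1) := by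
      have h1 : (1 - p) * ((x : ℝ) + 1) * p ^ x ≤ 1 - p ^ (x + 1) := by
        clear ih
        induction x with
        | zero => simp
        | succ x ihx =>
          have hpx : 0 ≤ p ^ x := by positivity
          have hx0 : 0 ≤ (x : ℝ) := Nat.cast_nonneg x
          push_cast
          rw [pow_succ p x, pow_succ p (x + 1), pow_succ p x] at *
          nlinarith [mul_nonneg hpx (sub_nonneg.2 hp1.le), mul_nonneg (mul_nonneg hpx (sub_nonneg.2 hp1.le)) hx0,
            mul_nonneg (mul_nonneg hpx (sub_nonneg.2 hp1.le)) (sub_nonneg.2 hp1.le),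
            mul_nonneg (mul_nonneg (mul_nonneg hpx (sub_nonneg.2 hp1.le)) hx0) (sub_nonneg.2 hp1.le)]
      have h2 : p ^ (x + d + 1) ≤ p ^ x := pow_le_pow_of_le_one hp0.le hp1.le (by omega)
      have h3 : (1 - p) * p ^ (x + d + 1) * ((x : ℝ) + 1) ≤ (1 - p) * p ^ x * ((x : ℝ) + 1) := by
        apply mul_le_mul_of_nonneg_right _ (by positivity)
        exact mul_le_mul_of_nonneg_left h2 (by linarith)
      linarith
    have e : p ^ (x + (d + 1) + 1) = p ^ (x + d + 1) - (1 - p) * p ^ (x + d + 1) := by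
      rw [show x + (d + 1) + 1 = (x + d + 1) + 1 by ring, pow_succ]; ring
    rw [e]
    push_cast at ih ⊢
    nlinarith [ih, hstep]

end Pool.Agent.MP_55179a_pr
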