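import Pool.Agent.Lib.MP_55179a_pr.Core2

/-!
The lower step.
-/

set_option autoImplicit false

namespace Pool.Agent.MP_55179a_pr

open Finset

variable {M : ℕ} {p I α : ℝ} {f a : ℕ → ℝ}

theorem pow_le_one' (hp0 : 0 < p) (hp1 : p < 1) (j : ℕ) : p ^ j ≤ 1 :=
  pow_le_one₀ hp0.le hp1.le

theorem one_sub_pow_pos (hp0 : 0 < p) (hp1 : p < 1) (j : ℕ) : 0 < 1 - p ^ (j + 1) := by
  have : p ^ (j + 1) < 1 := pow_lt_one₀ hp0.le hp1 (by omega)
  linarith

/-- `P ≤_st (1-π) P_+^{+1} + π P_+`. -/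
theorem Law.lower_st (hl : Law M p I α f a) (Φ : ℕ → ℝ)
    (hΦ : ∀ x y, x ≤ y → y ≤ M + 1 → Φ x ≤ Φ y) :
    (∑ j ∈ range (M + 1), a j * Φ j) * (∑ j ∈ range (M + 1), kap p I j * a j) ≤
      (∑ j ∈ range (M + 1), kap p I j * a j * Φ (j + 1)) * (∑ j ∈ range (M + 1), (1 - p ^ j) * a j)
      + (∑ j ∈ range (M + 1), kap p I j * a j * Φ j) * (∑ j ∈ range (M + 1), p ^ j * a j) := by
  have h1 := hl.shift_mlr (fun j => 1 - p ^ j) Φ (by simp)
    (fun j => sub_nonneg.2 (pow_le_one' hl.hp0 hl.hp1 j))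
    (fun x y hxy _ => one_sub_pow_div hl.hp0 hl.hp1 x y hxy)
    (fun x y _ hxy hy => hΦ x y hxy hy)
  have h2 := mlr_sum (M + 1) (fun j => p ^ j * a j) (fun j => kap p I j * a j) Φ (by
    intro x y hxy hy
    show p ^ y * a y * (kap p I x * a x) ≤ p ^ x * a x * (kap p I y * a y)
    unfold kap
    have hp0 := hl.hp0
    have hax := hl.ann x
    have hay := hl.ann y
    have hxy' : (x : ℝ) ≤ y := by exact_mod_cast hxy
    have h0 : 0 ≤ p ^ x * p ^ y * (a x * a y) := by positivity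
    have := mul_le_mul_of_nonneg_left (by linarith : I + (x : ℝ) ≤ I + y) h0
    nlinarith [this]) (fun x y hxy hy => hΦ x y hxy (by omega))
  have e : ∑ j ∈ range (M + 1), a j * Φ j =
      (∑ j ∈ range (M + 1), (1 - p ^ j) * a j * Φ j) + ∑ j ∈ range (M + 1), p ^ j * a j * Φ j := by
    rw [← sum_add_distrib]; exact sum_congr rfl fun j _ => by ring
  rw [e, add_mul]
  exact add_le_add h1 h2

/-- `P ≤_st P_+^{+1}`. -/
theorem Law.le_shift (hl : Law M p I α f a) (Φ : ℕ → ℝ)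
    (hΦ : ∀ x y, x ≤ y → y ≤ M + 1 → Φ x ≤ Φ y) :
    (∑ j ∈ range (M + 1), a j * Φ j) * (∑ j ∈ range (M + 1), kap p I j * a j) ≤
      (∑ j ∈ range (M + 1), kap p I j * a j * Φ (j + 1)) * (∑ j ∈ range (M + 1), a j) := by
  have h := hl.lower_st Φ hΦ
  have h1 : (∑ j ∈ range (M + 1), kap p I j * a j * Φ j) ≤
      (∑ j ∈ range (M + 1), kap p I j * a j * Φ (j + 1)) := by
    refine sum_le_sum fun j hj => ?_
    refine mul_le_mul_of_nonneg_left (hΦ j (j + 1) (by omega) (by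
      have := mem_range.1 hj; omega)) ?_
    exact mul_nonneg (kap_pos hl.hp0 hl.hI j).le (hl.ann j)
  have hB : 0 ≤ ∑ j ∈ range (M + 1), p ^ j * a j := by
    refine sum_nonneg fun j _ => ?_
    have := hl.ann j; have := hl.hp0; positivity
  have e : ∑ j ∈ range (M + 1), a j =
      (∑ j ∈ range (M + 1), (1 - p ^ j) * a j) + ∑ j ∈ range (M + 1), p ^ j * a j := by
    rw [← sum_add_distrib]; exact sum_congr rfl fun j _ => by ring
  rw [e]
  nlinarith [mul_le_mul_of_nonneg_right h1 hB]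

theorem Law.diff_sum (Φ : ℕ → ℝ) :
    (∑ j ∈ range (M + 1), kap p I j * a j * Φ (j + 1)) - (∑ j ∈ range (M + 1), kap p I j * a j * Φ j) =
      ∑ j ∈ range (M + 1), kap p I j * a j * (Φ (j + 1) - Φ j) := by
  rw [← sum_sub_distrib]; exact sum_congr rfl fun j _ => by ring

/-- The lower step: `E φ - E_+ φ ≤ 1`. -/
theorem Law.lower (hl : Law M p I α f a) (φ : ℕ → ℝ)
    (h0 : ∀ j, j ≤ M → φ j ≤ φ (j + 1))
    (h1 : ∀ j, j ≤ M → φ (j + 1) - φ j ≤ 1 / (1 - p ^ (j + 1))) :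
    (∑ j ∈ range (M + 1), a j * φ j) * (∑ j ∈ range (M + 1), kap p I j * a j) ≤
      (∑ j ∈ range (M + 1), kap p I j * a j * φ j) * (∑ j ∈ range (M + 1), a j)
      + (∑ j ∈ range (M + 1), kap p I j * a j) * (∑ j ∈ range (M + 1), a j) := by
  have hmono : ∀ x y, x ≤ y → y ≤ M + 1 → φ x ≤ φ y := by
    intro x y hxy hy
    obtain ⟨d, rfl⟩ := Nat.exists_eq_add_of_le hxy
    clear hxy
    induction d with
    | zero => simp
    | succ d ih => exact (ih (by omega)).trans (h0 (x + d) (by omega))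
  have h := hl.lower_st φ hmono
  have hAB : 0 ≤ ∑ j ∈ range (M + 1), (1 - p ^ j) * a j := by
    refine sum_nonneg fun j _ => ?_
    exact mul_nonneg (sub_nonneg.2 (pow_le_one' hl.hp0 hl.hp1 j)) (hl.ann j)
  -- bound of the increments
  have h2 : ∑ j ∈ range (M + 1), kap p I j * a j * (φ (j + 1) - φ j) ≤
      ∑ j ∈ range (M + 1), kap p I j * a j * (1 / (1 - p ^ (j + 1))) := by
    refine sum_le_sum fun j hj => ?_
    refine mul_le_mul_of_nonneg_left (h1 j (by have := mem_range.1 hj; omega)) ?_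
    exact mul_nonneg (kap_pos hl.hp0 hl.hI j).le (hl.ann j)
  have h3 := hl.shift_mlr (fun j => 1 - p ^ j) (fun j => -(1 / (1 - p ^ j))) (by simp)
    (fun j => sub_nonneg.2 (pow_le_one' hl.hp0 hl.hp1 j))
    (fun x y hxy _ => one_sub_pow_div hl.hp0 hl.hp1 x y hxy)
    (by
      intro x y hx hxy _
      obtain ⟨x, rfl⟩ : ∃ x', x = x' + 1 := ⟨x - 1, by omega⟩
      obtain ⟨y, rfl⟩ : ∃ y', y = y' + 1 := ⟨y - 1, by omega⟩
      simp only [neg_le_neg_iff]
      apply one_div_le_one_div_of_le (one_sub_pow_pos hl.hp0 hl.hp1 x)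
      have := pow_le_pow_of_le_one hl.hp0.le hl.hp1.le hxy
      linarith)
  have h4 : -(∑ j ∈ range (M + 1), a j) ≤
      ∑ j ∈ range (M + 1), (1 - p ^ j) * a j * -(1 / (1 - p ^ j)) := by
    rw [← sum_neg_distrib]
    refine sum_le_sum fun j _ => ?_
    rcases Nat.eq_zero_or_pos j with rfl | hj
    · have := hl.ann 0; simpa using this
    · obtain ⟨j, rfl⟩ : ∃ j', j = j' + 1 := ⟨j - 1, by omega⟩
      have := one_sub_pow_pos hl.hp0 hl.hp1 j
      apply le_of_eq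
      field_simp
  have h5 : ∑ j ∈ range (M + 1), kap p I j * a j * -(1 / (1 - p ^ (j + 1))) =
      - ∑ j ∈ range (M + 1), kap p I j * a j * (1 / (1 - p ^ (j + 1))) := by
    rw [← sum_neg_distrib]; exact sum_congr rfl fun j _ => by ring
  rw [h5] at h3
  have hS1 := hl.S1pos
  have h6 := mul_le_mul_of_nonneg_right h4 hS1.le
  have h7 : (∑ j ∈ range (M + 1), kap p I j * a j * (1 / (1 - p ^ (j + 1)))) *
      (∑ j ∈ range (M + 1), (1 - p ^ j) * a j) ≤
      (∑ j ∈ range (M + 1), kap p I j * a j) * (∑ j ∈ range (M + 1), a j) := by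
    nlinarith [h3, h6]
  have h8 := mul_le_mul_of_nonneg_right h2 hAB
  have h9 := Law.diff_sum (M := M) (p := p) (I := I) (a := a) φ
  have e : ∑ j ∈ range (M + 1), a j =
      (∑ j ∈ range (M + 1), (1 - p ^ j) * a j) + ∑ j ∈ range (M + 1), p ^ j * a j := by
    rw [← sum_add_distrib]; exact sum_congr rfl fun j _ => by ring
  set A' := ∑ j ∈ range (M + 1), (1 - p ^ j) * a j
  set B := ∑ j ∈ range (M + 1), p ^ j * a j
  set S1 := ∑ j ∈ range (M + 1), kap p I j * a j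
  set X' := ∑ j ∈ range (M + 1), kap p I j * a j * φ (j + 1)
  set X := ∑ j ∈ range (M + 1), kap p I j * a j * φ j
  set Dl := ∑ j ∈ range (M + 1), kap p I j * a j * (φ (j + 1) - φ j)
  set E := ∑ j ∈ range (M + 1), kap p I j * a j * (1 / (1 - p ^ (j + 1)))
  have hX' : X' = X + Dl := by linarith
  rw [hX'] at h
  have e2 : X * (∑ j ∈ range (M + 1), a j) = X * A' + X * B := by rw [e]; ring
  nlinarith [h, h7, h8, e2]

end Pool.Agent.MP_55179a_pr
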