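import Pool.Agent.Lib.MP_55179a_pr.Core3

/-!
The upper step.
-/

set_option autoImplicit false

namespace Pool.Agent.MP_55179a_pr

open Finset

variable {M : ℕ} {p I α : ℝ} {f a : ℕ → ℝ}

theorem one_sub_pow_ge (hp0 : 0 < p) (hp1 : p < 1) (x : ℕ) :
    (1 - p) * ((x : ℝ) + 1) * p ^ x ≤ 1 - p ^ (x + 1) := by
  have hg : ∑ k ∈ range (x + 1), p ^ k = (1 - p ^ (x + 1)) / (1 - p) := by
    rw [geom_sum_eq hp1.ne]
    rw [div_eq_div_iff (by linarith) (by linarith)]; ring
  have h1 : ((x : ℝ) + 1) * p ^ x ≤ ∑ k ∈ range (x + 1), p ^ k := by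
    have : ∑ _k ∈ range (x + 1), p ^ x ≤ ∑ k ∈ range (x + 1), p ^ k :=
      sum_le_sum fun k hk => pow_le_pow_of_le_one hp0.le hp1.le (by
        have := mem_range.1 hk; omega)
    simpa using this
  rw [hg, le_div_iff₀ (by linarith)] at h1
  nlinarith [h1]

theorem one_sub_pow_le (hp0 : 0 < p) (hp1 : p < 1) (j : ℕ) :
    1 - p ^ j ≤ j * (1 - p) := by
  have := one_add_mul_le_pow (a := p - 1) (by linarith) j
  simp only [add_sub_cancel] at this
  linarith

/-- `χ j = (κ j - I)/j` is nonincreasing as long as it is nonnegative. -/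
theorem chi_mono (hp0 : 0 < p) (hp1 : p < 1) (_hI : 1 ≤ I) (j : ℕ)
    (h : I ≤ kap p I (j + 2)) :
    (kap p I (j + 2) - I) * ((j : ℝ) + 1) ≤ (kap p I (j + 1) - I) * ((j : ℝ) + 2) := by
  unfold kap at h ⊢
  push_cast at h ⊢
  set u := p ^ (j + 1) with hu
  have hu0 : 0 < u := by positivity
  have hu1 : u ≤ 1 := pow_le_one' hp0 hp1 _
  have hup : p ^ (j + 2) = u * p := by rw [hu, ← pow_succ]
  rw [hup] at h ⊢
  have hj : 0 ≤ (j : ℝ) := Nat.cast_nonneg j
  -- W = 1 - u - (j+1) u (1-p)
  have hW : 0 ≤ 1 - u - ((j : ℝ) + 1) * u * (1 - p) := by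
    have h1 := one_sub_pow_ge hp0 hp1 j
    have h2 : u ≤ p ^ j := pow_le_pow_of_le_one hp0.le hp1.le (by omega)
    have h3 : ((j : ℝ) + 1) * (1 - p) * u ≤ ((j : ℝ) + 1) * (1 - p) * p ^ j :=
      mul_le_mul_of_nonneg_left h2 (mul_nonneg (by linarith) (by linarith))
    rw [← hu] at h1
    nlinarith
  have hb : 1 - u ≤ ((j : ℝ) + 1) * (1 - p) := by
    have := one_sub_pow_le hp0 hp1 (j + 1)
    push_cast at this
    rw [← hu] at this
    exact this
  have hup1 : 0 < 1 - u * p := by nlinarith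
  -- I (1 - u p) ≤ (j+2) u p
  have hIle : I * (1 - u * p) ≤ ((j : ℝ) + 2) * (u * p) := by nlinarith
  -- p W ≤ (j+1)(1-p)(1-up)
  have hpW : p * (1 - u - ((j : ℝ) + 1) * u * (1 - p)) ≤ ((j : ℝ) + 1) * (1 - p) * (1 - u * p) := by
    have h1 : p * (1 - u - ((j : ℝ) + 1) * u * (1 - p)) ≤
        p * (((j : ℝ) + 1) * (1 - p) - ((j : ℝ) + 1) * u * (1 - p)) :=
      mul_le_mul_of_nonneg_left (by linarith) hp0.le
    have h2 : 0 ≤ ((j : ℝ) + 1) * (1 - p) * (1 - p) := by
      have : 0 ≤ 1 - p := by linarith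
      positivity
    nlinarith
  have hD : 0 ≤ (((I + ((j : ℝ) + 1)) * u - I) * ((j : ℝ) + 2) -
      ((I + ((j : ℝ) + 2)) * (u * p) - I) * ((j : ℝ) + 1)) * (1 - u * p) := by
    have e : (((I + ((j : ℝ) + 1)) * u - I) * ((j : ℝ) + 2) -
        ((I + ((j : ℝ) + 2)) * (u * p) - I) * ((j : ℝ) + 1)) * (1 - u * p) =
        ((j : ℝ) + 1) * ((j : ℝ) + 2) * u * (1 - p) * (1 - u * p) -
        (I * (1 - u * p)) * (1 - u - ((j : ℝ) + 1) * u * (1 - p)) := by ring
    rw [e]
    have h1 : (I * (1 - u * p)) * (1 - u - ((j : ℝ) + 1) * u * (1 - p)) ≤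
        (((j : ℝ) + 2) * (u * p)) * (1 - u - ((j : ℝ) + 1) * u * (1 - p)) :=
      mul_le_mul_of_nonneg_right hIle hW
    have h2 : ((j : ℝ) + 2) * u * (p * (1 - u - ((j : ℝ) + 1) * u * (1 - p))) ≤
        ((j : ℝ) + 2) * u * (((j : ℝ) + 1) * (1 - p) * (1 - u * p)) :=
      mul_le_mul_of_nonneg_left hpW (by positivity)
    nlinarith
  have := nonneg_of_mul_nonneg_left hD hup1
  linarith

theorem kap_zero : kap p I 0 = I := by simp [kap]

/-- Unimodality of `κ`. -/
theorem kap_up (hp0 : 0 < p) (hp1 : p < 1) (_hI : 1 ≤ I) (j : ℕ)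
    (h : kap p I j ≤ kap p I (j + 1)) : I ≤ kap p I j := by
  induction j with
  | zero => rw [kap_zero]
  | succ j ih =>
    have h1 : kap p I j ≤ kap p I (j + 1) := by
      have hpj : 0 < p ^ j := by positivity
      have h2 : I + ((j : ℝ) + 1) ≤ p * (I + ((j : ℝ) + 1) + 1) := by
        have h3 : p ^ (j + 1) * (I + ((j : ℝ) + 1)) ≤ p ^ (j + 1) * (p * (I + ((j : ℝ) + 1) + 1)) := by
          unfold kap at h
          push_cast at h
          rw [pow_succ p (j + 1)] at h
          linarith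
        exact le_of_mul_le_mul_left h3 (by positivity)
      rw [kap_succ]
      unfold kap
      have h4 : (I + (j : ℝ)) ≤ p * (I + j + 1) := by nlinarith
      nlinarith
    exact (ih h1).trans h1

theorem Law.sum_shift (hl : Law M p I α f a) (h : ℕ → ℝ) (h0 : h 0 = 0) :
    ∑ j ∈ range (M + 1), h j * a j = ∑ k ∈ range (M + 1), h (k + 1) * a (k + 1) := by
  have h1 : ∑ j ∈ range (M + 1 + 1), h j * a j =
      ∑ k ∈ range (M + 1), h (k + 1) * a (k + 1) := by
    rw [sum_range_succ']; simp [h0]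
  rw [← h1, sum_range_succ _ (M + 1), hl.ha0 (M + 1) (by omega)]; simp

theorem Law.S1_sub (hl : Law M p I α f a) :
    ∑ k ∈ range (M + 1), (kap p I (k + 1) - I) * a (k + 1) =
      (∑ j ∈ range (M + 1), kap p I j * a j) - I * ∑ j ∈ range (M + 1), a j := by
  rw [← hl.sum_shift (fun j => kap p I j - I) (by simp [kap_zero])]
  simp only [sub_mul, sum_sub_distrib, mul_sum]

/-- `I (E_+ Φ - E Φ) ≤ (E κ - I) E_+[ΔΦ]`. -/
theorem Law.upper_st (hl : Law M p I α f a) (Φ : ℕ → ℝ)
    (hΦ : ∀ x y, x ≤ y → y ≤ M + 1 → Φ x ≤ Φ y)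
    (hS : I * ∑ j ∈ range (M + 1), a j ≤ ∑ j ∈ range (M + 1), kap p I j * a j) :
    I * ((∑ j ∈ range (M + 1), a j) * (∑ j ∈ range (M + 1), kap p I j * a j * Φ j) -
      (∑ j ∈ range (M + 1), kap p I j * a j) * (∑ j ∈ range (M + 1), a j * Φ j)) ≤
      ((∑ j ∈ range (M + 1), kap p I j * a j) - I * ∑ j ∈ range (M + 1), a j) *
      ((∑ j ∈ range (M + 1), kap p I j * a j * Φ (j + 1)) -
        ∑ j ∈ range (M + 1), kap p I j * a j * Φ j) := by
  set S1 := ∑ j ∈ range (M + 1), kap p I j * a j with hS1def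
  set A := ∑ j ∈ range (M + 1), a j with hAdef
  have hS1 : 0 < S1 := hl.S1pos
  have hcr := single_crossing (M + 1)
    (fun k => (S1 - I * A) * (kap p I k * a k) - S1 * ((kap p I (k + 1) - I) * a (k + 1)))
    (fun k => Φ (k + 1)) (by
      rw [sum_sub_distrib, ← mul_sum, ← mul_sum, hl.S1_sub, ← hS1def, ← hAdef]; ring) (by
      intro k hk hn
      have hk' : k + 1 ≤ M := by omega
      rcases le_or_gt (k + 2) M with hkM | hkM
      · rcases le_or_gt (kap p I (k + 2)) I with hkI | hkI
        · have h1 : 0 ≤ (S1 - I * A) * (kap p I (k + 1) * a (k + 1)) :=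
            mul_nonneg (by linarith) (mul_nonneg (kap_pos hl.hp0 hl.hI _).le (hl.ann _))
          have h2 : S1 * ((kap p I (k + 1 + 1) - I) * a (k + 1 + 1)) ≤ 0 :=
            mul_nonpos_of_nonneg_of_nonpos hS1.le
              (mul_nonpos_of_nonpos_of_nonneg (by
                show kap p I (k + 2) - I ≤ 0
                linarith) (hl.ann _))
          linarith
        · have hchi := chi_mono hl.hp0 hl.hp1 hl.hI k hkI.le
          have hα := hl.hα
          have hfk := hl.hf k (by omega)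
          have hfk1 := hl.hf (k + 1) (by omega)
          have hfk2 := hl.hf (k + 2) hkM
          have hak1 := hl.ha (k + 1) (by omega)
          have hak2 := hl.ha (k + 2) hkM
          have hlc := hl.hlc k (k + 1) (by omega) hkM
          have r1 := hl.rel k (by omega)
          have r2 := hl.rel (k + 1) hkM
          have e1 : kap p I k * a k = ((k : ℝ) + 1) * f k * a (k + 1) / (α * f (k + 1)) := by
            rw [eq_div_iff (by positivity)]; unfold kap; rw [r1]; ring
          have e2 : kap p I (k + 1) * a (k + 1) =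
              ((k : ℝ) + 2) * f (k + 1) * a (k + 2) / (α * f (k + 2)) := by
            rw [eq_div_iff (by positivity)]
            have r2' : ((k : ℝ) + 2) * f (k + 1) * a (k + 2) =
                α * ((I + ((k + 1 : ℕ) : ℝ)) * p ^ (k + 1) * a (k + 1)) * f (k + 2) := by
              rw [← r2]; push_cast; ring
            rw [r2']; unfold kap; ring
          have hc : 0 ≤ S1 - I * A := by linarith
          have hk0 : (0 : ℝ) < (k : ℝ) + 1 := by positivity
          -- divide hn by a (k+1)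
          have hn1 : S1 * (kap p I (k + 1) - I) ≤ (S1 - I * A) * (((k : ℝ) + 1) * f k / (α * f (k + 1))) := by
            have hn' : 0 ≤ ((S1 - I * A) * (((k : ℝ) + 1) * f k / (α * f (k + 1))) -
                S1 * (kap p I (k + 1) - I)) * a (k + 1) := by
              have : ((S1 - I * A) * (((k : ℝ) + 1) * f k / (α * f (k + 1))) -
                S1 * (kap p I (k + 1) - I)) * a (k + 1) =
                (S1 - I * A) * (kap p I k * a k) - S1 * ((kap p I (k + 1) - I) * a (k + 1)) := by
                rw [e1]; ring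
              rw [this]; exact hn
            have := nonneg_of_mul_nonneg_left hn' hak1
            linarith
          have hratio : f k / (α * f (k + 1)) ≤ f (k + 1) / (α * f (k + 2)) := by
            rw [div_le_div_iff₀ (by positivity) (by positivity)]
            have := mul_le_mul_of_nonneg_left hlc hα.le
            nlinarith
          -- chi form
          have h3 : S1 * (kap p I (k + 2) - I) ≤ (S1 - I * A) * (((k : ℝ) + 2) * (f (k + 1) / (α * f (k + 2)))) := by
            have h4 : S1 * (kap p I (k + 2) - I) * ((k : ℝ) + 1) ≤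
                (S1 - I * A) * (((k : ℝ) + 2) * (f (k + 1) / (α * f (k + 2)))) * ((k : ℝ) + 1) := by
              calc S1 * (kap p I (k + 2) - I) * ((k : ℝ) + 1)
                  = S1 * ((kap p I (k + 2) - I) * ((k : ℝ) + 1)) := by ring
                _ ≤ S1 * ((kap p I (k + 1) - I) * ((k : ℝ) + 2)) := mul_le_mul_of_nonneg_left hchi hS1.le
                _ = S1 * (kap p I (k + 1) - I) * ((k : ℝ) + 2) := by ring
                _ ≤ (S1 - I * A) * (((k : ℝ) + 1) * f k / (α * f (k + 1))) * ((k : ℝ) + 2) :=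
                    mul_le_mul_of_nonneg_right hn1 (by positivity)
                _ = (S1 - I * A) * ((k : ℝ) + 2) * ((k : ℝ) + 1) * (f k / (α * f (k + 1))) := by ring
                _ ≤ (S1 - I * A) * ((k : ℝ) + 2) * ((k : ℝ) + 1) * (f (k + 1) / (α * f (k + 2))) :=
                    mul_le_mul_of_nonneg_left hratio (by positivity)
                _ = _ := by ring
            exact le_of_mul_le_mul_right h4 hk0
          show 0 ≤ (S1 - I * A) * (kap p I (k + 1) * a (k + 1)) - S1 * ((kap p I (k + 1 + 1) - I) * a (k + 1 + 1))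
          rw [e2]
          have h5 := mul_le_mul_of_nonneg_right h3 hak2.le
          have h6 : (S1 - I * A) * (((k : ℝ) + 2) * (f (k + 1) / (α * f (k + 2)))) * a (k + 2) =
              (S1 - I * A) * (((k : ℝ) + 2) * f (k + 1) * a (k + 2) / (α * f (k + 2))) := by ring
          rw [h6] at h5
          have h7 : S1 * (kap p I (k + 2) - I) * a (k + 2) =
            S1 * ((kap p I (k + 1 + 1) - I) * a (k + 1 + 1)) := by ring_nf
          linarith
      · show 0 ≤ (S1 - I * A) * (kap p I (k + 1) * a (k + 1)) - S1 * ((kap p I (k + 1 + 1) - I) * a (k + 1 + 1))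
        rw [hl.ha0 (k + 1 + 1) (by omega)]
        have h1 : 0 ≤ (S1 - I * A) * (kap p I (k + 1) * a (k + 1)) :=
          mul_nonneg (by linarith) (mul_nonneg (kap_pos hl.hp0 hl.hI _).le (hl.ann _))
        simpa using h1) (by
      intro x y hxy hy
      exact hΦ (x + 1) (y + 1) (by omega) (by omega))
  have e1 : ∀ c d : ℝ, ∑ x ∈ range (M + 1), (c * (kap p I x * a x) -
      d * ((kap p I (x + 1) - I) * a (x + 1))) * Φ (x + 1) =
      c * (∑ j ∈ range (M + 1), kap p I j * a j * Φ (j + 1)) -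
      d * ∑ x ∈ range (M + 1), ((kap p I (x + 1) - I) * Φ (x + 1)) * a (x + 1) := by
    intro c d
    rw [mul_sum, mul_sum, ← sum_sub_distrib]
    exact sum_congr rfl fun x _ => by ring
  have e2 : ∑ x ∈ range (M + 1), ((kap p I (x + 1) - I) * Φ (x + 1)) * a (x + 1) =
      (∑ j ∈ range (M + 1), kap p I j * a j * Φ j) - I * ∑ j ∈ range (M + 1), a j * Φ j := by
    rw [← hl.sum_shift (fun j => (kap p I j - I) * Φ j) (by simp [kap_zero]), mul_sum,
      ← sum_sub_distrib]
    exact sum_congr rfl fun x _ => by ring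
  have hcr' : 0 ≤ ∑ x ∈ range (M + 1), ((S1 - I * A) * (kap p I x * a x) -
      S1 * ((kap p I (x + 1) - I) * a (x + 1))) * Φ (x + 1) := hcr
  rw [e1, e2] at hcr'
  nlinarith [hcr']

end Pool.Agent.MP_55179a_pr
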