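import Pool.Agent.Lib.MP_55179a_pr.Core4

/-!
The upper step, conclusion, and the propagation of log-concavity.
-/

set_option autoImplicit false

namespace Pool.Agent.MP_55179a_pr

open Finset

variable {M : ℕ} {p I α : ℝ} {f a : ℕ → ℝ}

theorem mono_of_step (φ : ℕ → ℝ) (N : ℕ) (h0 : ∀ j, j ≤ N → φ j ≤ φ (j + 1)) :
    ∀ x y, x ≤ y → y ≤ N + 1 → φ x ≤ φ y := by
  intro x y hxy hy
  obtain ⟨d, rfl⟩ := Nat.exists_eq_add_of_le hxy
  clear hxy
  induction d with
  | zero => simp
  | succ d ih => exact (ih (by omega)).trans (h0 (x + d) (by omega))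

/-- `(E κ - I) E_+[1/(1-p^{J+1})] ≤ I D`. -/
theorem Law.upper_psi (hl : Law M p I α f a) (D : ℝ) (hD0 : 0 ≤ D)
    (hD : p / (1 - p) - I ≤ I * D)
    (hS : I * ∑ j ∈ range (M + 1), a j ≤ ∑ j ∈ range (M + 1), kap p I j * a j) :
    ((∑ j ∈ range (M + 1), kap p I j * a j) - I * ∑ j ∈ range (M + 1), a j) *
      (∑ j ∈ range (M + 1), kap p I j * a j * (1 / (1 - p ^ (j + 1)))) ≤
      (∑ j ∈ range (M + 1), kap p I j * a j) * (I * D * ∑ j ∈ range (M + 1), a j) := by
  have hp0 := hl.hp0
  have hp1 := hl.hp1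
  have hI := hl.hI
  have hS1 := hl.S1pos
  have hA := hl.Apos
  have hsub := hl.S1_sub
  set S1 := ∑ j ∈ range (M + 1), kap p I j * a j with hS1def
  set A := ∑ j ∈ range (M + 1), a j with hAdef
  -- Sj
  have hSj := hl.sum_shift (fun j => (j : ℝ)) (by simp)
  set Sj := ∑ k ∈ range (M + 1), ((k + 1 : ℕ) : ℝ) * a (k + 1) with hSjdef
  have hterm : ∀ k ∈ range (M + 1), 0 ≤ ((k + 1 : ℕ) : ℝ) * a (k + 1) := fun k _ =>
    mul_nonneg (Nat.cast_nonneg _) (hl.ann _)
  have hSj0 : 0 ≤ Sj := sum_nonneg hterm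
  rcases hSj0.eq_or_lt with hz | hpos
  · -- all a (k+1) = 0
    have hz' := (sum_eq_zero_iff_of_nonneg hterm).1 hz.symm
    have : S1 - I * A = 0 := by
      rw [← hsub]
      refine sum_eq_zero fun k hk => ?_
      have h1 := hz' k hk
      have h2 : a (k + 1) = 0 := by
        rcases mul_eq_zero.1 h1 with h | h
        · exfalso
          have : (k + 1 : ℕ) ≠ 0 := by omega
          exact this (by exact_mod_cast h)
        · exact h
      rw [h2, mul_zero]
    rw [this, zero_mul]
    have : 0 ≤ I * D * A := by positivity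
    positivity
  · -- main case
    set χ := (S1 - I * A) / Sj with hχ
    have hχ0 : 0 ≤ χ := div_nonneg (by linarith) hSj0
    have hχS : χ * Sj = S1 - I * A := div_mul_cancel₀ _ hpos.ne'
    have hpsi0 : ∀ k : ℕ, 0 < 1 / (1 - p ^ (k + 1)) := fun k =>
      one_div_pos.2 (one_sub_pow_pos hp0 hp1 k)
    have hpsimono : ∀ x y : ℕ, x ≤ y → -(1 / (1 - p ^ (x + 1))) ≤ -(1 / (1 - p ^ (y + 1))) := by
      intro x y hxy
      simp only [neg_le_neg_iff]
      apply one_div_le_one_div_of_le (one_sub_pow_pos hp0 hp1 x)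
      have := pow_le_pow_of_le_one hp0.le hp1.le (show x + 1 ≤ y + 1 by omega)
      linarith
    -- (b) single crossing
    have hb := single_crossing (M + 1)
      (fun k => (χ * ((k : ℝ) + 1) - (kap p I (k + 1) - I)) * a (k + 1))
      (fun k => -(1 / (1 - p ^ (k + 1)))) (by
        have : ∀ k ∈ range (M + 1), (χ * ((k : ℝ) + 1) - (kap p I (k + 1) - I)) * a (k + 1) =
            χ * (((k + 1 : ℕ) : ℝ) * a (k + 1)) - (kap p I (k + 1) - I) * a (k + 1) := by
          intro k _; push_cast; ring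
        rw [sum_congr rfl this, sum_sub_distrib, ← mul_sum, hsub, ← hSjdef, hχS]; ring) (by
        intro k hk hn
        have hk' : k + 1 ≤ M := by omega
        rcases le_or_gt (k + 2) M with hkM | hkM
        · have hak1 := hl.ha (k + 1) (by omega)
          have hn1 : 0 ≤ χ * ((k : ℝ) + 1) - (kap p I (k + 1) - I) :=
            nonneg_of_mul_nonneg_left hn hak1
          have hgoal : 0 ≤ χ * ((k : ℝ) + 1 + 1) - (kap p I (k + 2) - I) := by
            rcases le_or_gt (kap p I (k + 2)) I with hkI | hkI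
            · have : 0 ≤ χ * ((k : ℝ) + 1 + 1) := by positivity
              linarith
            · have hchi := chi_mono hp0 hp1 hI k hkI.le
              have hk0 : (0 : ℝ) < (k : ℝ) + 1 := by positivity
              have h1 : (kap p I (k + 2) - I) * ((k : ℝ) + 1) ≤
                  (χ * ((k : ℝ) + 1 + 1)) * ((k : ℝ) + 1) := by
                calc (kap p I (k + 2) - I) * ((k : ℝ) + 1) ≤ (kap p I (k + 1) - I) * ((k : ℝ) + 2) := hchi
                  _ ≤ (χ * ((k : ℝ) + 1)) * ((k : ℝ) + 2) :=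
                      mul_le_mul_of_nonneg_right (by linarith) (by positivity)
                  _ = _ := by ring
              have := le_of_mul_le_mul_right h1 hk0
              linarith
          have hak2 := hl.ha (k + 2) hkM
          show 0 ≤ (χ * (((k + 1 : ℕ) : ℝ) + 1) - (kap p I (k + 1 + 1) - I)) * a (k + 1 + 1)
          push_cast
          exact mul_nonneg hgoal hak2.le
        · show 0 ≤ (χ * (((k + 1 : ℕ) : ℝ) + 1) - (kap p I (k + 1 + 1) - I)) * a (k + 1 + 1)
          rw [hl.ha0 (k + 1 + 1) (by omega)]; simp) (fun x y hxy _ => hpsimono x y hxy)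
    -- (a)
    have ha' := hl.shift_mlr (fun j => (j : ℝ)) (fun j => if j = 0 then -(1 / (1 - p)) else -(1 / (1 - p ^ j)))
      (by simp) (fun j => Nat.cast_nonneg j) (by
        intro x y _ _; push_cast; linarith) (by
        intro x y hx hxy _
        obtain ⟨x, rfl⟩ : ∃ x', x = x' + 1 := ⟨x - 1, by omega⟩
        obtain ⟨y, rfl⟩ : ∃ y', y = y' + 1 := ⟨y - 1, by omega⟩
        simpa using hpsimono x y (by omega))
    rw [hSj] at ha'
    have ea1 : ∑ j ∈ range (M + 1), (j : ℝ) * a j * (if j = 0 then -(1 / (1 - p)) else -(1 / (1 - p ^ j))) =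
        - ∑ k ∈ range (M + 1), ((k : ℝ) + 1) * a (k + 1) * (1 / (1 - p ^ (k + 1))) := by
      have := hl.sum_shift (fun j => (j : ℝ) * (if j = 0 then -(1 / (1 - p)) else -(1 / (1 - p ^ j)))) (by simp)
      rw [show ∑ j ∈ range (M + 1), (j : ℝ) * a j * (if j = 0 then -(1 / (1 - p)) else -(1 / (1 - p ^ j))) =
        ∑ j ∈ range (M + 1), (j : ℝ) * (if j = 0 then -(1 / (1 - p)) else -(1 / (1 - p ^ j))) * a j from
        sum_congr rfl fun j _ => by ring, this, ← sum_neg_distrib]
      refine sum_congr rfl fun k _ => ?_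
      rw [if_neg (by omega)]; push_cast; ring
    have ea2 : ∑ j ∈ range (M + 1), kap p I j * a j *
        (if j + 1 = 0 then -(1 / (1 - p)) else -(1 / (1 - p ^ (j + 1)))) =
        - ∑ j ∈ range (M + 1), kap p I j * a j * (1 / (1 - p ^ (j + 1))) := by
      rw [← sum_neg_distrib]
      refine sum_congr rfl fun k _ => ?_
      rw [if_neg (by omega)]; ring
    rw [ea1, ea2] at ha'
    -- (c)
    have hc : ∑ k ∈ range (M + 1), (kap p I (k + 1) - I) * a (k + 1) * (1 / (1 - p ^ (k + 1))) ≤
        I * D * A := by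
      have h1 : ∀ k ∈ range (M + 1), (kap p I (k + 1) - I) * a (k + 1) * (1 / (1 - p ^ (k + 1))) ≤
          I * D * a (k + 1) := by
        intro k _
        have h2 : (kap p I (k + 1) - I) * (1 / (1 - p ^ (k + 1))) ≤ I * D := by
          refine le_trans ?_ hD
          rw [mul_one_div, div_le_iff₀ (one_sub_pow_pos hp0 hp1 k)]
          have h3 := one_sub_pow_ge hp0 hp1 k
          have hp1' : 0 < 1 - p := by linarith
          -- (k+1) p^{k+1} (1-p) ≤ p (1 - p^{k+1})
          have h4 : ((k : ℝ) + 1) * p ^ (k + 1) * (1 - p) ≤ p * (1 - p ^ (k + 1)) := by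
            have := mul_le_mul_of_nonneg_left h3 hp0.le
            calc ((k : ℝ) + 1) * p ^ (k + 1) * (1 - p) = p * ((1 - p) * ((k : ℝ) + 1) * p ^ k) := by
                  rw [pow_succ]; ring
              _ ≤ _ := this
          unfold kap
          push_cast
          have h5 : ((k : ℝ) + 1) * p ^ (k + 1) ≤ p / (1 - p) * (1 - p ^ (k + 1)) := by
            rw [div_mul_eq_mul_div, le_div_iff₀ hp1']; exact h4
          nlinarith
        have h3 := mul_le_mul_of_nonneg_right h2 (hl.ann (k + 1))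
        calc (kap p I (k + 1) - I) * a (k + 1) * (1 / (1 - p ^ (k + 1)))
            = (kap p I (k + 1) - I) * (1 / (1 - p ^ (k + 1))) * a (k + 1) := by ring
          _ ≤ _ := h3
      refine (sum_le_sum h1).trans ?_
      rw [← mul_sum]
      refine mul_le_mul_of_nonneg_left ?_ (by positivity)
      have h6 : ∑ k ∈ range (M + 1), a (k + 1) + a 0 = A := by
        have := sum_range_succ' a (M + 1)
        rw [sum_range_succ _ (M + 1), hl.ha0 (M + 1) (by omega), add_zero] at this
        rw [hAdef, this]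
      have := hl.ann 0
      linarith
    have hb' : χ * ∑ k ∈ range (M + 1), ((k : ℝ) + 1) * a (k + 1) * (1 / (1 - p ^ (k + 1))) ≤
        ∑ k ∈ range (M + 1), (kap p I (k + 1) - I) * a (k + 1) * (1 / (1 - p ^ (k + 1))) := by
      have e : ∑ x ∈ range (M + 1), (fun k : ℕ => (χ * ((k : ℝ) + 1) - (kap p I (k + 1) - I)) * a (k + 1)) x *
          (fun k : ℕ => -(1 / (1 - p ^ (k + 1)))) x =
          (∑ k ∈ range (M + 1), (kap p I (k + 1) - I) * a (k + 1) * (1 / (1 - p ^ (k + 1)))) -
          χ * ∑ k ∈ range (M + 1), ((k : ℝ) + 1) * a (k + 1) * (1 / (1 - p ^ (k + 1))) := by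
        rw [mul_sum, ← sum_sub_distrib]
        exact sum_congr rfl fun x _ => by ring
      rw [e] at hb
      linarith
    set P := ∑ k ∈ range (M + 1), ((k : ℝ) + 1) * a (k + 1) * (1 / (1 - p ^ (k + 1))) with hP
    set E := ∑ j ∈ range (M + 1), kap p I j * a j * (1 / (1 - p ^ (j + 1))) with hE
    have h7 : E * Sj ≤ P * S1 := by nlinarith [ha']
    have h8 : χ * P ≤ I * D * A := hb'.trans hc
    have h9 : (S1 - I * A) * E = χ * (E * Sj) := by rw [← hχS]; ring
    rw [h9]
    calc χ * (E * Sj) ≤ χ * (P * S1) := mul_le_mul_of_nonneg_left h7 hχ0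
      _ = S1 * (χ * P) := by ring
      _ ≤ S1 * (I * D * A) := mul_le_mul_of_nonneg_left h8 hS1.le

/-- If `E κ < I` then `P_+ ≤_st P`. -/
theorem Law.plus_le (hl : Law M p I α f a) (Φ : ℕ → ℝ)
    (hΦ : ∀ x y, x ≤ y → y ≤ M → Φ x ≤ Φ y)
    (hS : ∑ j ∈ range (M + 1), kap p I j * a j < I * ∑ j ∈ range (M + 1), a j) :
    (∑ j ∈ range (M + 1), a j) * (∑ j ∈ range (M + 1), kap p I j * a j * Φ j) ≤
      (∑ j ∈ range (M + 1), kap p I j * a j) * (∑ j ∈ range (M + 1), a j * Φ j) := by
  have hA := hl.Apos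
  set S1 := ∑ j ∈ range (M + 1), kap p I j * a j with hS1def
  set A := ∑ j ∈ range (M + 1), a j with hAdef
  have hcr := single_crossing (M + 1) (fun j => (S1 - A * kap p I j) * a j) Φ (by
      have : ∀ j ∈ range (M + 1), (S1 - A * kap p I j) * a j = S1 * a j - A * (kap p I j * a j) :=
        fun j _ => by ring
      rw [sum_congr rfl this, sum_sub_distrib, ← mul_sum, ← mul_sum, ← hAdef, ← hS1def]; ring) (by
      intro k hk hn
      have hak := hl.ha k (by omega)
      have hn1 : 0 ≤ S1 - A * kap p I k := nonneg_of_mul_nonneg_left hn hak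
      refine mul_nonneg ?_ (hl.ann _)
      rcases le_or_gt (kap p I (k + 1)) (kap p I k) with h | h
      · have := mul_le_mul_of_nonneg_left h hA.le
        linarith
      · exfalso
        have h1 := kap_up hl.hp0 hl.hp1 hl.hI k h.le
        have := mul_le_mul_of_nonneg_left h1 hA.le
        linarith) (fun x y hxy hy => hΦ x y hxy (by omega))
  have e : ∀ c d : ℝ, ∑ x ∈ range (M + 1), (c - d * kap p I x) * a x * Φ x =
      c * (∑ j ∈ range (M + 1), a j * Φ j) - d * (∑ j ∈ range (M + 1), kap p I j * a j * Φ j) := by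
    intro c d
    rw [mul_sum, mul_sum, ← sum_sub_distrib]
    exact sum_congr rfl fun x _ => by ring
  rw [e] at hcr
  linarith

/-- The upper step: `E_+ φ - E φ ≤ D`. -/
theorem Law.upper (hl : Law M p I α f a) (D : ℝ) (hD0 : 0 ≤ D)
    (hD : p / (1 - p) - I ≤ I * D) (φ : ℕ → ℝ)
    (h0 : ∀ j, j ≤ M → φ j ≤ φ (j + 1))
    (h1 : ∀ j, j ≤ M → φ (j + 1) - φ j ≤ 1 / (1 - p ^ (j + 1))) :
    (∑ j ∈ range (M + 1), kap p I j * a j * φ j) * (∑ j ∈ range (M + 1), a j) ≤
      (∑ j ∈ range (M + 1), a j * φ j) * (∑ j ∈ range (M + 1), kap p I j * a j)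
      + D * ((∑ j ∈ range (M + 1), kap p I j * a j) * (∑ j ∈ range (M + 1), a j)) := by
  have hmono := mono_of_step φ M h0
  have hS1 := hl.S1pos
  have hA := hl.Apos
  have hI := hl.hI
  rcases le_or_gt (I * ∑ j ∈ range (M + 1), a j) (∑ j ∈ range (M + 1), kap p I j * a j) with hS | hS
  · have h2 := hl.upper_st φ hmono hS
    have h3 := hl.upper_psi D hD0 hD hS
    have h4 := Law.diff_sum (M := M) (p := p) (I := I) (a := a) φ
    have h5 : ∑ j ∈ range (M + 1), kap p I j * a j * (φ (j + 1) - φ j) ≤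
        ∑ j ∈ range (M + 1), kap p I j * a j * (1 / (1 - p ^ (j + 1))) := by
      refine sum_le_sum fun j hj => ?_
      refine mul_le_mul_of_nonneg_left (h1 j (by have := mem_range.1 hj; omega)) ?_
      exact mul_nonneg (kap_pos hl.hp0 hl.hI j).le (hl.ann j)
    set S1 := ∑ j ∈ range (M + 1), kap p I j * a j
    set A := ∑ j ∈ range (M + 1), a j
    set X' := ∑ j ∈ range (M + 1), kap p I j * a j * φ (j + 1)
    set X := ∑ j ∈ range (M + 1), kap p I j * a j * φ j
    set Y := ∑ j ∈ range (M + 1), a j * φ j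
    set Dl := ∑ j ∈ range (M + 1), kap p I j * a j * (φ (j + 1) - φ j)
    set E := ∑ j ∈ range (M + 1), kap p I j * a j * (1 / (1 - p ^ (j + 1)))
    have h6 : (S1 - I * A) * (X' - X) ≤ (S1 - I * A) * E :=
      mul_le_mul_of_nonneg_left (by linarith) (by linarith)
    have h7 : I * (A * X - S1 * Y) ≤ I * (D * (S1 * A)) := by
      calc I * (A * X - S1 * Y) ≤ (S1 - I * A) * (X' - X) := h2
        _ ≤ (S1 - I * A) * E := h6
        _ ≤ S1 * (I * D * A) := h3
        _ = I * (D * (S1 * A)) := by ring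
    have := le_of_mul_le_mul_left h7 (by linarith)
    linarith
  · have h2 := hl.plus_le φ (fun x y hxy hy => hmono x y hxy (by omega)) hS
    have h3 : 0 ≤ D * ((∑ j ∈ range (M + 1), kap p I j * a j) * (∑ j ∈ range (M + 1), a j)) := by
      positivity
    linarith

end Pool.Agent.MP_55179a_pr
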