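import Pool.Agent.Lib.MP_55179a_pr.Core5

/-!
Propagation of log-concavity: `I A ∑ κ_j κ_{j+1} a_j ≤ (I+1) S1²`.
-/

set_option autoImplicit false

namespace Pool.Agent.MP_55179a_pr

open Finset

variable {M : ℕ} {p I α : ℝ} {f a : ℕ → ℝ}

theorem kap_diff_le_one (hp0 : 0 < p) (hp1 : p < 1) (hI : 1 ≤ I) (j : ℕ) :
    kap p I (j + 1) - kap p I j ≤ 1 := by
  rw [kap_succ]
  unfold kap
  have h1 : p ^ j ≤ 1 := pow_le_one' hp0 hp1 j
  have h0 : 0 < p ^ j := by positivity
  have hj : 0 ≤ (j : ℝ) := Nat.cast_nonneg j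
  have h2 : p * (I + j + 1) - (I + j) ≤ 1 := by nlinarith
  have h3 : p ^ j * (p * (I + j + 1) - (I + j)) ≤ p ^ j * 1 := mul_le_mul_of_nonneg_left h2 h0.le
  linarith

theorem kap_ratio (hp0 : 0 < p) (hp1 : p < 1) (hI : 1 ≤ I) (j : ℕ) :
    I * kap p I (j + 1) ≤ (I + 1) * kap p I j := by
  rw [kap_succ]
  unfold kap
  have h0 : 0 < p ^ j := by positivity
  have hj : 0 ≤ (j : ℝ) := Nat.cast_nonneg j
  have h1 : p * (I + j + 1) ≤ I + j + 1 := by nlinarith
  have h2 : I * (p * (I + j + 1)) ≤ (I + 1) * (I + j) := by nlinarith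
  have := mul_le_mul_of_nonneg_left h2 h0.le
  linarith

theorem Law.lc_case1 (hl : Law M p I α f a)
    (hS : I * ∑ j ∈ range (M + 1), a j ≤ ∑ j ∈ range (M + 1), kap p I j * a j) :
    I * (∑ j ∈ range (M + 1), a j) * (∑ j ∈ range (M + 1), kap p I j * a j * kap p I (j + 1)) ≤
      (I + 1) * (∑ j ∈ range (M + 1), kap p I j * a j) ^ 2 := by
  have hp0 := hl.hp0
  have hp1 := hl.hp1
  have hI := hl.hI
  have hS1 := hl.S1pos
  have hA := hl.Apos
  set Φ : ℕ → ℝ := fun j => I + ∑ b ∈ range j, max (kap p I (b + 1) - kap p I b) 0 with hΦ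
  set Ψ : ℕ → ℝ := fun j => Φ j - kap p I j with hΨ
  have hΦs : ∀ j, Φ (j + 1) - Φ j = max (kap p I (j + 1) - kap p I j) 0 := by
    intro j; simp only [hΦ, sum_range_succ]; ring
  have hΨs : ∀ j, 0 ≤ Ψ (j + 1) - Ψ j := by
    intro j
    have h1 := hΦs j
    have h2 := le_max_left (kap p I (j + 1) - kap p I j) 0
    simp only [hΨ]; linarith
  have hΦm := mono_of_step Φ M (fun j _ => by
    have h1 := hΦs j
    have h2 := le_max_right (kap p I (j + 1) - kap p I j) 0
    linarith)
  have hΨm := mono_of_step Ψ M (fun j _ => by have := hΨs j; linarith)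
  have h1 := hl.upper_st Φ hΦm hS
  have h2 := hl.le_shift Ψ hΨm
  have h3 := Law.diff_sum (M := M) (p := p) (I := I) (a := a) Φ
  have h4 : ∑ j ∈ range (M + 1), kap p I j * a j * (Φ (j + 1) - Φ j) ≤
      ∑ j ∈ range (M + 1), kap p I j * a j := by
    refine sum_le_sum fun j _ => ?_
    rw [hΦs]
    have h5 : max (kap p I (j + 1) - kap p I j) 0 ≤ 1 :=
      max_le (kap_diff_le_one hp0 hp1 hI j) zero_le_one
    have h6 := mul_nonneg (kap_pos hp0 hI j).le (hl.ann j)
    nlinarith
  have e1 : (∑ j ∈ range (M + 1), a j * Ψ j) = (∑ j ∈ range (M + 1), a j * Φ j) -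
      ∑ j ∈ range (M + 1), kap p I j * a j := by
    rw [← sum_sub_distrib]; exact sum_congr rfl fun j _ => by simp only [hΨ]; ring
  have e2 : (∑ j ∈ range (M + 1), kap p I j * a j * Ψ (j + 1)) =
      (∑ j ∈ range (M + 1), kap p I j * a j * Φ (j + 1)) -
      ∑ j ∈ range (M + 1), kap p I j * a j * kap p I (j + 1) := by
    rw [← sum_sub_distrib]; exact sum_congr rfl fun j _ => by simp only [hΨ]; ring
  rw [e1, e2] at h2
  set S1 := ∑ j ∈ range (M + 1), kap p I j * a j
  set A := ∑ j ∈ range (M + 1), a j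
  set Q := ∑ j ∈ range (M + 1), kap p I j * a j * kap p I (j + 1)
  set X' := ∑ j ∈ range (M + 1), kap p I j * a j * Φ (j + 1)
  set X := ∑ j ∈ range (M + 1), kap p I j * a j * Φ j
  set Y := ∑ j ∈ range (M + 1), a j * Φ j
  set Dl := ∑ j ∈ range (M + 1), kap p I j * a j * (Φ (j + 1) - Φ j)
  have hDl : X' - X = Dl := h3
  have h5 : A * Q ≤ A * X' - S1 * Y + S1 ^ 2 := by nlinarith
  have h6 : I * (A * X' - S1 * Y) ≤ S1 * Dl := by
    have : I * (A * X' - S1 * Y) = I * (A * X - S1 * Y) + I * A * Dl := by rw [← hDl]; ring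
    rw [this, ← hDl]
    nlinarith [h1]
  have h7 : S1 * Dl ≤ S1 * S1 := mul_le_mul_of_nonneg_left h4 hS1.le
  have h8 := mul_le_mul_of_nonneg_left h5 (show (0 : ℝ) ≤ I by linarith)
  nlinarith [h8, h6, h7]

theorem Law.lc_case2 (hl : Law M p I α f a)
    (hS : ∑ j ∈ range (M + 1), kap p I j * a j < I * ∑ j ∈ range (M + 1), a j) :
    I * (∑ j ∈ range (M + 1), a j) * (∑ j ∈ range (M + 1), kap p I j * a j * kap p I (j + 1)) ≤
      (I + 1) * (∑ j ∈ range (M + 1), kap p I j * a j) ^ 2 := by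
  have hp0 := hl.hp0
  have hp1 := hl.hp1
  have hI := hl.hI
  have hS1 := hl.S1pos
  have hA := hl.Apos
  have hpl := fun Φ h => hl.plus_le Φ h hS
  have hls := fun Φ h => hl.le_shift Φ h
  obtain ⟨S1, hS1def⟩ : ∃ S1, S1 = ∑ j ∈ range (M + 1), kap p I j * a j := ⟨_, rfl⟩
  obtain ⟨A, hAdef⟩ : ∃ A, A = ∑ j ∈ range (M + 1), a j := ⟨_, rfl⟩
  simp only [← hS1def, ← hAdef] at hS hS1 hA hpl hls ⊢
  set S : ℕ → ℝ := fun b => ∑ j ∈ range b, (A * kap p I j - S1) * a j with hSdef
  have hSs : ∀ b, S (b + 1) = S b + (A * kap p I b - S1) * a b := fun b => by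
    simp only [hSdef, sum_range_succ]
  have hStot : S (M + 1) = 0 := by
    have : ∀ j ∈ range (M + 1), (A * kap p I j - S1) * a j = A * (kap p I j * a j) - S1 * a j :=
      fun j _ => by ring
    simp only [hSdef]
    rw [sum_congr rfl this, sum_sub_distrib, ← mul_sum, ← mul_sum, ← hAdef, ← hS1def]; ring
  -- tail formulas
  have htail : ∀ b, b ≤ M + 1 → S b = S1 * (∑ j ∈ range (M + 1), a j * (if b ≤ j then 1 else 0)) -
      A * (∑ j ∈ range (M + 1), kap p I j * a j * (if b ≤ j then 1 else 0)) := by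
    intro b hb
    have h1 : S (M + 1) = S b + ∑ j ∈ range (M + 1), (A * kap p I j - S1) * a j * (if b ≤ j then 1 else 0) := by
      obtain ⟨d, hd⟩ := Nat.exists_eq_add_of_le hb
      simp only [hSdef]
      rw [hd]
      clear hb hd hStot
      induction d with
      | zero =>
        simp only [add_zero]
        have : ∑ j ∈ range b, (A * kap p I j - S1) * a j * (if b ≤ j then (1 : ℝ) else 0) = 0 := by
          refine sum_eq_zero fun j hj => ?_
          rw [if_neg (by have := mem_range.1 hj; omega), mul_zero]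
        rw [this, add_zero]
      | succ d ih =>
        rw [← add_assoc, sum_range_succ, ih, sum_range_succ _ (b + d), if_pos (by omega)]
        ring
    rw [hStot] at h1
    have h2 : ∑ j ∈ range (M + 1), (A * kap p I j - S1) * a j * (if b ≤ j then (1 : ℝ) else 0) =
        A * (∑ j ∈ range (M + 1), kap p I j * a j * (if b ≤ j then 1 else 0)) -
        S1 * (∑ j ∈ range (M + 1), a j * (if b ≤ j then 1 else 0)) := by
      rw [mul_sum, mul_sum, ← sum_sub_distrib]
      exact sum_congr rfl fun j _ => by ring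
    rw [h2] at h1
    linarith
  have hind : ∀ b : ℕ, ∀ x y : ℕ, x ≤ y → (if b ≤ x then (1 : ℝ) else 0) ≤ (if b ≤ y then 1 else 0) := by
    intro b x y hxy
    split_ifs with h1 h2
    · exact le_rfl
    · exact absurd (h1.trans hxy) h2
    · exact zero_le_one
    · exact le_rfl
  have hSnn : ∀ b, b ≤ M + 1 → 0 ≤ S b := by
    intro b hb
    rw [htail b hb]
    have := hpl (fun j => if b ≤ j then 1 else 0) (fun x y hxy _ => hind b x y hxy)
    linarith
  have hSle : ∀ b, b ≤ M → S (b + 1) ≤ A * (kap p I b * a b) := by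
    intro b hb
    rw [htail (b + 1) (by omega)]
    have h1 := hls (fun j => if b + 1 ≤ j then 1 else 0) (fun x y hxy _ => hind (b + 1) x y hxy)
    have h2 : ∑ j ∈ range (M + 1), kap p I j * a j * (if b + 1 ≤ j + 1 then (1 : ℝ) else 0) =
        (∑ j ∈ range (M + 1), kap p I j * a j * (if b + 1 ≤ j then 1 else 0)) + kap p I b * a b := by
      have h3 : ∀ j ∈ range (M + 1), kap p I j * a j * (if b + 1 ≤ j + 1 then (1 : ℝ) else 0) =
          kap p I j * a j * (if b + 1 ≤ j then 1 else 0) + (if j = b then kap p I j * a j else 0) := by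
        intro j _
        by_cases h : j = b
        · subst h; simp
        · by_cases h' : b + 1 ≤ j
          · rw [if_pos (by omega), if_pos h', if_neg h]; ring
          · rw [if_neg (by omega), if_neg h', if_neg h]; ring
      rw [sum_congr rfl h3, sum_add_distrib, sum_ite_eq' (range (M + 1)) b]
      rw [if_pos (by simp; omega)]
    have h1' : (∑ j ∈ range (M + 1), a j * (if b + 1 ≤ j then (1 : ℝ) else 0)) * S1 ≤
        (∑ j ∈ range (M + 1), kap p I j * a j * (if b + 1 ≤ j + 1 then (1 : ℝ) else 0)) * A := h1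
    rw [h2] at h1'
    nlinarith [h1']
  -- main identity
  have hid : S1 ^ 2 = ∑ j ∈ range (M + 1), (kap p I j * (A * (kap p I j * a j) - S (j + 1)) +
      kap p I (j + 1) * S (j + 1)) := by
    have h1 : S1 ^ 2 = ∑ j ∈ range (M + 1), kap p I j * (S1 * a j) := by
      rw [sq]
      nth_rewrite 2 [hS1def]
      rw [mul_sum]; exact sum_congr rfl fun j _ => by ring
    have h2 : ∑ j ∈ range (M + 1), kap p I (j + 1) * S (j + 1) = ∑ j ∈ range (M + 1), kap p I j * S j := by
      have h3 := sum_range_succ' (fun j => kap p I j * S j) (M + 1)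
      rw [sum_range_succ _ (M + 1)] at h3
      have hS0 : S 0 = 0 := by simp [hSdef]
      simp only [hStot, hS0, mul_zero, add_zero] at h3
      exact h3.symm
    rw [sum_add_distrib, h2, ← sum_add_distrib, h1]
    refine sum_congr rfl fun j _ => ?_
    rw [hSs]; ring
  rw [hid, mul_sum, mul_sum]
  refine sum_le_sum fun j hj => ?_
  have hjM : j ≤ M := by have := mem_range.1 hj; omega
  have h1 := kap_ratio hp0 hp1 hI j
  have h2 := hSle j hjM
  have h3 := hSnn (j + 1) (by omega)
  have h4 := kap_pos hp0 hI (j + 1)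
  have h5 : I * kap p I (j + 1) * (A * (kap p I j * a j) - S (j + 1)) ≤
      (I + 1) * kap p I j * (A * (kap p I j * a j) - S (j + 1)) :=
    mul_le_mul_of_nonneg_right h1 (by linarith)
  have h6 : 0 ≤ kap p I (j + 1) * S (j + 1) := mul_nonneg h4.le h3
  nlinarith [h5, h6]

theorem Law.lc (hl : Law M p I α f a) :
    I * (∑ j ∈ range (M + 1), a j) * (∑ j ∈ range (M + 1), kap p I j * a j * kap p I (j + 1)) ≤
      (I + 1) * (∑ j ∈ range (M + 1), kap p I j * a j) ^ 2 := by
  rcases le_or_gt (I * ∑ j ∈ range (M + 1), a j) (∑ j ∈ range (M + 1), kap p I j * a j) with hS | hS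
  · exact hl.lc_case1 hS
  · exact hl.lc_case2 hS

end Pool.Agent.MP_55179a_pr
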