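import Mathlib

/-!
Common definitions for the proof of monotonicity of the speed of the one-dimensional
Domb-Joyce polymer (MP_55179a_pr).
-/

set_option autoImplicit false

namespace Pool.Agent.MP_55179a_pr

open Finset

/-- The transfer kernel over edges: `K r β i j = binom(i+j, i) exp(r (i+j+1) - β (i+j+1)^2)`. -/
noncomputable def K (r β : ℝ) (i j : ℕ) : ℝ :=
  ((i + j).choose i : ℝ) * Real.exp (r * ((i : ℝ) + j + 1) - β * ((i : ℝ) + j + 1) ^ 2)

/-- Iterates of the truncated kernel, started from the unit vector at `0`. -/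
noncomputable def g (M : ℕ) (r β : ℝ) : ℕ → ℕ → ℝ
  | 0 => fun i => if i = 0 then 1 else 0
  | L + 1 => fun i => ∑ j ∈ range (M + 1), K r β i j * g M r β L j

/-- Sum over nearest neighbour walks with `n` steps started at `x` (as lists of positions). -/
noncomputable def ws : ℕ → ℤ → (List ℤ → ℝ) → ℝ
  | 0, x, G => G [x]
  | n + 1, x, G => ws n (x + 1) (fun l => G (x :: l)) + ws n (x - 1) (fun l => G (x :: l))

/-- The number of ordered pairs of equal entries (sum of squared local times). -/
def Hl (l : List ℤ) : ℕ := (l.map fun y => l.count y).sum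

/-- Weighted number of bridges with `n` steps and span `L`. -/
noncomputable def Br (β : ℝ) (n L : ℕ) : ℝ :=
  ws n 0 (fun l => if (∀ y ∈ l, 0 ≤ y ∧ y ≤ (L : ℤ)) ∧ l.getLastD 0 = (L : ℤ) then
    Real.exp (-β * (Hl l : ℝ)) else 0)

/-- Weighted number of all walks. -/
noncomputable def Zf (β : ℝ) (n : ℕ) : ℝ := ws n 0 (fun l => Real.exp (-β * (Hl l : ℝ)))

/-- Weighted number of walks ending in `[0, ∞)`, with a drift `-a`. -/
noncomputable def Zp (β a : ℝ) (n : ℕ) : ℝ :=
  ws n 0 (fun l => if 0 ≤ l.getLastD 0 then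
    Real.exp (-β * (Hl l : ℝ) - a * ((l.getLastD 0 : ℤ) : ℝ)) else 0)

end Pool.Agent.MP_55179a_pr
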