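import Pool.Agent.Lib.MP_55179a_pr.Core6
import Pool.Agent.Lib.MP_55179a_pr.Defs

/-!
Iteration of the one-step inequalities: log-concavity of `g` and monotonicity in `r` of the tilted ratios.
-/

set_option autoImplicit false

namespace Pool.Agent.MP_55179a_pr

open Finset

/-- `p = e^{-2β}`. -/
noncomputable def pp (β : ℝ) : ℝ := Real.exp (-(2 * β))

theorem pp_pos (β : ℝ) : 0 < pp β := Real.exp_pos _
theorem pp_lt_one {β : ℝ} (hβ : 0 < β) : pp β < 1 := by
  unfold pp; rw [Real.exp_lt_one_iff]; linarith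

theorem K_pos (r β : ℝ) (i j : ℕ) : 0 < K r β i j := by
  unfold K
  have : 0 < (i + j).choose i := Nat.choose_pos (by omega)
  have : (0 : ℝ) < ((i + j).choose i : ℝ) := by exact_mod_cast this
  positivity

theorem pp_pow (β : ℝ) (j : ℕ) : pp β ^ j = Real.exp (-(2 * β) * j) := by
  unfold pp; rw [← Real.exp_nat_mul]; ring_nf

/-- constant in the relation between consecutive rows -/
noncomputable def crow (r β : ℝ) (i : ℕ) : ℝ := Real.exp (r - β * (2 * (i : ℝ) + 3))

theorem crow_pos (r β : ℝ) (i : ℕ) : 0 < crow r β i := Real.exp_pos _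

theorem crow_succ (r β : ℝ) (i : ℕ) : crow r β (i + 1) = crow r β i * pp β := by
  unfold crow pp; rw [← Real.exp_add]; congr 1; push_cast; ring

theorem choose_succ_left (i j : ℕ) :
    ((i : ℝ) + 1) * ((i + 1 + j).choose (i + 1) : ℝ) = ((i : ℝ) + 1 + j) * ((i + j).choose i : ℝ) := by
  have h := Nat.add_one_mul_choose_eq (i + j) i
  have h2 : ((i + j + 1 : ℕ) : ℝ) * ((i + j).choose i : ℝ) =
      ((i + j + 1).choose (i + 1) : ℝ) * ((i + 1 : ℕ) : ℝ) := by exact_mod_cast h
  rw [show i + 1 + j = i + j + 1 by ring]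
  push_cast at h2
  linarith

theorem choose_succ_right (i j : ℕ) :
    ((j : ℝ) + 1) * ((i + (j + 1)).choose i : ℝ) = ((i : ℝ) + 1 + j) * ((i + j).choose i : ℝ) := by
  have h := choose_succ_left j i
  have e1 : (j + 1 + i).choose (j + 1) = (i + (j + 1)).choose i := by
    rw [show j + 1 + i = i + (j + 1) by ring]
    exact Nat.choose_symm_of_eq_add (by ring)
  have e2 : (j + i).choose j = (i + j).choose i := by
    rw [show j + i = i + j by ring]
    exact Nat.choose_symm_of_eq_add (by ring)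
  rw [e1, e2] at h
  linarith

theorem exp_step (r β : ℝ) (i j : ℕ) :
    Real.exp (r * ((i : ℝ) + 1 + j + 1) - β * ((i : ℝ) + 1 + j + 1) ^ 2) =
      Real.exp (r * ((i : ℝ) + j + 1) - β * ((i : ℝ) + j + 1) ^ 2) * crow r β i * pp β ^ j := by
  rw [pp_pow]; unfold crow
  rw [← Real.exp_add, ← Real.exp_add]; congr 1; ring

theorem K_succ_left (r β : ℝ) (i j : ℕ) :
    ((i : ℝ) + 1) * K r β (i + 1) j = crow r β i * (kap (pp β) ((i : ℝ) + 1) j * K r β i j) := by
  unfold K kap
  have h := choose_succ_left i j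
  have e := exp_step r β i j
  push_cast
  rw [e]
  calc ((i : ℝ) + 1) * (((i + 1 + j).choose (i + 1) : ℝ) *
        (Real.exp (r * ((i : ℝ) + j + 1) - β * ((i : ℝ) + j + 1) ^ 2) * crow r β i * pp β ^ j))
      = (((i : ℝ) + 1) * ((i + 1 + j).choose (i + 1) : ℝ)) *
        (Real.exp (r * ((i : ℝ) + j + 1) - β * ((i : ℝ) + j + 1) ^ 2) * crow r β i * pp β ^ j) := by ring
    _ = _ := by rw [h]; ring

theorem K_succ_right (r β : ℝ) (i j : ℕ) :
    ((j : ℝ) + 1) * K r β i (j + 1) = crow r β i * (kap (pp β) ((i : ℝ) + 1) j * K r β i j) := by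
  unfold K kap
  have h := choose_succ_right i j
  have e := exp_step r β i j
  have e' : Real.exp (r * ((i : ℝ) + ((j + 1 : ℕ) : ℝ) + 1) - β * ((i : ℝ) + ((j + 1 : ℕ) : ℝ) + 1) ^ 2) =
      Real.exp (r * ((i : ℝ) + j + 1) - β * ((i : ℝ) + j + 1) ^ 2) * crow r β i * pp β ^ j := by
    rw [← e]; congr 1; push_cast; ring
  rw [e']
  calc ((j : ℝ) + 1) * (((i + (j + 1)).choose i : ℝ) *
        (Real.exp (r * ((i : ℝ) + j + 1) - β * ((i : ℝ) + j + 1) ^ 2) * crow r β i * pp β ^ j))
      = (((j : ℝ) + 1) * ((i + (j + 1)).choose i : ℝ)) *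
        (Real.exp (r * ((i : ℝ) + j + 1) - β * ((i : ℝ) + j + 1) ^ 2) * crow r β i * pp β ^ j) := by ring
    _ = _ := by rw [h]; ring

theorem g_zero_zero (M : ℕ) (r β : ℝ) : g M r β 0 0 = 1 := by simp [g]

theorem g_succ (M : ℕ) (r β : ℝ) (L i : ℕ) :
    g M r β (L + 1) i = ∑ j ∈ range (M + 1), K r β i j * g M r β L j := rfl

theorem g_one (M : ℕ) (r β : ℝ) (i : ℕ) : g M r β 1 i = K r β i 0 := by
  rw [g_succ]
  rw [sum_eq_single 0]
  · simp [g]
  · intro j _ hj; simp [g, hj]
  · simp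

theorem g_pos (M : ℕ) (r β : ℝ) (L i : ℕ) : 0 < g M r β (L + 1) i := by
  induction L generalizing i with
  | zero => rw [g_one]; exact K_pos _ _ _ _
  | succ L ih =>
    rw [g_succ]
    exact sum_pos (fun j _ => mul_pos (K_pos _ _ _ _) (ih j)) ⟨0, by simp⟩

/-- The law attached to row `i`. -/
noncomputable def aa (M : ℕ) (r β : ℝ) (L i : ℕ) (j : ℕ) : ℝ :=
  if j ≤ M then K r β i j * g M r β L j else 0

theorem sum_aa (M : ℕ) (r β : ℝ) (L i : ℕ) (h : ℕ → ℝ) :
    ∑ j ∈ range (M + 1), aa M r β L i j * h j = ∑ j ∈ range (M + 1), K r β i j * g M r β L j * h j := by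
  refine sum_congr rfl fun j hj => ?_
  rw [aa, if_pos (by have := mem_range.1 hj; omega)]

/-- from consecutive to general log-concavity -/
theorem lc_general (f : ℕ → ℝ) (hf : ∀ j, 0 < f j)
    (h : ∀ j, f j * f (j + 2) ≤ f (j + 1) ^ 2) (x y : ℕ) (hxy : x ≤ y) :
    f x * f (y + 1) ≤ f (x + 1) * f y := by
  obtain ⟨d, rfl⟩ := Nat.exists_eq_add_of_le hxy
  clear hxy
  induction d with
  | zero => simp [mul_comm]
  | succ d ih =>
    have h1 := h (x + d)
    have p0 := hf x
    have p1 := hf (x + 1)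
    have p2 := hf (x + d)
    have p3 := hf (x + d + 1)
    have p4 := hf (x + d + 2)
    show f x * f (x + d + 2) ≤ f (x + 1) * f (x + d + 1)
    have h2 : f x * f (x + d + 2) * f (x + d + 1) * f (x + d) ≤
        f (x + 1) * f (x + d + 1) * f (x + d + 1) * f (x + d) := by
      calc f x * f (x + d + 2) * f (x + d + 1) * f (x + d)
          = (f x * f (x + d + 1)) * (f (x + d) * f (x + d + 2)) := by ring
        _ ≤ (f (x + 1) * f (x + d)) * (f (x + d + 1) ^ 2) :=
            mul_le_mul ih h1 (by positivity) (by positivity)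
        _ = _ := by ring
    have h3 := le_of_mul_le_mul_right h2 p2
    exact le_of_mul_le_mul_right h3 p3

theorem law_of (M : ℕ) (r β : ℝ) (hβ : 0 < β) (L i : ℕ)
    (hlc : ∀ j, g M r β (L + 1) j * g M r β (L + 1) (j + 2) ≤ g M r β (L + 1) (j + 1) ^ 2) :
    Law M (pp β) ((i : ℝ) + 1) (crow r β i) (g M r β (L + 1)) (aa M r β (L + 1) i) where
  hp0 := pp_pos β
  hp1 := pp_lt_one hβ
  hI := by have : (0 : ℝ) ≤ i := Nat.cast_nonneg i; linarith
  hα := crow_pos r β i
  ha := fun j hj => by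
    rw [aa, if_pos hj]; exact mul_pos (K_pos _ _ _ _) (g_pos _ _ _ _ _)
  ha0 := fun j hj => by rw [aa, if_neg (by omega)]
  hf := fun j _ => g_pos _ _ _ _ _
  hlc := fun x y hxy _ => lc_general _ (fun j => g_pos _ _ _ _ _) hlc x y hxy
  rel := fun j hj => by
    rw [aa, if_pos hj, aa, if_pos (by omega)]
    have h := K_succ_right r β i j
    unfold kap at h
    calc ((j : ℝ) + 1) * g M r β (L + 1) j * (K r β i (j + 1) * g M r β (L + 1) (j + 1))
        = (((j : ℝ) + 1) * K r β i (j + 1)) * (g M r β (L + 1) j * g M r β (L + 1) (j + 1)) := by ring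
      _ = _ := by rw [h]; ring

theorem sum_kap_aa (M : ℕ) (r β : ℝ) (L i : ℕ) (h : ℕ → ℝ) :
    crow r β i * ∑ j ∈ range (M + 1), kap (pp β) ((i : ℝ) + 1) j * aa M r β L i j * h j =
      ((i : ℝ) + 1) * ∑ j ∈ range (M + 1), K r β (i + 1) j * g M r β L j * h j := by
  rw [mul_sum, mul_sum]
  refine sum_congr rfl fun j hj => ?_
  rw [aa, if_pos (by have := mem_range.1 hj; omega)]
  have := K_succ_left r β i j
  calc crow r β i * (kap (pp β) ((i : ℝ) + 1) j * (K r β i j * g M r β L j) * h j)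
      = (crow r β i * (kap (pp β) ((i : ℝ) + 1) j * K r β i j)) * (g M r β L j * h j) := by ring
    _ = _ := by rw [← this]; ring

/-- Log-concavity of `g`. -/
theorem g_lc (M : ℕ) (r β : ℝ) (hβ : 0 < β) (L : ℕ) :
    ∀ i, g M r β (L + 1) i * g M r β (L + 1) (i + 2) ≤ g M r β (L + 1) (i + 1) ^ 2 := by
  induction L with
  | zero =>
    intro i
    rw [g_one, g_one, g_one]
    unfold K
    simp only [add_zero, Nat.choose_self, Nat.cast_one, one_mul, CharP.cast_eq_zero]
    rw [← Real.exp_add, ← Real.exp_nat_mul]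
    apply Real.exp_le_exp.2
    push_cast
    nlinarith
  | succ L ih =>
    intro i
    have hl := law_of M r β hβ L i ih
    have h := hl.lc
    have e0 : ∑ j ∈ range (M + 1), aa M r β (L + 1) i j = g M r β (L + 1 + 1) i := by
      have := sum_aa M r β (L + 1) i (fun _ => 1)
      simpa [g_succ] using this
    have e1 : crow r β i * ∑ j ∈ range (M + 1), kap (pp β) ((i : ℝ) + 1) j * aa M r β (L + 1) i j =
        ((i : ℝ) + 1) * g M r β (L + 1 + 1) (i + 1) := by
      have := sum_kap_aa M r β (L + 1) i (fun _ => 1)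
      simpa [g_succ] using this
    have e2 : crow r β i ^ 2 * ∑ j ∈ range (M + 1), kap (pp β) ((i : ℝ) + 1) j * aa M r β (L + 1) i j *
        kap (pp β) ((i : ℝ) + 1) (j + 1) =
        ((i : ℝ) + 1) * ((i : ℝ) + 2) * g M r β (L + 1 + 1) (i + 2) := by
      have h1 := sum_kap_aa M r β (L + 1) i (fun j => kap (pp β) ((i : ℝ) + 1) (j + 1))
      have h2 := sum_kap_aa M r β (L + 1) (i + 1) (fun _ => 1)
      rw [sq, mul_assoc, h1]
      have h3 : crow r β i * ∑ j ∈ range (M + 1), K r β (i + 1) j * g M r β (L + 1) j *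
          kap (pp β) ((i : ℝ) + 1) (j + 1) =
          crow r β (i + 1) * ∑ j ∈ range (M + 1), kap (pp β) (((i + 1 : ℕ) : ℝ) + 1) j *
            aa M r β (L + 1) (i + 1) j * 1 := by
        rw [crow_succ, mul_assoc (crow r β i)]
        congr 1
        rw [mul_sum]
        refine sum_congr rfl fun j hj => ?_
        rw [aa, if_pos (by have := mem_range.1 hj; omega), kap_succ]
        unfold kap
        push_cast
        ring
      calc crow r β i * (((i : ℝ) + 1) * ∑ j ∈ range (M + 1), K r β (i + 1) j * g M r β (L + 1) j *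
            kap (pp β) ((i : ℝ) + 1) (j + 1))
          = ((i : ℝ) + 1) * (crow r β i * ∑ j ∈ range (M + 1), K r β (i + 1) j * g M r β (L + 1) j *
            kap (pp β) ((i : ℝ) + 1) (j + 1)) := by ring
        _ = _ := by
          rw [h3, h2, g_succ M r β (L + 1) (i + 2)]
          simp only [mul_one]
          push_cast
          ring
    rw [e0] at h
    have hc := crow_pos r β i
    have hi : (0 : ℝ) < (i : ℝ) + 1 := by positivity
    have h4 := mul_le_mul_of_nonneg_left h (sq_nonneg (crow r β i))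
    set S1 := ∑ j ∈ range (M + 1), kap (pp β) ((i : ℝ) + 1) j * aa M r β (L + 1) i j
    set Q := ∑ j ∈ range (M + 1), kap (pp β) ((i : ℝ) + 1) j * aa M r β (L + 1) i j *
        kap (pp β) ((i : ℝ) + 1) (j + 1)
    have h5 : ((i : ℝ) + 1) * g M r β (L + 1 + 1) i * (crow r β i ^ 2 * Q) ≤
        ((i : ℝ) + 2) * (crow r β i * S1) ^ 2 := by
      calc ((i : ℝ) + 1) * g M r β (L + 1 + 1) i * (crow r β i ^ 2 * Q)
          = crow r β i ^ 2 * (((i : ℝ) + 1) * g M r β (L + 1 + 1) i * Q) := by ring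
        _ ≤ crow r β i ^ 2 * (((i : ℝ) + 1 + 1) * S1 ^ 2) := h4
        _ = _ := by ring
    rw [e1, e2] at h5
    have h6 : (((i : ℝ) + 1) ^ 2 * ((i : ℝ) + 2)) * (g M r β (L + 1 + 1) i * g M r β (L + 1 + 1) (i + 2)) ≤
        (((i : ℝ) + 1) ^ 2 * ((i : ℝ) + 2)) * (g M r β (L + 1 + 1) (i + 1) ^ 2) := by
      nlinarith [h5]
    exact le_of_mul_le_mul_left h6 (by positivity)

end Pool.Agent.MP_55179a_pr
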