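import Pool.Agent.Lib.MP_55179a_pr.Core7

/-!
The logarithmic derivative of `g` in `r` and the monotonicity of the tilted ratios.
-/

set_option autoImplicit false

namespace Pool.Agent.MP_55179a_pr

open Finset

/-- Half of the (normalised) logarithmic derivative in `r`. -/
noncomputable def ph (M : ℕ) (r β : ℝ) : ℕ → ℕ → ℝ
  | 0 => fun _ => 0
  | L + 1 => fun i => i + (∑ j ∈ range (M + 1), K r β i j * g M r β L j * ph M r β L j) /
      g M r β (L + 1) i

theorem ph_succ (M : ℕ) (r β : ℝ) (L i : ℕ) :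
    ph M r β (L + 1) i = i + (∑ j ∈ range (M + 1), K r β i j * g M r β L j * ph M r β L j) /
      g M r β (L + 1) i := rfl

theorem ph_one (M : ℕ) (r β : ℝ) (i : ℕ) : ph M r β 1 i = i := by
  rw [ph_succ]
  simp [ph]

/-- The closed system. -/
theorem ph_bounds (M : ℕ) (r β : ℝ) (hβ : 0 < β) (L : ℕ) :
    ∀ i, 0 ≤ ph M r β (L + 1) (i + 1) - ph M r β (L + 1) i ∧
      ph M r β (L + 1) (i + 1) - ph M r β (L + 1) i ≤ 1 / (1 - pp β ^ (i + 1)) := by
  have hp0 := pp_pos β
  have hp1 := pp_lt_one hβ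
  induction L with
  | zero =>
    intro i
    rw [ph_one, ph_one]
    push_cast
    refine ⟨by linarith, ?_⟩
    rw [le_div_iff₀ (one_sub_pow_pos hp0 hp1 i)]
    have : 0 < pp β ^ (i + 1) := by positivity
    linarith
  | succ L ih =>
    intro i
    have hl := law_of M r β hβ L i (g_lc M r β hβ L)
    have h0 : ∀ j, j ≤ M → ph M r β (L + 1) j ≤ ph M r β (L + 1) (j + 1) := fun j _ => by
      have := (ih j).1; linarith
    have h1 : ∀ j, j ≤ M → ph M r β (L + 1) (j + 1) - ph M r β (L + 1) j ≤ 1 / (1 - pp β ^ (j + 1)) :=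
      fun j _ => (ih j).2
    have hlow := hl.lower (ph M r β (L + 1)) h0 h1
    set D : ℝ := 1 / (1 - pp β ^ (i + 1)) - 1 with hDdef
    have hpi := one_sub_pow_pos hp0 hp1 i
    have hpipos : 0 < pp β ^ (i + 1) := by positivity
    have hD0 : 0 ≤ D := by
      rw [hDdef, sub_nonneg, le_div_iff₀ hpi]; linarith
    have hDI : pp β / (1 - pp β) - ((i : ℝ) + 1) ≤ ((i : ℝ) + 1) * D := by
      rw [hDdef]
      have h2 : pp β / (1 - pp β) ≤ ((i : ℝ) + 1) * (1 / (1 - pp β ^ (i + 1))) := by
        rw [mul_one_div, div_le_div_iff₀ (by linarith) hpi]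
        have h3 := one_sub_pow_le hp0 hp1 (i + 1)
        push_cast at h3
        nlinarith
      linarith
    have hup := hl.upper D hD0 hDI (ph M r β (L + 1)) h0 h1
    -- translate
    have e0 : ∑ j ∈ range (M + 1), aa M r β (L + 1) i j = g M r β (L + 1 + 1) i := by
      have := sum_aa M r β (L + 1) i (fun _ => 1)
      simpa [g_succ] using this
    have e1 : crow r β i * ∑ j ∈ range (M + 1), kap (pp β) ((i : ℝ) + 1) j * aa M r β (L + 1) i j =
        ((i : ℝ) + 1) * g M r β (L + 1 + 1) (i + 1) := by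
      have := sum_kap_aa M r β (L + 1) i (fun _ => 1)
      simpa [g_succ] using this
    have e2 := sum_aa M r β (L + 1) i (ph M r β (L + 1))
    have e3 := sum_kap_aa M r β (L + 1) i (ph M r β (L + 1))
    have hS1 := hl.S1pos
    have hA := hl.Apos
    have hc := crow_pos r β i
    have hi : (0 : ℝ) < (i : ℝ) + 1 := by positivity
    have hg0 := g_pos M r β (L + 1) i
    have hg1 := g_pos M r β (L + 1) (i + 1)
    rw [ph_succ M r β (L + 1) (i + 1), ph_succ M r β (L + 1) i]
    have e4 : (∑ j ∈ range (M + 1), K r β (i + 1) j * g M r β (L + 1) j * ph M r β (L + 1) j) /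
        g M r β (L + 1 + 1) (i + 1) =
        (∑ j ∈ range (M + 1), kap (pp β) ((i : ℝ) + 1) j * aa M r β (L + 1) i j * ph M r β (L + 1) j) /
        ∑ j ∈ range (M + 1), kap (pp β) ((i : ℝ) + 1) j * aa M r β (L + 1) i j := by
      rw [div_eq_div_iff hg1.ne' hS1.ne']
      have h5 : (crow r β i * ((i : ℝ) + 1)) *
          ((∑ j ∈ range (M + 1), K r β (i + 1) j * g M r β (L + 1) j * ph M r β (L + 1) j) *
          ∑ j ∈ range (M + 1), kap (pp β) ((i : ℝ) + 1) j * aa M r β (L + 1) i j) =
          (crow r β i * ((i : ℝ) + 1)) *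
          ((∑ j ∈ range (M + 1), kap (pp β) ((i : ℝ) + 1) j * aa M r β (L + 1) i j * ph M r β (L + 1) j) *
          g M r β (L + 1 + 1) (i + 1)) := by
        calc _ = (((i : ℝ) + 1) * ∑ j ∈ range (M + 1), K r β (i + 1) j * g M r β (L + 1) j * ph M r β (L + 1) j) *
            (crow r β i * ∑ j ∈ range (M + 1), kap (pp β) ((i : ℝ) + 1) j * aa M r β (L + 1) i j) := by ring
          _ = _ := by rw [← e3, e1]; ring
      exact mul_left_cancel₀ (by positivity) h5
    have e5 : (∑ j ∈ range (M + 1), K r β i j * g M r β (L + 1) j * ph M r β (L + 1) j) /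
        g M r β (L + 1 + 1) i =
        (∑ j ∈ range (M + 1), aa M r β (L + 1) i j * ph M r β (L + 1) j) /
        ∑ j ∈ range (M + 1), aa M r β (L + 1) i j := by
      rw [e2, e0]
    rw [e4, e5]
    set S1 := ∑ j ∈ range (M + 1), kap (pp β) ((i : ℝ) + 1) j * aa M r β (L + 1) i j
    set A := ∑ j ∈ range (M + 1), aa M r β (L + 1) i j
    set X := ∑ j ∈ range (M + 1), kap (pp β) ((i : ℝ) + 1) j * aa M r β (L + 1) i j * ph M r β (L + 1) j
    set Y := ∑ j ∈ range (M + 1), aa M r β (L + 1) i j * ph M r β (L + 1) j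
    have hdiff : X / S1 - Y / A = (X * A - Y * S1) / (S1 * A) := by
      rw [div_sub_div _ _ hS1.ne' hA.ne']; ring
    push_cast
    have hlow' : -1 ≤ X / S1 - Y / A := by
      rw [hdiff, le_div_iff₀ (by positivity)]; linarith
    have hup' : X / S1 - Y / A ≤ D := by
      rw [hdiff, div_le_iff₀ (by positivity)]; linarith
    constructor
    · linarith
    · rw [hDdef] at hup'; linarith

theorem ph_bound_const (M : ℕ) (r β : ℝ) (hβ : 0 < β) (L i : ℕ) :
    ph M r β (L + 1) (i + 1) - ph M r β (L + 1) i ≤ 1 / (1 - pp β) := by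
  refine (ph_bounds M r β hβ L i).2.trans ?_
  apply one_div_le_one_div_of_le (by have := pp_lt_one hβ; linarith)
  have := pow_le_pow_of_le_one (pp_pos β).le (pp_lt_one hβ).le (show 1 ≤ i + 1 by omega)
  simp only [pow_one] at this
  linarith

theorem hasDerivAt_g (M : ℕ) (r β : ℝ) (L : ℕ) :
    ∀ i, HasDerivAt (fun r => g M r β L i)
      (g M r β L i * (2 * ph M r β L i - i + L)) r := by
  induction L with
  | zero =>
    intro i
    have h : g M r β 0 i * (2 * ph M r β 0 i - i + (0 : ℕ)) = 0 := by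
      by_cases hi : i = 0
      · subst hi; simp [ph]
      · simp [g, hi]
    rw [h]
    have : (fun r => g M r β 0 i) = fun _ => (if i = 0 then (1 : ℝ) else 0) := by
      funext r; rfl
    rw [this]
    exact hasDerivAt_const _ _
  | succ L ih =>
    intro i
    have hK : ∀ j, HasDerivAt (fun r => K r β i j) (K r β i j * ((i : ℝ) + j + 1)) r := by
      intro j
      unfold K
      have h1 : HasDerivAt (fun r : ℝ => r * ((i : ℝ) + j + 1) - β * ((i : ℝ) + j + 1) ^ 2)
          ((i : ℝ) + j + 1) r := by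
        have := ((hasDerivAt_id r).mul_const ((i : ℝ) + j + 1)).sub_const (β * ((i : ℝ) + j + 1) ^ 2)
        simpa using this
      have h2 := (h1.exp).const_mul ((i + j).choose i : ℝ)
      exact h2.congr_deriv (by ring)
    have hsum : HasDerivAt (fun r => ∑ j ∈ range (M + 1), K r β i j * g M r β L j)
        (∑ j ∈ range (M + 1), (K r β i j * ((i : ℝ) + j + 1) * g M r β L j +
          K r β i j * (g M r β L j * (2 * ph M r β L j - j + L)))) r := by
      apply HasDerivAt.fun_sum
      intro j _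
      exact (hK j).mul (ih j)
    have hg0 := g_pos M r β L i
    show HasDerivAt (fun r => ∑ j ∈ range (M + 1), K r β i j * g M r β L j) _ r
    refine hsum.congr_deriv ?_
    rw [ph_succ]
    have e : g M r β (L + 1) i * (2 * ((i : ℝ) + (∑ j ∈ range (M + 1), K r β i j * g M r β L j * ph M r β L j) /
      g M r β (L + 1) i) - i + ((L + 1 : ℕ) : ℝ)) =
      2 * (∑ j ∈ range (M + 1), K r β i j * g M r β L j * ph M r β L j) +
        g M r β (L + 1) i * (i + L + 1) := by
      field_simp
      push_cast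
      ring
    rw [e, g_succ, mul_sum, sum_mul, ← sum_add_distrib]
    refine sum_congr rfl fun j _ => ?_
    ring

/-- The tilted ratio. -/
noncomputable def rt (M : ℕ) (β : ℝ) (L i : ℕ) (r : ℝ) : ℝ :=
  r + Real.log (g M r β (L + 1) (i + 1)) - Real.log (g M r β (L + 1) i)

theorem hasDerivAt_rt (M : ℕ) (β : ℝ) (L i : ℕ) (r : ℝ) :
    HasDerivAt (rt M β L i) (2 * (ph M r β (L + 1) (i + 1) - ph M r β (L + 1) i)) r := by
  have h1 := (hasDerivAt_g M r β (L + 1) (i + 1)).log (g_pos M r β L (i + 1)).ne'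
  have h2 := (hasDerivAt_g M r β (L + 1) i).log (g_pos M r β L i).ne'
  have h3 := ((hasDerivAt_id' r).fun_add h1).fun_sub h2
  refine h3.congr_deriv ?_
  have hg0 := (g_pos M r β L i).ne'
  have hg1 := (g_pos M r β L (i + 1)).ne'
  rw [mul_div_cancel_left₀ _ hg0, mul_div_cancel_left₀ _ hg1]
  push_cast
  ring

theorem rt_mono (M : ℕ) (β : ℝ) (hβ : 0 < β) (L i : ℕ) : Monotone (rt M β L i) := by
  apply monotone_of_deriv_nonneg (fun r => (hasDerivAt_rt M β L i r).differentiableAt)
  intro r
  rw [(hasDerivAt_rt M β L i r).deriv]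
  have := (ph_bounds M r β hβ L i).1
  linarith

theorem rt_lip (M : ℕ) (β : ℝ) (hβ : 0 < β) (L i : ℕ) (r r' : ℝ) (h : r ≤ r') :
    rt M β L i r' ≤ rt M β L i r + 2 / (1 - pp β) * (r' - r) := by
  have hm : Monotone (fun r => 2 / (1 - pp β) * r - rt M β L i r) := by
    have hd : ∀ r, HasDerivAt (fun r => 2 / (1 - pp β) * r - rt M β L i r)
        (2 / (1 - pp β) - 2 * (ph M r β (L + 1) (i + 1) - ph M r β (L + 1) i)) r := by
      intro r
      have := ((hasDerivAt_id' r).const_mul (2 / (1 - pp β))).fun_sub (hasDerivAt_rt M β L i r)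
      exact this.congr_deriv (by ring)
    apply monotone_of_deriv_nonneg (fun r => (hd r).differentiableAt)
    intro r
    rw [(hd r).deriv]
    have := ph_bound_const M r β hβ L i
    have h2 : 2 / (1 - pp β) = 2 * (1 / (1 - pp β)) := by ring
    rw [h2]; linarith
  have := hm h
  simp only at this
  linarith

end Pool.Agent.MP_55179a_pr
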