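import Pool.Agent.Lib.MP_55179a_pr.Defs

/-!
Module FULL: bound of the full polymer (ending in `[0, ∞)`, with drift) by bridges.
-/

set_option autoImplicit false

namespace Pool.Agent.MP_55179a_pr

open Finset

/-! ### Walk sums -/

/-- Nearest neighbour walks as lists. -/
def IsW : ℕ → ℤ → List ℤ → Prop
  | 0, x, l => l = [x]
  | n + 1, x, l => ∃ l', l = x :: l' ∧ (IsW n (x + 1) l' ∨ IsW n (x - 1) l')

theorem ws_mono : ∀ (n : ℕ) (x : ℤ) (G G' : List ℤ → ℝ), (∀ l, IsW n x l → G l ≤ G' l) →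
    ws n x G ≤ ws n x G'
  | 0, x, G, G', h => h [x] rfl
  | n + 1, x, G, G', h => by
    simp only [ws]
    exact add_le_add
      (ws_mono n (x + 1) _ _ fun l hl => h (x :: l) ⟨l, rfl, Or.inl hl⟩)
      (ws_mono n (x - 1) _ _ fun l hl => h (x :: l) ⟨l, rfl, Or.inr hl⟩)

theorem ws_congr (n : ℕ) (x : ℤ) (G G' : List ℤ → ℝ) (h : ∀ l, IsW n x l → G l = G' l) :
    ws n x G = ws n x G' :=
  le_antisymm (ws_mono n x G G' fun l hl => (h l hl).le)
    (ws_mono n x G' G fun l hl => (h l hl).ge)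

theorem ws_zero : ∀ (n : ℕ) (x : ℤ), ws n x (fun _ => 0) = 0
  | 0, _ => rfl
  | n + 1, x => by simp only [ws]; rw [ws_zero n, ws_zero n, add_zero]

theorem ws_add : ∀ (n : ℕ) (x : ℤ) (G G' : List ℤ → ℝ),
    ws n x (fun l => G l + G' l) = ws n x G + ws n x G'
  | 0, _, _, _ => rfl
  | n + 1, x, G, G' => by
    simp only [ws]
    rw [ws_add n, ws_add n]; ring

theorem ws_mul : ∀ (n : ℕ) (x : ℤ) (c : ℝ) (G : List ℤ → ℝ),
    ws n x (fun l => c * G l) = c * ws n x G
  | 0, _, _, _ => rfl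
  | n + 1, x, c, G => by
    simp only [ws]
    rw [ws_mul n, ws_mul n]; ring

theorem ws_mul_right (n : ℕ) (x : ℤ) (c : ℝ) (G : List ℤ → ℝ) :
    ws n x (fun l => G l * c) = ws n x G * c := by
  rw [mul_comm, ← ws_mul]
  exact ws_congr n x _ _ fun l _ => mul_comm _ _

theorem ws_nonneg (n : ℕ) (x : ℤ) (G : List ℤ → ℝ) (h : ∀ l, 0 ≤ G l) : 0 ≤ ws n x G := by
  rw [← ws_zero n x]
  exact ws_mono n x _ _ fun l _ => h l

theorem ws_one : ∀ (n : ℕ) (x : ℤ), ws n x (fun _ => 1) = 2 ^ n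
  | 0, _ => by simp [ws]
  | n + 1, x => by simp only [ws]; rw [ws_one n, ws_one n]; ring

theorem ws_sum {ι : Type} (t : Finset ι) (n : ℕ) (x : ℤ) (G : ι → List ℤ → ℝ) :
    ws n x (fun l => ∑ i ∈ t, G i l) = ∑ i ∈ t, ws n x (G i) := by
  classical
  induction t using Finset.induction_on with
  | empty => simp [ws_zero]
  | insert i t hi ih =>
    rw [Finset.sum_insert hi, ← ih, ← ws_add]
    exact ws_congr n x _ _ fun l _ => Finset.sum_insert hi

theorem ws_shift (c : ℤ) : ∀ (n : ℕ) (x : ℤ) (G : List ℤ → ℝ),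
    ws n (x + c) G = ws n x (fun l => G (l.map (· + c)))
  | 0, x, G => by simp [ws]
  | n + 1, x, G => by
    simp only [ws]
    have e1 : x + c + 1 = (x + 1) + c := by ring
    have e2 : x + c - 1 = (x - 1) + c := by ring
    rw [e1, e2, ws_shift c n, ws_shift c n]
    simp

theorem ws_neg : ∀ (n : ℕ) (x : ℤ) (G : List ℤ → ℝ),
    ws n (-x) G = ws n x (fun l => G (l.map (fun y => -y)))
  | 0, x, G => by simp [ws]
  | n + 1, x, G => by
    simp only [ws]
    have e1 : -x + 1 = -(x - 1) := by ring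
    have e2 : -x - 1 = -(x + 1) := by ring
    rw [e1, e2, ws_neg n, ws_neg n, add_comm]
    simp

theorem IsW.length : ∀ {n : ℕ} {x : ℤ} {l : List ℤ}, IsW n x l → l.length = n + 1
  | 0, x, l, h => by rw [show l = [x] from h]; rfl
  | n + 1, x, l, h => by
    obtain ⟨l', rfl, h | h⟩ := h
    · simp [h.length]
    · simp [h.length]

theorem IsW.ne_nil {n : ℕ} {x : ℤ} {l : List ℤ} (h : IsW n x l) : l ≠ [] := by
  intro h0
  have := h.length
  rw [h0] at this
  simp at this

theorem IsW.head : ∀ {n : ℕ} {x : ℤ} {l : List ℤ}, IsW n x l → ∃ l', l = x :: l'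
  | 0, x, l, h => ⟨[], h⟩
  | n + 1, x, l, h => by
    obtain ⟨l', rfl, _⟩ := h
    exact ⟨l', rfl⟩

theorem getLastD_cons_of_ne {l : List ℤ} (h : l ≠ []) (y d : ℤ) :
    (y :: l).getLastD d = l.getLastD d := by
  cases l with
  | nil => exact absurd rfl h
  | cons a t => simp

/-- Sum over the first `s` positions and the following position. -/
noncomputable def pre : ℕ → ℤ → (List ℤ → ℤ → ℝ) → ℝ
  | 0, x, H => H [] x
  | s + 1, x, H => pre s (x + 1) (fun l y => H (x :: l) y) + pre s (x - 1) (fun l y => H (x :: l) y)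

/-- Sum over the `r` positions after `z`. -/
noncomputable def post : ℕ → ℤ → (List ℤ → ℝ) → ℝ
  | 0, _, H => H []
  | r + 1, z, H => ws r (z + 1) H + ws r (z - 1) H

theorem ws_split_pre : ∀ (s k : ℕ) (x : ℤ) (Φ : List ℤ → List ℤ → ℝ),
    ws (s + k) x (fun l => Φ (l.take s) (l.drop s)) =
      pre s x (fun l1 y => ws k y (fun l2 => Φ l1 l2))
  | 0, k, x, Φ => by simp [pre]
  | s + 1, k, x, Φ => by
    have e : s + 1 + k = (s + k) + 1 := by ring
    rw [e]
    simp only [ws, pre, List.take_succ_cons, List.drop_succ_cons]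
    rw [ws_split_pre s k (x + 1) (fun a b => Φ (x :: a) b),
      ws_split_pre s k (x - 1) (fun a b => Φ (x :: a) b)]

theorem ws_split_post : ∀ (m r : ℕ) (y : ℤ) (Ψ : List ℤ → List ℤ → ℝ),
    ws (m + r) y (fun l => Ψ (l.take (m + 1)) (l.drop (m + 1))) =
      ws m y (fun l2 => post r (l2.getLastD 0) (fun l3 => Ψ l2 l3))
  | 0, 0, y, Ψ => by simp [ws, post]
  | 0, r + 1, y, Ψ => by
    rw [Nat.zero_add]
    simp [ws, post]
  | m + 1, r, y, Ψ => by
    have e : m + 1 + r = (m + r) + 1 := by ring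
    rw [e]
    simp only [ws, List.take_succ_cons, List.drop_succ_cons]
    have h1 := ws_split_post m r (y + 1) (fun a b => Ψ (y :: a) b)
    have h2 := ws_split_post m r (y - 1) (fun a b => Ψ (y :: a) b)
    beta_reduce at h1 h2
    rw [h1, h2]
    congr 1
    · exact ws_congr _ _ _ _ fun l hl => by rw [getLastD_cons_of_ne hl.ne_nil]
    · exact ws_congr _ _ _ _ fun l hl => by rw [getLastD_cons_of_ne hl.ne_nil]

theorem pre_const : ∀ (s : ℕ) (x : ℤ) (Kf : List ℤ → ℝ),
    pre (s + 1) x (fun l _ => Kf l) = 2 * ws s x Kf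
  | 0, x, Kf => by simp [pre, ws]; ring
  | s + 1, x, Kf => by
    have h1 := pre_const s (x + 1) (fun l => Kf (x :: l))
    have h2 := pre_const s (x - 1) (fun l => Kf (x :: l))
    rw [show pre (s + 1 + 1) x (fun l _ => Kf l) =
      pre (s + 1) (x + 1) (fun l _ => Kf (x :: l)) + pre (s + 1) (x - 1) (fun l _ => Kf (x :: l))
      from rfl, h1, h2]
    simp only [ws]
    ring

theorem pre_congr : ∀ (s : ℕ) (x : ℤ) (H H' : List ℤ → ℤ → ℝ), (∀ l y, H l y = H' l y) →
    pre s x H = pre s x H' := by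
  intro s x H H' h
  have : H = H' := by funext l y; exact h l y
  rw [this]

theorem pre_mul_right : ∀ (s : ℕ) (x : ℤ) (c : ℝ) (H : List ℤ → ℤ → ℝ),
    pre s x (fun l y => H l y * c) = pre s x H * c
  | 0, _, _, _ => rfl
  | s + 1, x, c, H => by
    simp only [pre]
    rw [pre_mul_right s, pre_mul_right s]; ring

/-! ### Self-intersections -/

/-- Number of pairs of equal entries of two lists. -/
def cc (l1 l2 : List ℤ) : ℕ := (l1.map fun y => l2.count y).sum

theorem Hl_eq (l : List ℤ) : Hl l = cc l l := rfl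

theorem cc_append_left (a b c : List ℤ) : cc (a ++ b) c = cc a c + cc b c := by
  simp [cc]

theorem cc_append_right (a b c : List ℤ) : cc a (b ++ c) = cc a b + cc a c := by
  induction a with
  | nil => simp [cc]
  | cons x t ih =>
    simp only [cc, List.map_cons, List.sum_cons, List.count_append] at ih ⊢
    omega

theorem cc_cons_left (x : ℤ) (a b : List ℤ) : cc (x :: a) b = b.count x + cc a b := by
  simp [cc]

theorem cc_cons_right (a : List ℤ) (x : ℤ) (b : List ℤ) : cc a (x :: b) = a.count x + cc a b := by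
  induction a with
  | nil => simp [cc]
  | cons z t ih =>
    rw [cc_cons_left, cc_cons_left, ih, List.count_cons, List.count_cons]
    by_cases h : x = z
    · subst h; simp; omega
    · have h' : ¬ z = x := fun h0 => h h0.symm
      simp [h, h']; omega

theorem cc_comm (a b : List ℤ) : cc a b = cc b a := by
  induction a with
  | nil => simp [cc]
  | cons x t ih =>
    rw [cc_cons_right, ← ih]
    simp [cc]

theorem length_le_cc (a b : List ℤ) (h : ∀ y ∈ a, y ∈ b) : a.length ≤ cc a b := by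
  induction a with
  | nil => simp
  | cons x t ih =>
    have h1 := ih fun y hy => h y (List.mem_cons_of_mem _ hy)
    have h2 : 1 ≤ b.count x := List.count_pos_iff.2 (h x (by simp))
    simp only [cc, List.map_cons, List.sum_cons, List.length_cons] at h1 ⊢
    omega

theorem Hl_split (l1 l2 l3 : List ℤ) (h1 : ∀ y ∈ l1, y ∈ l2) (h3 : ∀ y ∈ l3, y ∈ l2) :
    Hl l1 + Hl l2 + Hl l3 + 2 * l1.length + 2 * l3.length ≤ Hl (l1 ++ (l2 ++ l3)) := by
  simp only [Hl_eq, cc_append_left, cc_append_right]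
  have e1 := length_le_cc l1 l2 h1
  have e3 := length_le_cc l3 l2 h3
  have c1 := cc_comm l1 l2
  have c3 := cc_comm l3 l2
  omega

theorem Hl_map (f : ℤ → ℤ) (hf : Function.Injective f) (l : List ℤ) : Hl (l.map f) = Hl l := by
  simp only [Hl, List.map_map]
  congr 1
  apply List.map_congr_left
  intro y _
  simp [List.count_map_of_injective _ f hf]

/-! ### Geometry of walks -/

theorem IsW.mem_between : ∀ {m : ℕ} {y : ℤ} {l : List ℤ}, IsW m y l → ∀ v : ℤ,
    (y ≤ v ∧ v ≤ l.getLastD 0) ∨ (l.getLastD 0 ≤ v ∧ v ≤ y) → v ∈ l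
  | 0, y, l, h, v, hv => by
    rw [show l = [y] from h] at hv ⊢
    simp at hv ⊢
    omega
  | m + 1, y, l, h, v, hv => by
    obtain ⟨l', rfl, h⟩ := h
    have hne : l' ≠ [] := by
      rcases h with h | h <;> exact h.ne_nil
    rw [getLastD_cons_of_ne hne] at hv
    by_cases hvy : v = y
    · rw [hvy]; simp
    · rw [List.mem_cons]
      right
      rcases h with h | h
      · apply h.mem_between
        omega
      · apply h.mem_between
        omega

theorem IsW.last_sub : ∀ {n : ℕ} {x : ℤ} {l : List ℤ}, IsW n x l → |l.getLastD 0 - x| ≤ (n : ℤ)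
  | 0, x, l, h => by
    rw [show l = [x] from h]; simp
  | n + 1, x, l, h => by
    obtain ⟨l', rfl, h⟩ := h
    rcases h with h | h
    · rw [getLastD_cons_of_ne h.ne_nil]
      have h1 := abs_le.1 h.last_sub
      rw [abs_le]
      push_cast
      constructor <;> linarith [h1.1, h1.2]
    · rw [getLastD_cons_of_ne h.ne_nil]
      have h1 := abs_le.1 h.last_sub
      rw [abs_le]
      push_cast
      constructor <;> linarith [h1.1, h1.2]

theorem IsW.suffix : ∀ {n : ℕ} {x : ℤ} (l1 l' : List ℤ), IsW n x (l1 ++ l') → l' ≠ [] →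
    ∃ k y, IsW k y l' ∧ |y - x| ≤ (l1.length : ℤ)
  | n, x, [], l', h, _ => ⟨n, x, h, by simp⟩
  | 0, x, z :: l1, l', h, hne => by
    exfalso
    have h1 := h.length
    simp only [List.cons_append, List.length_cons, List.length_append] at h1
    have : l'.length = 0 := by omega
    exact hne (List.length_eq_zero_iff.1 this)
  | n + 1, x, z :: l1, l', h, hne => by
    obtain ⟨l'', he, h⟩ := h
    simp only [List.cons_append, List.cons.injEq] at he
    obtain ⟨rfl, rfl⟩ := he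
    rcases h with h | h
    · obtain ⟨k, y, h1, h2⟩ := h.suffix l1 l' hne
      refine ⟨k, y, h1, ?_⟩
      rw [abs_le] at h2 ⊢
      simp only [List.length_cons]
      push_cast
      constructor <;> linarith [h2.1, h2.2]
    · obtain ⟨k, y, h1, h2⟩ := h.suffix l1 l' hne
      refine ⟨k, y, h1, ?_⟩
      rw [abs_le] at h2 ⊢
      simp only [List.length_cons]
      push_cast
      constructor <;> linarith [h2.1, h2.2]

theorem IsW.initial : ∀ {n : ℕ} {x : ℤ} (l2 l3 : List ℤ), IsW n x (l2 ++ l3) → l2 ≠ [] →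
    ∃ m, IsW m x l2 ∧ |(l2 ++ l3).getLastD 0 - l2.getLastD 0| ≤ (l3.length : ℤ)
  | n, x, [], l3, _, hne => absurd rfl hne
  | 0, x, z :: l2, l3, h, _ => by
    have h0 : z :: l2 ++ l3 = [x] := h
    simp only [List.cons_append, List.cons.injEq, List.append_eq_nil_iff] at h0
    obtain ⟨rfl, rfl, rfl⟩ := h0
    exact ⟨0, rfl, by simp⟩
  | n + 1, x, z :: l2, l3, h, _ => by
    obtain ⟨l'', he, h⟩ := h
    simp only [List.cons_append, List.cons.injEq] at he
    obtain ⟨rfl, rfl⟩ := he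
    rcases List.eq_nil_or_concat l2 with h2 | h2
    · subst h2
      refine ⟨0, rfl, ?_⟩
      simp only [List.nil_append] at h
      have hlen : l3.length = n + 1 := by
        rcases h with h | h <;> exact h.length
      have hne3 : l3 ≠ [] := by
        rcases h with h | h <;> exact h.ne_nil
      simp only [List.cons_append, List.nil_append]
      rw [getLastD_cons_of_ne hne3, hlen]
      simp only [List.getLastD_cons, List.getLastD_nil]
      rcases h with h | h
      · have h1 := abs_le.1 h.last_sub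
        rw [abs_le]
        push_cast
        constructor <;> linarith [h1.1, h1.2]
      · have h1 := abs_le.1 h.last_sub
        rw [abs_le]
        push_cast
        constructor <;> linarith [h1.1, h1.2]
    · have hne2 : l2 ≠ [] := by
        obtain ⟨a, b, rfl⟩ := h2
        simp
      rcases h with h | h
      · obtain ⟨m, h3, h4⟩ := h.initial l2 l3 hne2
        refine ⟨m + 1, ⟨l2, rfl, Or.inl h3⟩, ?_⟩
        rw [List.cons_append, getLastD_cons_of_ne (by simp [hne2]), getLastD_cons_of_ne hne2]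
        exact h4
      · obtain ⟨m, h3, h4⟩ := h.initial l2 l3 hne2
        refine ⟨m + 1, ⟨l2, rfl, Or.inr h3⟩, ?_⟩
        rw [List.cons_append, getLastD_cons_of_ne (by simp [hne2]), getLastD_cons_of_ne hne2]
        exact h4

theorem getLastD_append (a b : List ℤ) (hb : b ≠ []) (d : ℤ) :
    (a ++ b).getLastD d = b.getLastD d := by
  induction a with
  | nil => rfl
  | cons x t ih => rw [List.cons_append, getLastD_cons_of_ne (by simp [hb]), ih]

theorem IsW.piece {n : ℕ} {x : ℤ} {l : List ℤ} (h : IsW n x l) (l1 l2 l3 : List ℤ)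
    (hl : l = l1 ++ (l2 ++ l3)) (hne : l2 ≠ []) :
    ∃ m y, IsW m y l2 ∧ |y - x| ≤ (l1.length : ℤ) ∧
      |l.getLastD 0 - l2.getLastD 0| ≤ (l3.length : ℤ) := by
  subst hl
  have hne' : l2 ++ l3 ≠ [] := by simp [hne]
  obtain ⟨k, y, h1, h2⟩ := h.suffix l1 (l2 ++ l3) hne'
  obtain ⟨m, h3, h4⟩ := h1.initial l2 l3 hne
  refine ⟨m, y, h3, h2, ?_⟩
  rw [getLastD_append _ _ hne']
  exact h4

theorem IsW.exists_split {n : ℕ} {l : List ℤ} (h : IsW n 0 l) :
    ∃ (l1 l2 l3 : List ℤ) (m : ℕ) (y : ℤ), l = l1 ++ (l2 ++ l3) ∧ IsW m y l2 ∧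
      |y| ≤ (l1.length : ℤ) ∧ |l.getLastD 0 - l2.getLastD 0| ≤ (l3.length : ℤ) ∧
      ((∀ z ∈ l, y ≤ z ∧ z ≤ l2.getLastD 0) ∨ (∀ z ∈ l, l2.getLastD 0 ≤ z ∧ z ≤ y)) := by
  have hne : l.toFinset.Nonempty := by
    rw [List.toFinset_nonempty_iff]; exact h.ne_nil
  obtain ⟨a, ha, hamin⟩ := l.toFinset.exists_min_image id hne
  obtain ⟨b, hb, hbmax⟩ := l.toFinset.exists_max_image id hne
  simp only [List.mem_toFinset, id] at ha hamin hb hbmax
  obtain ⟨A, B, hAB⟩ := List.append_of_mem ha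
  have hb' := hb
  rw [hAB, List.mem_append] at hb'
  rcases hb' with hb' | hb'
  · obtain ⟨A', B', hA'⟩ := List.append_of_mem hb'
    have hl : l = A' ++ ((b :: B' ++ [a]) ++ B) := by rw [hAB, hA']; simp
    obtain ⟨m, y, h1, h2, h3⟩ := h.piece A' (b :: B' ++ [a]) B hl (by simp)
    obtain ⟨l'', hy⟩ := h1.head
    have hyb : y = b := by
      simp only [List.cons_append, List.cons.injEq] at hy
      exact hy.1.symm
    have hlast : (b :: B' ++ [a]).getLastD 0 = a := by
      rw [getLastD_append _ _ (by simp)]; simp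
    refine ⟨A', b :: B' ++ [a], B, m, y, hl, h1, by simpa using h2, h3, Or.inr ?_⟩
    intro z hz
    rw [hlast, hyb]
    exact ⟨hamin z hz, hbmax z hz⟩
  · obtain ⟨P, C, hP⟩ := List.append_of_mem hb'
    have hl : l = A ++ ((P ++ [b]) ++ C) := by rw [hAB, hP]; simp
    obtain ⟨m, y, h1, h2, h3⟩ := h.piece A (P ++ [b]) C hl (by simp)
    obtain ⟨l'', hy⟩ := h1.head
    have hya : y = a := by
      have e : a :: B = (y :: l'') ++ C := by rw [hP, ← hy]; simp
      simp only [List.cons_append, List.cons.injEq] at e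
      exact e.1.symm
    have hlast : (P ++ [b]).getLastD 0 = b := by
      rw [getLastD_append _ _ (by simp)]; simp
    refine ⟨A, P ++ [b], C, m, y, hl, h1, by simpa using h2, h3, Or.inl ?_⟩
    intro z hz
    rw [hlast, hya]
    exact ⟨hamin z hz, hbmax z hz⟩

/-! ### Weights -/

/-- Weight of an outer piece. -/
noncomputable def Kw (β γ : ℝ) (l : List ℤ) : ℝ := Real.exp (-β * (Hl l : ℝ) + γ * (l.length : ℝ))

/-- Weight of an upward bridge. -/
noncomputable def up (β a : ℝ) (l : List ℤ) : ℝ :=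
  if ∀ z ∈ l, l.headD 0 ≤ z ∧ z ≤ l.getLastD 0 then
    Real.exp (-β * (Hl l : ℝ) - a * ((l.getLastD 0 - l.headD 0 : ℤ) : ℝ)) else 0

/-- Total weight of the outer pieces of length `r`. -/
noncomputable def Ac (β γ : ℝ) : ℕ → ℝ
  | 0 => 1
  | r + 1 => 2 * Zf β r * Real.exp (γ * ((r : ℝ) + 1))

/-- Total weight of the bridges. -/
noncomputable def Bs (β a : ℝ) (m : ℕ) : ℝ :=
  ∑ R ∈ range (m + 1), Real.exp (-a * (R : ℝ)) * Br β m R

theorem up_nonneg (β a : ℝ) (l : List ℤ) : 0 ≤ up β a l := by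
  unfold up; split_ifs <;> positivity

theorem Kw_pos (β γ : ℝ) (l : List ℤ) : 0 < Kw β γ l := Real.exp_pos _

theorem ws_Kw (β γ : ℝ) (r : ℕ) (z : ℤ) :
    ws r z (Kw β γ) = Zf β r * Real.exp (γ * ((r : ℝ) + 1)) := by
  have e : z = 0 + z := by ring
  rw [e, ws_shift z r 0, Zf, ← ws_mul_right]
  apply ws_congr
  intro l hl
  rw [Kw, Hl_map _ (add_left_injective z), List.length_map, hl.length, ← Real.exp_add]
  push_cast
  rfl

theorem post_Kw (β γ : ℝ) (z : ℤ) : ∀ r : ℕ, post r z (Kw β γ) = Ac β γ r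
  | 0 => by simp [post, Ac, Kw, Hl]
  | r + 1 => by simp only [post, Ac, ws_Kw]; ring

theorem pre_Kw (β γ : ℝ) (z : ℤ) : ∀ s : ℕ, pre s z (fun l _ => Kw β γ l) = Ac β γ s
  | 0 => by simp [pre, Ac, Kw, Hl]
  | s + 1 => by rw [pre_const, ws_Kw]; simp only [Ac]; ring

theorem headD_map_add {l : List ℤ} (h : l ≠ []) (y d : ℤ) :
    (l.map (· + y)).headD d = l.headD d + y := by
  cases l with
  | nil => exact absurd rfl h
  | cons a t => simp

theorem getLastD_map (f : ℤ → ℤ) : ∀ {l : List ℤ} (_ : l ≠ []) (d : ℤ),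
    (l.map f).getLastD d = f (l.getLastD d)
  | [], h, _ => absurd rfl h
  | [a], _, _ => by simp
  | a :: b :: t, _, d => by
    have h := getLastD_map f (l := b :: t) (by simp) d
    rw [List.map_cons, getLastD_cons_of_ne (l := (b :: t).map f) (by simp), h,
      getLastD_cons_of_ne (l := b :: t) (by simp)]

theorem ws_up (β a : ℝ) (m : ℕ) (y : ℤ) : ws m y (up β a) ≤ Bs β a m := by
  have e : y = 0 + y := by ring
  rw [e, ws_shift y m 0, Bs]
  have e2 : ∀ R : ℕ, Real.exp (-a * (R : ℝ)) * Br β m R =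
      ws m 0 (fun l => Real.exp (-a * (R : ℝ)) *
        (if (∀ y ∈ l, 0 ≤ y ∧ y ≤ (R : ℤ)) ∧ l.getLastD 0 = (R : ℤ) then
          Real.exp (-β * (Hl l : ℝ)) else 0)) := by
    intro R
    rw [ws_mul]; rfl
  rw [Finset.sum_congr rfl fun R _ => e2 R, ← ws_sum]
  apply ws_mono
  intro l hl
  have hne := hl.ne_nil
  have hhead : l.headD 0 = 0 := by
    obtain ⟨l', rfl⟩ := hl.head
    simp
  have hnn : ∀ R ∈ range (m + 1), 0 ≤ Real.exp (-a * (R : ℝ)) *
        (if (∀ y ∈ l, 0 ≤ y ∧ y ≤ (R : ℤ)) ∧ l.getLastD 0 = (R : ℤ) then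
          Real.exp (-β * (Hl l : ℝ)) else 0) := by
    intro R _
    apply mul_nonneg (Real.exp_pos _).le
    split_ifs <;> positivity
  rw [up, headD_map_add hne, getLastD_map _ hne, Hl_map _ (add_left_injective y), hhead]
  split_ifs with hc
  · have hc' : ∀ z ∈ l, 0 ≤ z ∧ z ≤ l.getLastD 0 := by
      intro z hz
      have := hc (z + y) (List.mem_map.2 ⟨z, hz, rfl⟩)
      constructor <;> linarith [this.1, this.2]
    have h0l : (0 : ℤ) ≤ l.getLastD 0 := by
      obtain ⟨l', hl'⟩ := hl.head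
      have := hc' 0 (by rw [hl']; simp)
      exact this.2
    have hlm : l.getLastD 0 ≤ (m : ℤ) := by
      have := abs_le.1 hl.last_sub
      linarith [this.2]
    obtain ⟨R, hR⟩ : ∃ R : ℕ, l.getLastD 0 = (R : ℤ) := ⟨(l.getLastD 0).toNat, by omega⟩
    have hRm : R ∈ range (m + 1) := by
      rw [Finset.mem_range]; omega
    refine le_trans (le_of_eq ?_) (Finset.single_le_sum hnn hRm)
    rw [if_pos ⟨by rw [← hR]; exact hc', hR⟩, ← Real.exp_add, hR]
    congr 1
    push_cast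
    ring
  · exact Finset.sum_nonneg hnn

theorem ws_dn (β a : ℝ) (m : ℕ) (y : ℤ) :
    ws m y (fun l => up β a (l.map (fun z => -z))) ≤ Bs β a m := by
  have h := ws_neg m y (up β a)
  rw [← h]
  exact ws_up β a m (-y)

/-- The main splitting inequality. -/
theorem weight_split (β a : ℝ) (hβ : 0 < β) {n : ℕ} {l : List ℤ} (h : IsW n 0 l)
    (hlast : 0 ≤ l.getLastD 0) :
    ∃ p ∈ antidiagonal n, ∃ q ∈ antidiagonal p.2,
      Real.exp (-β * (Hl l : ℝ) - a * ((l.getLastD 0 : ℤ) : ℝ)) ≤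
        Kw β (2 * |a| - 2 * β) (l.take p.1) *
          (up β a ((l.drop p.1).take (q.1 + 1)) +
            up β a (((l.drop p.1).take (q.1 + 1)).map (fun z => -z))) *
          Kw β (2 * |a| - 2 * β) ((l.drop p.1).drop (q.1 + 1)) := by
  obtain ⟨l1, l2, l3, m, y, hl, hw, hy, hend, hcase⟩ := h.exists_split
  have hne2 := hw.ne_nil
  have hlen2 : l2.length = m + 1 := hw.length
  have hlen : l1.length + ((m + 1) + l3.length) = n + 1 := by
    have := h.length
    rw [hl] at this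
    simpa [hlen2] using this
  refine ⟨(l1.length, m + l3.length), ?_, (m, l3.length), ?_, ?_⟩
  · rw [HasAntidiagonal.mem_antidiagonal]; simp only; omega
  · rw [HasAntidiagonal.mem_antidiagonal]
  · simp only
    have t1 : l.take l1.length = l1 := by rw [hl]; simp
    have t2 : l.drop l1.length = l2 ++ l3 := by rw [hl]; simp
    have t3 : (l2 ++ l3).take (m + 1) = l2 := by rw [← hlen2]; simp
    have t4 : (l2 ++ l3).drop (m + 1) = l3 := by rw [← hlen2]; simp
    rw [t1, t2, t3, t4]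
    have hhead : l2.headD 0 = y := by
      obtain ⟨l', rfl⟩ := hw.head
      simp
    have hbetween : ∀ z ∈ l, z ∈ l2 := by
      intro z hz
      apply hw.mem_between
      rcases hcase with hc | hc
      · exact Or.inl (hc z hz)
      · exact Or.inr (hc z hz)
    have hH := Hl_split l1 l2 l3
      (fun z hz => hbetween z (by rw [hl]; simp [hz]))
      (fun z hz => hbetween z (by rw [hl]; simp [hz]))
    rw [← hl] at hH
    have hHr : (Hl l1 : ℝ) + Hl l2 + Hl l3 + 2 * l1.length + 2 * l3.length ≤ Hl l := by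
      exact_mod_cast hH
    have hmem2 : ∀ z ∈ l2, z ∈ l := fun z hz => by rw [hl]; simp [hz]
    have hy' := abs_le.1 hy
    have hend' := abs_le.1 hend
    have ha0 := abs_nonneg a
    have hn1 : (0 : ℝ) ≤ l1.length := Nat.cast_nonneg _
    have hn3 : (0 : ℝ) ≤ l3.length := Nat.cast_nonneg _
    have hyR : |(y : ℝ)| ≤ l1.length := by exact_mod_cast hy
    have hendR : |((l.getLastD 0 : ℤ) : ℝ) - ((l2.getLastD 0 : ℤ) : ℝ)| ≤ l3.length := by
      exact_mod_cast hend
    rcases hcase with hc | hc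
    · -- upward middle piece
      have hup : up β a l2 = Real.exp (-β * (Hl l2 : ℝ) - a * ((l2.getLastD 0 - y : ℤ) : ℝ)) := by
        rw [up, hhead, if_pos]
        intro z hz
        exact hc z (hmem2 z hz)
      have h2 : 0 ≤ up β a (l2.map (fun z => -z)) := up_nonneg _ _ _
      have hk1 := Kw_pos β (2 * |a| - 2 * β) l1
      have hk3 := Kw_pos β (2 * |a| - 2 * β) l3
      refine le_trans ?_ (mul_le_mul_of_nonneg_right (mul_le_mul_of_nonneg_left
        (le_add_of_nonneg_right h2) hk1.le) hk3.le)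
      rw [hup, Kw, Kw, ← Real.exp_add, ← Real.exp_add, Real.exp_le_exp]
      push_cast
      have e1 : -a * (y : ℝ) ≤ |a| * l1.length := by
        calc -a * (y : ℝ) ≤ |-a * (y : ℝ)| := le_abs_self _
          _ = |a| * |(y : ℝ)| := by rw [abs_mul, abs_neg]
          _ ≤ |a| * l1.length := mul_le_mul_of_nonneg_left hyR ha0
      have e3 : -a * (((l.getLastD 0 : ℤ) : ℝ) - ((l2.getLastD 0 : ℤ) : ℝ)) ≤ |a| * l3.length := by
        calc -a * (((l.getLastD 0 : ℤ) : ℝ) - ((l2.getLastD 0 : ℤ) : ℝ)) ≤ |_| := le_abs_self _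
          _ = |a| * |((l.getLastD 0 : ℤ) : ℝ) - ((l2.getLastD 0 : ℤ) : ℝ)| := by
            rw [abs_mul, abs_neg]
          _ ≤ |a| * l3.length := mul_le_mul_of_nonneg_left hendR ha0
      have e4 := mul_le_mul_of_nonneg_left hHr hβ.le
      nlinarith [mul_nonneg ha0 hn1, mul_nonneg ha0 hn3]
    · -- downward middle piece
      have hdn : up β a (l2.map (fun z => -z)) =
          Real.exp (-β * (Hl l2 : ℝ) - a * ((y - l2.getLastD 0 : ℤ) : ℝ)) := by
        rw [up, getLastD_map _ hne2, Hl_map _ neg_injective]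
        have hh : (l2.map (fun z => -z)).headD 0 = -y := by
          obtain ⟨l', rfl⟩ := hw.head
          simp
        rw [hh, if_pos]
        · congr 2
          push_cast
          ring
        · intro z hz
          obtain ⟨z', hz', rfl⟩ := List.mem_map.1 hz
          have := hc z' (hmem2 z' hz')
          constructor <;> linarith [this.1, this.2]
      have h2 : 0 ≤ up β a l2 := up_nonneg _ _ _
      have hk1 := Kw_pos β (2 * |a| - 2 * β) l1
      have hk3 := Kw_pos β (2 * |a| - 2 * β) l3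
      refine le_trans ?_ (mul_le_mul_of_nonneg_right (mul_le_mul_of_nonneg_left
        (le_add_of_nonneg_left h2) hk1.le) hk3.le)
      rw [hdn, Kw, Kw, ← Real.exp_add, ← Real.exp_add, Real.exp_le_exp]
      push_cast
      -- 0 ∈ l, so last l2 ≤ 0 ≤ y
      have h0 : (0 : ℤ) ∈ l := by
        obtain ⟨l', hl'⟩ := h.head
        rw [hl']; simp
      have h0' := hc 0 h0
      have hlastR : (0 : ℝ) ≤ ((l.getLastD 0 : ℤ) : ℝ) := by exact_mod_cast hlast
      have hl2R : ((l2.getLastD 0 : ℤ) : ℝ) ≤ 0 := by exact_mod_cast h0'.1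
      have hy0R : (0 : ℝ) ≤ (y : ℝ) := by exact_mod_cast h0'.2
      have b1 := (abs_le.1 hyR).2
      have b3 := (abs_le.1 hendR).2
      have e1 : -a * ((l.getLastD 0 : ℤ) : ℝ) ≤ |a| * l3.length := by
        calc -a * ((l.getLastD 0 : ℤ) : ℝ) ≤ |a| * ((l.getLastD 0 : ℤ) : ℝ) :=
              mul_le_mul_of_nonneg_right (neg_le_abs a) hlastR
          _ ≤ |a| * l3.length := mul_le_mul_of_nonneg_left (by linarith) ha0
      have e2 : a * ((y : ℝ) - ((l2.getLastD 0 : ℤ) : ℝ)) ≤ |a| * (l1.length + l3.length) := by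
        calc a * ((y : ℝ) - ((l2.getLastD 0 : ℤ) : ℝ)) ≤
              |a| * ((y : ℝ) - ((l2.getLastD 0 : ℤ) : ℝ)) :=
              mul_le_mul_of_nonneg_right (le_abs_self a) (by linarith)
          _ ≤ |a| * (l1.length + l3.length) := mul_le_mul_of_nonneg_left (by linarith) ha0
      have e4 := mul_le_mul_of_nonneg_left hHr hβ.le
      nlinarith [mul_nonneg ha0 hn1, mul_nonneg ha0 hn3]

theorem term_le (β a : ℝ) (s m r : ℕ) :
    ws (s + (m + r)) 0 (fun l => Kw β (2 * |a| - 2 * β) (l.take s) *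
          (up β a ((l.drop s).take (m + 1)) +
            up β a (((l.drop s).take (m + 1)).map (fun z => -z))) *
          Kw β (2 * |a| - 2 * β) ((l.drop s).drop (m + 1))) ≤
      Ac β (2 * |a| - 2 * β) s * (2 * Bs β a m) * Ac β (2 * |a| - 2 * β) r := by
  set γ := 2 * |a| - 2 * β with hγ
  have h1 := ws_split_pre s (m + r) 0 (fun l1 l' => Kw β γ l1 *
          (up β a (l'.take (m + 1)) +
            up β a ((l'.take (m + 1)).map (fun z => -z))) *
          Kw β γ (l'.drop (m + 1)))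
  beta_reduce at h1
  rw [h1]
  have h2 : ∀ (l1 : List ℤ) (y : ℤ), ws (m + r) y (fun l' => Kw β γ l1 *
          (up β a (l'.take (m + 1)) +
            up β a ((l'.take (m + 1)).map (fun z => -z))) *
          Kw β γ (l'.drop (m + 1))) =
      Kw β γ l1 * ((ws m y (up β a) + ws m y (fun l => up β a (l.map (fun z => -z)))) *
        Ac β γ r) := by
    intro l1 y
    have h3 := ws_split_post m r y (fun l2 l3 => Kw β γ l1 *
          (up β a l2 + up β a (l2.map (fun z => -z))) * Kw β γ l3)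
    beta_reduce at h3
    rw [h3]
    have h4 : ∀ l2 : List ℤ, post r (l2.getLastD 0) (fun l3 => Kw β γ l1 *
          (up β a l2 + up β a (l2.map (fun z => -z))) * Kw β γ l3) =
        Kw β γ l1 * ((up β a l2 + up β a (l2.map (fun z => -z))) * Ac β γ r) := by
      intro l2
      have h5 := post_Kw β γ (l2.getLastD 0) r
      cases r with
      | zero => simp only [post] at h5 ⊢; rw [h5]; ring
      | succ r =>
        simp only [post] at h5 ⊢
        rw [ws_mul, ws_mul, ← h5]; ring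
    rw [ws_congr m y _ _ fun l2 _ => h4 l2, ws_mul, ws_mul_right, ws_add]
  rw [pre_congr s 0 _ _ h2]
  have hA : ∀ k, 0 ≤ Ac β γ k := by
    intro k
    cases k with
    | zero => simp [Ac]
    | succ k =>
      have : 0 ≤ Zf β k := ws_nonneg _ _ _ fun l => (Real.exp_pos _).le
      simp only [Ac]; positivity
  have hpre : ∀ (s : ℕ) (x : ℤ) (Kf : List ℤ → ℝ) (f : ℤ → ℝ) (c : ℝ), (∀ l, 0 ≤ Kf l) →
      (∀ y, f y ≤ c) → pre s x (fun l y => Kf l * f y) ≤ pre s x (fun l _ => Kf l) * c := by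
    intro s
    induction s with
    | zero =>
      intro x Kf f c hK hf
      simp only [pre]
      exact mul_le_mul_of_nonneg_left (hf x) (hK _)
    | succ s ih =>
      intro x Kf f c hK hf
      simp only [pre]
      rw [add_mul]
      exact add_le_add (ih (x + 1) (fun l => Kf (x :: l)) f c (fun l => hK _) hf)
        (ih (x - 1) (fun l => Kf (x :: l)) f c (fun l => hK _) hf)
  have h6 := hpre s 0 (Kw β γ)
    (fun y => (ws m y (up β a) + ws m y (fun l => up β a (l.map (fun z => -z)))) * Ac β γ r)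
    (2 * Bs β a m * Ac β γ r) (fun l => (Kw_pos β γ l).le) (by
      intro y
      apply mul_le_mul_of_nonneg_right _ (hA r)
      linarith [ws_up β a m y, ws_dn β a m y])
  rw [pre_Kw] at h6
  calc _ ≤ _ := h6
    _ = _ := by ring

theorem Zp_split (β a : ℝ) (hβ : 0 < β) (n : ℕ) :
    Zp β a n ≤ ∑ p ∈ antidiagonal n, ∑ q ∈ antidiagonal p.2,
      Ac β (2 * |a| - 2 * β) p.1 * (2 * Bs β a q.1) * Ac β (2 * |a| - 2 * β) q.2 := by
  have hF : ∀ (l : List ℤ) (s m : ℕ), 0 ≤ Kw β (2 * |a| - 2 * β) (l.take s) *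
          (up β a ((l.drop s).take (m + 1)) +
            up β a (((l.drop s).take (m + 1)).map (fun z => -z))) *
          Kw β (2 * |a| - 2 * β) ((l.drop s).drop (m + 1)) := by
    intro l s m
    exact mul_nonneg (mul_nonneg (Kw_pos _ _ _).le (add_nonneg (up_nonneg _ _ _)
      (up_nonneg _ _ _))) (Kw_pos _ _ _).le
  have h1 : Zp β a n ≤ ws n 0 (fun l => ∑ p ∈ antidiagonal n, ∑ q ∈ antidiagonal p.2,
      Kw β (2 * |a| - 2 * β) (l.take p.1) *
          (up β a ((l.drop p.1).take (q.1 + 1)) +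
            up β a (((l.drop p.1).take (q.1 + 1)).map (fun z => -z))) *
          Kw β (2 * |a| - 2 * β) ((l.drop p.1).drop (q.1 + 1))) := by
    apply ws_mono
    intro l hl
    split_ifs with h0
    · obtain ⟨p, hp, q, hq, hle⟩ := weight_split β a hβ hl h0
      refine hle.trans ?_
      refine le_trans ?_ (Finset.single_le_sum
        (f := fun p : ℕ × ℕ => ∑ q ∈ antidiagonal p.2,
          Kw β (2 * |a| - 2 * β) (l.take p.1) *
          (up β a ((l.drop p.1).take (q.1 + 1)) +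
            up β a (((l.drop p.1).take (q.1 + 1)).map (fun z => -z))) *
          Kw β (2 * |a| - 2 * β) ((l.drop p.1).drop (q.1 + 1)))
        (fun p _ => Finset.sum_nonneg fun q _ => hF l p.1 q.1) hp)
      exact Finset.single_le_sum
        (f := fun q : ℕ × ℕ => Kw β (2 * |a| - 2 * β) (l.take p.1) *
          (up β a ((l.drop p.1).take (q.1 + 1)) +
            up β a (((l.drop p.1).take (q.1 + 1)).map (fun z => -z))) *
          Kw β (2 * |a| - 2 * β) ((l.drop p.1).drop (q.1 + 1)))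
        (fun q _ => hF l p.1 q.1) hq
    · exact Finset.sum_nonneg fun p _ => Finset.sum_nonneg fun q _ => hF l p.1 q.1
  refine h1.trans ?_
  rw [ws_sum]
  apply Finset.sum_le_sum
  intro p hp
  rw [ws_sum]
  apply Finset.sum_le_sum
  intro q hq
  have e1 := HasAntidiagonal.mem_antidiagonal.1 hp
  have e2 := HasAntidiagonal.mem_antidiagonal.1 hq
  have h2 := term_le β a p.1 q.1 q.2
  rw [e2, e1] at h2
  exact h2

/-! ### Exponential bounds -/

theorem poly_exp (δ : ℝ) (hδ : 0 < δ) :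
    ∃ C : ℝ, 0 < C ∧ ∀ n : ℕ, ((n : ℝ) + 1) ^ 3 ≤ C * Real.exp (δ * n) := by
  refine ⟨6 / δ ^ 3 * Real.exp δ, by positivity, ?_⟩
  intro n
  have h := Real.pow_div_factorial_le_exp (δ * ((n : ℝ) + 1)) (by positivity) 3
  have e : Real.exp (δ * ((n : ℝ) + 1)) = Real.exp δ * Real.exp (δ * n) := by
    rw [← Real.exp_add]; ring_nf
  rw [e] at h
  have hf : ((3).factorial : ℝ) = 6 := by norm_num [Nat.factorial]
  rw [hf, mul_pow, div_le_iff₀ (by norm_num)] at h
  have hδ3 : 0 < δ ^ 3 := by positivity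
  calc ((n : ℝ) + 1) ^ 3 = (δ ^ 3 * ((n : ℝ) + 1) ^ 3) / δ ^ 3 := by field_simp
    _ ≤ (Real.exp δ * Real.exp (δ * n) * 6) / δ ^ 3 := by gcongr
    _ = 6 / δ ^ 3 * Real.exp δ * Real.exp (δ * n) := by ring

theorem Zf_nonneg (β : ℝ) (n : ℕ) : 0 ≤ Zf β n := ws_nonneg _ _ _ fun _ => (Real.exp_pos _).le

theorem Br_nonneg (β : ℝ) (n L : ℕ) : 0 ≤ Br β n L := by
  apply ws_nonneg
  intro l
  split_ifs <;> positivity

theorem Ac_nonneg (β γ : ℝ) (r : ℕ) : 0 ≤ Ac β γ r := by
  cases r with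
  | zero => simp [Ac]
  | succ r =>
    have := Zf_nonneg β r
    simp only [Ac]; positivity

theorem Bs_nonneg (β a : ℝ) (m : ℕ) : 0 ≤ Bs β a m :=
  Finset.sum_nonneg fun R _ => mul_nonneg (Real.exp_pos _).le (Br_nonneg β m R)

theorem Ac_le (β γ C ρ κ : ℝ) (hC : 0 ≤ C) (hZ : ∀ n : ℕ, Zf β n ≤ C * Real.exp (-ρ * n))
    (hκ : κ ≤ ρ - γ) (r : ℕ) :
    Ac β γ r ≤ (1 + 2 * C * Real.exp ρ) * Real.exp (-κ * r) := by
  cases r with
  | zero =>
    simp only [Ac, Nat.cast_zero, mul_zero, Real.exp_zero, mul_one]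
    have : 0 ≤ 2 * C * Real.exp ρ := by positivity
    linarith
  | succ r =>
    simp only [Ac]
    have h1 : 2 * Zf β r * Real.exp (γ * ((r : ℝ) + 1)) ≤
        2 * (C * Real.exp (-ρ * r)) * Real.exp (γ * ((r : ℝ) + 1)) := by
      have := hZ r
      gcongr
    have h2 : 2 * (C * Real.exp (-ρ * r)) * Real.exp (γ * ((r : ℝ) + 1)) =
        2 * C * Real.exp ρ * Real.exp ((γ - ρ) * ((r : ℝ) + 1)) := by
      have : Real.exp ρ * Real.exp ((γ - ρ) * ((r : ℝ) + 1)) =
          Real.exp (-ρ * r) * Real.exp (γ * ((r : ℝ) + 1)) := by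
        rw [← Real.exp_add, ← Real.exp_add]; ring_nf
      calc 2 * (C * Real.exp (-ρ * r)) * Real.exp (γ * ((r : ℝ) + 1)) =
          2 * C * (Real.exp (-ρ * r) * Real.exp (γ * ((r : ℝ) + 1))) := by ring
        _ = 2 * C * (Real.exp ρ * Real.exp ((γ - ρ) * ((r : ℝ) + 1))) := by rw [this]
        _ = _ := by ring
    have h3 : Real.exp ((γ - ρ) * ((r : ℝ) + 1)) ≤ Real.exp (-κ * ((r + 1 : ℕ) : ℝ)) := by
      rw [Real.exp_le_exp]
      push_cast
      have : (0 : ℝ) ≤ (r : ℝ) + 1 := by positivity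
      nlinarith
    calc _ ≤ _ := h1
      _ = _ := h2
      _ ≤ 2 * C * Real.exp ρ * Real.exp (-κ * ((r + 1 : ℕ) : ℝ)) := by gcongr
      _ ≤ (1 + 2 * C * Real.exp ρ) * Real.exp (-κ * ((r + 1 : ℕ) : ℝ)) := by
        apply mul_le_mul_of_nonneg_right _ (Real.exp_pos _).le
        linarith

theorem Bs_le (β : ℝ) (ra : ℝ → ℝ)
    (hbr : ∀ (a : ℝ) (m L : ℕ), Br β m L ≤ Real.exp (a * ((L : ℝ) + 1) - ra a * ((m : ℝ) + 1)))
    (a κ : ℝ) (hκ : κ ≤ ra a) (m : ℕ) :
    Bs β a m ≤ ((m : ℝ) + 1) * Real.exp (a - ra a) * Real.exp (-κ * m) := by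
  have h1 : ∀ R ∈ range (m + 1), Real.exp (-a * (R : ℝ)) * Br β m R ≤
      Real.exp (a - ra a) * Real.exp (-κ * m) := by
    intro R _
    calc Real.exp (-a * (R : ℝ)) * Br β m R ≤ Real.exp (-a * (R : ℝ)) *
        Real.exp (a * ((R : ℝ) + 1) - ra a * ((m : ℝ) + 1)) :=
          mul_le_mul_of_nonneg_left (hbr a m R) (Real.exp_pos _).le
      _ = Real.exp (a - ra a) * Real.exp (-ra a * m) := by
        rw [← Real.exp_add, ← Real.exp_add]; ring_nf
      _ ≤ Real.exp (a - ra a) * Real.exp (-κ * m) := by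
        apply mul_le_mul_of_nonneg_left _ (Real.exp_pos _).le
        rw [Real.exp_le_exp]
        have : (0 : ℝ) ≤ m := Nat.cast_nonneg _
        nlinarith
  calc Bs β a m ≤ ∑ _R ∈ range (m + 1), Real.exp (a - ra a) * Real.exp (-κ * m) :=
        Finset.sum_le_sum h1
    _ = _ := by
      rw [Finset.sum_const, card_range, nsmul_eq_mul]
      push_cast
      ring

theorem Zp_bound (β : ℝ) (hβ : 0 < β) (ra : ℝ → ℝ)
    (hbr : ∀ (a : ℝ) (m L : ℕ), Br β m L ≤ Real.exp (a * ((L : ℝ) + 1) - ra a * ((m : ℝ) + 1)))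
    (a C ρ κ : ℝ) (hC : 0 ≤ C) (hZ : ∀ n : ℕ, Zf β n ≤ C * Real.exp (-ρ * n))
    (hκ1 : κ ≤ ρ + 2 * β - 2 * |a|) (hκ2 : κ ≤ ra a) :
    ∃ D : ℝ, 0 < D ∧ ∀ n : ℕ, Zp β a n ≤ D * (((n : ℝ) + 1) ^ 3 * Real.exp (-κ * n)) := by
  refine ⟨2 * Real.exp (a - ra a) * (1 + 2 * C * Real.exp ρ) ^ 2, by positivity, ?_⟩
  intro n
  refine (Zp_split β a hβ n).trans ?_
  set γ := 2 * |a| - 2 * β with hγ
  set C1 := 1 + 2 * C * Real.exp ρ with hC1
  have hC1pos : 0 < C1 := by positivity
  have hterm : ∀ p ∈ antidiagonal n, ∀ q ∈ antidiagonal p.2,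
      Ac β γ p.1 * (2 * Bs β a q.1) * Ac β γ q.2 ≤
      2 * Real.exp (a - ra a) * C1 ^ 2 * (((n : ℝ) + 1) * Real.exp (-κ * n)) := by
    intro p hp q hq
    have e1 := HasAntidiagonal.mem_antidiagonal.1 hp
    have e2 := HasAntidiagonal.mem_antidiagonal.1 hq
    have hn : (n : ℝ) = p.1 + q.1 + q.2 := by
      rw [← e1, ← e2]; push_cast; ring
    have b1 := Ac_le β γ C ρ κ hC hZ (by rw [hγ]; linarith) p.1
    have b2 := Ac_le β γ C ρ κ hC hZ (by rw [hγ]; linarith) q.2
    have b3 := Bs_le β ra hbr a κ hκ2 q.1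
    have b4 : ((q.1 : ℝ) + 1) ≤ (n : ℝ) + 1 := by
      rw [hn]
      have : (0 : ℝ) ≤ p.1 := Nat.cast_nonneg _
      have : (0 : ℝ) ≤ q.2 := Nat.cast_nonneg _
      linarith
    have b5 : Bs β a q.1 ≤ ((n : ℝ) + 1) * Real.exp (a - ra a) * Real.exp (-κ * q.1) := by
      refine b3.trans ?_
      gcongr
    calc Ac β γ p.1 * (2 * Bs β a q.1) * Ac β γ q.2 ≤
        (C1 * Real.exp (-κ * p.1)) * (2 * (((n : ℝ) + 1) * Real.exp (a - ra a) *
          Real.exp (-κ * q.1))) * (C1 * Real.exp (-κ * q.2)) := by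
          have := Ac_nonneg β γ p.1
          have := Ac_nonneg β γ q.2
          have := Bs_nonneg β a q.1
          gcongr
      _ = 2 * Real.exp (a - ra a) * C1 ^ 2 * (((n : ℝ) + 1) *
          (Real.exp (-κ * p.1) * Real.exp (-κ * q.1) * Real.exp (-κ * q.2))) := by ring
      _ = 2 * Real.exp (a - ra a) * C1 ^ 2 * (((n : ℝ) + 1) * Real.exp (-κ * n)) := by
        rw [← Real.exp_add, ← Real.exp_add, hn]
        ring_nf
  have hpos : 0 ≤ 2 * Real.exp (a - ra a) * C1 ^ 2 * (((n : ℝ) + 1) * Real.exp (-κ * n)) := by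
    positivity
  calc ∑ p ∈ antidiagonal n, ∑ q ∈ antidiagonal p.2, Ac β γ p.1 * (2 * Bs β a q.1) * Ac β γ q.2
      ≤ ∑ p ∈ antidiagonal n, ((n : ℝ) + 1) *
        (2 * Real.exp (a - ra a) * C1 ^ 2 * (((n : ℝ) + 1) * Real.exp (-κ * n))) := by
        apply Finset.sum_le_sum
        intro p hp
        refine (Finset.sum_le_sum (hterm p hp)).trans ?_
        rw [Finset.sum_const, Nat.card_antidiagonal, nsmul_eq_mul]
        apply mul_le_mul_of_nonneg_right _ hpos
        have e1 := HasAntidiagonal.mem_antidiagonal.1 hp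
        have : p.2 ≤ n := by omega
        push_cast
        have : (p.2 : ℝ) ≤ n := by exact_mod_cast this
        linarith
    _ = 2 * Real.exp (a - ra a) * C1 ^ 2 * (((n : ℝ) + 1) ^ 3 * Real.exp (-κ * n)) := by
        rw [Finset.sum_const, Nat.card_antidiagonal, nsmul_eq_mul]
        push_cast
        ring

theorem Zf_le_Zp (β : ℝ) (n : ℕ) : Zf β n ≤ 2 * Zp β 0 n := by
  have h1 : Zf β n ≤ ws n 0 (fun l =>
      (if 0 ≤ l.getLastD 0 then Real.exp (-β * (Hl l : ℝ) - 0 * ((l.getLastD 0 : ℤ) : ℝ)) else 0) +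
      (if 0 ≤ (l.map (fun z => -z)).getLastD 0 then
        Real.exp (-β * (Hl (l.map (fun z => -z)) : ℝ) -
          0 * (((l.map (fun z => -z)).getLastD 0 : ℤ) : ℝ)) else 0)) := by
    apply ws_mono
    intro l hl
    rw [getLastD_map _ hl.ne_nil, Hl_map _ neg_injective]
    rcases le_total 0 (l.getLastD 0) with h | h
    · rw [if_pos h]
      have : 0 ≤ (if 0 ≤ -l.getLastD 0 then Real.exp (-β * (Hl l : ℝ) -
          0 * ((-l.getLastD 0 : ℤ) : ℝ)) else 0) := by split_ifs <;> positivity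
      simp only [zero_mul, sub_zero] at this ⊢
      linarith
    · have h' : 0 ≤ -l.getLastD 0 := by linarith
      rw [if_pos h']
      have : 0 ≤ (if 0 ≤ l.getLastD 0 then Real.exp (-β * (Hl l : ℝ) -
          0 * ((l.getLastD 0 : ℤ) : ℝ)) else 0) := by split_ifs <;> positivity
      simp only [zero_mul, sub_zero] at this ⊢
      linarith
  rw [ws_add] at h1
  have h2 := ws_neg n 0 (fun l => if 0 ≤ l.getLastD 0 then
    Real.exp (-β * (Hl l : ℝ) - 0 * ((l.getLastD 0 : ℤ) : ℝ)) else 0)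
  rw [neg_zero] at h2
  rw [← h2] at h1
  have e : Zp β 0 n = ws n 0 (fun l => if 0 ≤ l.getLastD 0 then
    Real.exp (-β * (Hl l : ℝ) - 0 * ((l.getLastD 0 : ℤ) : ℝ)) else 0) := rfl
  rw [e]
  linarith

theorem Zf_le_two_pow (β : ℝ) (hβ : 0 < β) (n : ℕ) : Zf β n ≤ 2 ^ n := by
  rw [← ws_one n 0]
  apply ws_mono
  intro l _
  rw [Real.exp_le_one_iff]
  have : (0 : ℝ) ≤ Hl l := Nat.cast_nonneg _
  nlinarith

theorem Zf_boot (β : ℝ) (hβ : 0 < β) (ra : ℝ → ℝ)
    (hbr : ∀ (a : ℝ) (m L : ℕ), Br β m L ≤ Real.exp (a * ((L : ℝ) + 1) - ra a * ((m : ℝ) + 1))) :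
    ∀ (k : ℕ) (ρ' : ℝ), ρ' < -Real.log 2 + k * β → ρ' < ra 0 →
      ∃ C : ℝ, 0 ≤ C ∧ ∀ n : ℕ, Zf β n ≤ C * Real.exp (-ρ' * n) := by
  intro k
  induction k with
  | zero =>
    intro ρ' h1 _
    refine ⟨1, zero_le_one, ?_⟩
    intro n
    rw [one_mul]
    refine (Zf_le_two_pow β hβ n).trans ?_
    have e : (2 : ℝ) ^ n = Real.exp (Real.log 2 * n) := by
      rw [mul_comm, Real.exp_nat_mul, Real.exp_log (by norm_num)]
    rw [e, Real.exp_le_exp]
    have hn : (0 : ℝ) ≤ n := Nat.cast_nonneg _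
    simp only [Nat.cast_zero, zero_mul, add_zero] at h1
    nlinarith
  | succ k ih =>
    intro ρ' h1 h2
    push_cast at h1
    obtain ⟨κ, hκ⟩ : ∃ κ, κ = (ρ' + min (-Real.log 2 + ((k : ℝ) + 1) * β) (ra 0)) / 2 := ⟨_, rfl⟩
    have hm1 := min_le_left (-Real.log 2 + ((k : ℝ) + 1) * β) (ra 0)
    have hm2 := min_le_right (-Real.log 2 + ((k : ℝ) + 1) * β) (ra 0)
    have hm3 : ρ' < min (-Real.log 2 + ((k : ℝ) + 1) * β) (ra 0) := lt_min h1 h2
    obtain ⟨C, hC, hZ⟩ := ih (κ - 3 * β / 2) (by rw [hκ]; nlinarith) (by rw [hκ]; linarith)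
    obtain ⟨D, hD, hZp⟩ := Zp_bound β hβ ra hbr 0 C (κ - 3 * β / 2) κ hC hZ
      (by rw [abs_zero]; linarith) (by rw [hκ]; linarith)
    obtain ⟨E, hE, hpoly⟩ := poly_exp (κ - ρ') (by rw [hκ]; linarith)
    refine ⟨2 * D * E, by positivity, ?_⟩
    intro n
    have h3 := Zf_le_Zp β n
    have h4 := hZp n
    have h5 := hpoly n
    calc Zf β n ≤ 2 * (D * (((n : ℝ) + 1) ^ 3 * Real.exp (-κ * n))) := by linarith
      _ ≤ 2 * (D * (E * Real.exp ((κ - ρ') * n) * Real.exp (-κ * n))) := by gcongr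
      _ = 2 * D * E * Real.exp (-ρ' * n) := by
        have : Real.exp ((κ - ρ') * n) * Real.exp (-κ * n) = Real.exp (-ρ' * n) := by
          rw [← Real.exp_add]; ring_nf
        rw [← this]; ring

theorem Zp_le (β : ℝ) (hβ : 0 < β) (ra : ℝ → ℝ) (hmono : Monotone ra)
    (hlip : ∀ a b, a ≤ b → ra b ≤ ra a + (b - a))
    (hbr : ∀ (a : ℝ) (m L : ℕ), Br β m L ≤ Real.exp (a * ((L : ℝ) + 1) - ra a * ((m : ℝ) + 1)))
    (a : ℝ) (ha : |a| ≤ β / 4) (ρ : ℝ) (hρ : ρ < ra a) :
    ∃ C : ℝ, 0 < C ∧ ∀ n : ℕ, Zp β a n ≤ C * Real.exp (-ρ * n) := by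
  have hra : ra a ≤ ra 0 + |a| := by
    rcases le_total 0 a with h | h
    · rw [abs_of_nonneg h]
      have := hlip 0 a h
      linarith
    · have := hmono h
      have := abs_nonneg a
      linarith
  obtain ⟨k, hk⟩ := exists_nat_gt ((ra 0 - β / 2 + Real.log 2) / β)
  rw [div_lt_iff₀ hβ] at hk
  obtain ⟨C, hC, hZ⟩ := Zf_boot β hβ ra hbr k (ra 0 - β / 2) (by linarith) (by linarith)
  obtain ⟨D, hD, hZp⟩ := Zp_bound β hβ ra hbr a C (ra 0 - β / 2) (ra a) hC hZ
    (by linarith) le_rfl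
  obtain ⟨E, hE, hpoly⟩ := poly_exp (ra a - ρ) (by linarith)
  refine ⟨D * E, by positivity, ?_⟩
  intro n
  have h4 := hZp n
  have h5 := hpoly n
  calc Zp β a n ≤ D * (((n : ℝ) + 1) ^ 3 * Real.exp (-(ra a) * n)) := h4
    _ ≤ D * (E * Real.exp ((ra a - ρ) * n) * Real.exp (-(ra a) * n)) := by gcongr
    _ = D * E * Real.exp (-ρ * n) := by
      have : Real.exp ((ra a - ρ) * n) * Real.exp (-(ra a) * n) = Real.exp (-ρ * n) := by
        rw [← Real.exp_add]; ring_nf
      rw [← this]; ring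

end Pool.Agent.MP_55179a_pr
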