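import Mathlib
set_option autoImplicit false
namespace Pool.Agent.MP_55179a_pr

open Filter Topology Finset

/-- Slope inequalities for a function with monotone subgradient. -/
theorem gap_slope {f ν : ℝ → ℝ} (h : ∀ r r', f r + (r' - r) * ν r ≤ f r') (r r' : ℝ) :
    (r' - r) * ν r ≤ f r' - f r ∧ f r' - f r ≤ (r' - r) * ν r' := by
  have h1 := h r r'
  have h2 := h r' r
  constructor <;> nlinarith

theorem gap_exists {f ν : ℝ → ℝ} (h : ∀ r r', f r + (r' - r) * ν r ≤ f r')
    (hν : ∀ r, 1 ≤ ν r) (a : ℝ) : ∃ r, f r = a := by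
  have hslope : ∀ r r', r ≤ r' → r' - r ≤ f r' - f r := by
    intro r r' hr
    have := (gap_slope h r r').1
    nlinarith [hν r]
  -- monotonicity of ν
  have hmono : Monotone ν := by
    intro r r' hr
    rcases eq_or_lt_of_le hr with rfl | hlt
    · exact le_rfl
    · have h1 := gap_slope h r r'
      have h2 : (r' - r) * ν r ≤ (r' - r) * ν r' := h1.1.trans h1.2
      exact le_of_mul_le_mul_left h2 (by linarith)
  have hcont : Continuous f := by
    rw [continuous_iff_continuousAt]
    intro x
    -- Lipschitz near x with constant ν (x+1)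
    rw [Metric.continuousAt_iff]
    intro ε hε
    have hpos : 0 < ν (x + 1) := by linarith [hν (x + 1)]
    refine ⟨min 1 (ε / ν (x + 1)), by positivity, fun y hy => ?_⟩
    rw [Real.dist_eq] at hy ⊢
    have hy1 : |y - x| < 1 := lt_of_lt_of_le hy (min_le_left _ _)
    have hy2 : |y - x| < ε / ν (x + 1) := lt_of_lt_of_le hy (min_le_right _ _)
    have hy3 : |y - x| * ν (x + 1) < ε := by rwa [lt_div_iff₀ hpos] at hy2
    have hyx : y ≤ x + 1 := by linarith [(abs_lt.1 hy1).2]
    have hk : |f y - f x| ≤ |y - x| * ν (x + 1) := by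
      rcases le_total x y with hxy | hxy
      · have h1 := gap_slope h x y
        have h0 : 0 ≤ f y - f x := by linarith [hslope x y hxy]
        rw [abs_of_nonneg h0, abs_of_nonneg (by linarith)]
        exact h1.2.trans (mul_le_mul_of_nonneg_left (hmono hyx) (by linarith))
      · have h1 := gap_slope h y x
        have h0 : f y - f x ≤ 0 := by linarith [hslope y x hxy]
        rw [abs_of_nonpos h0, abs_of_nonpos (by linarith)]
        have h2 : (x - y) * ν x ≤ (x - y) * ν (x + 1) :=
          mul_le_mul_of_nonneg_left (hmono (by linarith)) (by linarith)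
        linarith [h1.2]
    linarith
  -- intermediate value theorem on [lo, hi]
  set lo : ℝ := min 0 (a - f 0) with hlo
  set hi : ℝ := max 0 (a - f 0) with hhi
  have hle : lo ≤ hi := (min_le_left _ _).trans (le_max_left _ _)
  have hlo' : f lo ≤ a := by
    rcases le_total 0 (a - f 0) with h0 | h0
    · have : lo = 0 := by rw [hlo]; exact min_eq_left h0
      rw [this]; linarith
    · have : lo = a - f 0 := by rw [hlo]; exact min_eq_right h0
      rw [this]
      linarith [hslope (a - f 0) 0 h0]
  have hhi' : a ≤ f hi := by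
    rcases le_total 0 (a - f 0) with h0 | h0
    · have : hi = a - f 0 := by rw [hhi]; exact max_eq_right h0
      rw [this]
      linarith [hslope 0 (a - f 0) h0]
    · have : hi = 0 := by rw [hhi]; exact max_eq_left h0
      rw [this]; linarith
  obtain ⟨r, _, hr⟩ := intermediate_value_Icc hle hcont.continuousOn ⟨hlo', hhi'⟩
  exact ⟨r, hr⟩

theorem gap_module (Lm nn hh : ℕ → ℝ → ℝ → ℝ)
    (hsub : ∀ M r β r' β', 0 < β → 0 < β' →
      Lm M r β + (r' - r) * nn M r β - (β' - β) * hh M r β ≤ Lm M r' β')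
    (hn : ∀ M r β, 0 < β → 1 ≤ nn M r β)
    (hrat : ∀ M r r' β, 0 < β → r ≤ r' → hh M r β * nn M r' β ≤ hh M r' β * nn M r β)
    (hmono : ∀ M r β, 0 < β → Lm M r β ≤ Lm (M + 1) r β)
    (hbd : ∀ r β, 0 < β → ∃ C, ∀ M, Lm M r β ≤ C)
    (hlow : ∀ M r β, 0 < β → r - β ≤ Lm M r β)
    (hlip : ∀ β, 0 < β → ∀ r0 : ℝ, ∃ C, ∀ M r r', -r0 ≤ r → r ≤ r' → r' ≤ r0 →
      nn M r' β - nn M r β ≤ C * (r' - r)) :
    ∃ R : ℝ → ℝ → ℝ, ∀ β, 0 < β →
      (∀ a M, Lm M (R a β) β ≤ a) ∧
      (∀ r, R 0 β < r → ∃ M, 0 < Lm M r β) ∧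
      (∀ β', β ≤ β' → ∀ a a', a ≤ a' → R a' β - R a β ≤ R a' β' - R a β') ∧
      (∃ C, ∀ a, 0 < a → a ≤ 1 → 2 * R 0 β - R (-a) β - R a β ≤ C * a ^ 2) ∧
      (∀ a a', a ≤ a' → R a β ≤ R a' β ∧ R a' β ≤ R a β + (a' - a)) := by
  -- basic slope facts at fixed β
  have hS : ∀ M β, 0 < β → ∀ r r',
      (r' - r) * nn M r β ≤ Lm M r' β - Lm M r β ∧
      Lm M r' β - Lm M r β ≤ (r' - r) * nn M r' β := by
    intro M β hβ r r'
    exact gap_slope (f := fun r => Lm M r β) (ν := fun r => nn M r β)
      (fun r r' => by have := hsub M r β r' β hβ hβ; simpa using this) r r'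
  have hslope : ∀ M β, 0 < β → ∀ r r', r ≤ r' → r' - r ≤ Lm M r' β - Lm M r β := by
    intro M β hβ r r' hr
    have h1 := (hS M β hβ r r').1
    nlinarith [hn M r β hβ]
  have hlt : ∀ M β, 0 < β → ∀ r r', Lm M r β ≤ Lm M r' β → r ≤ r' := by
    intro M β hβ r r' h
    by_contra hcon
    push Not at hcon
    have := hslope M β hβ r' r hcon.le
    linarith
  have hex : ∀ M a β, ∃ r, 0 < β → Lm M r β = a := by
    intro M a β
    by_cases hβ : 0 < β
    · obtain ⟨r, hr⟩ := gap_exists (f := fun r => Lm M r β) (ν := fun r => nn M r β)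
        (fun r r' => by have := hsub M r β r' β hβ hβ; simpa using this)
        (fun r => hn M r β hβ) a
      exact ⟨r, fun _ => hr⟩
    · exact ⟨0, fun h => absurd h hβ⟩
  choose rM hrM using hex
  -- monotone in a, 1-Lipschitz
  have ha_mono : ∀ M β, 0 < β → ∀ a a', a ≤ a' → rM M a β ≤ rM M a' β := by
    intro M β hβ a a' h
    exact hlt M β hβ _ _ (by rw [hrM M a β hβ, hrM M a' β hβ]; exact h)
  have ha_lip : ∀ M β, 0 < β → ∀ a a', a ≤ a' → rM M a' β ≤ rM M a β + (a' - a) := by
    intro M β hβ a a' h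
    have h1 := hslope M β hβ _ _ (ha_mono M β hβ a a' h)
    rw [hrM M a β hβ, hrM M a' β hβ] at h1
    linarith
  -- antitone in M
  have hM_anti : ∀ β, 0 < β → ∀ a, Antitone (fun M => rM M a β) := by
    intro β hβ a
    refine antitone_nat_of_succ_le (fun M => ?_)
    refine hlt (M + 1) β hβ _ _ ?_
    rw [hrM (M + 1) a β hβ]
    have h1 := hmono M (rM M a β) β hβ
    rw [hrM M a β hβ] at h1
    exact h1
  have hM_low : ∀ β, 0 < β → ∀ a, ∃ B, ∀ M, B ≤ rM M a β := by
    intro β hβ a
    obtain ⟨C, hC⟩ := hbd 0 β hβ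
    refine ⟨min 0 (a - C), fun M => ?_⟩
    rcases le_total 0 (rM M a β) with h | h
    · exact (min_le_left _ _).trans h
    · refine (min_le_right _ _).trans ?_
      have h1 := hslope M β hβ _ _ h
      rw [hrM M a β hβ] at h1
      linarith [hC M]
  have hM_bdd : ∀ β, 0 < β → ∀ a, BddBelow (Set.range (fun M => rM M a β)) := by
    intro β hβ a
    obtain ⟨B, hB⟩ := hM_low β hβ a
    exact ⟨B, by rintro _ ⟨M, rfl⟩; exact hB M⟩
  set R : ℝ → ℝ → ℝ := fun a β => ⨅ M, rM M a β with hRdef
  have hlim : ∀ β, 0 < β → ∀ a, Tendsto (fun M => rM M a β) atTop (𝓝 (R a β)) := by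
    intro β hβ a
    exact tendsto_atTop_ciInf (hM_anti β hβ a) (hM_bdd β hβ a)
  have hR_le : ∀ β, 0 < β → ∀ a M, R a β ≤ rM M a β := by
    intro β hβ a M
    exact ciInf_le (hM_bdd β hβ a) M
  -- gap inequality for fixed M
  have hgapM : ∀ M β, 0 < β → ∀ β', β ≤ β' → ∀ a a', a ≤ a' →
      rM M a' β - rM M a β ≤ rM M a' β' - rM M a β' := by
    intro M β hβ β' hββ' a a' haa'
    set ρ : ℝ → ℝ → ℝ := fun a t => hh M (rM M a t) t / nn M (rM M a t) t with hρ
    have hnpos : ∀ r t, 0 < t → 0 < nn M r t := fun r t ht => lt_of_lt_of_le one_pos (hn M r t ht)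
    have hstep : ∀ a t t', 0 < t → t ≤ t' →
        (t' - t) * ρ a t' ≤ rM M a t' - rM M a t ∧
        rM M a t' - rM M a t ≤ (t' - t) * ρ a t := by
      intro a t t' ht htt'
      have ht' : 0 < t' := lt_of_lt_of_le ht htt'
      have h1 := hsub M (rM M a t) t (rM M a t') t' ht ht'
      have h2 := hsub M (rM M a t') t' (rM M a t) t ht' ht
      rw [hrM M a t ht, hrM M a t' ht'] at h1 h2
      have hp := hnpos (rM M a t) t ht
      have hp' := hnpos (rM M a t') t' ht'
      constructor
      · rw [hρ]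
        simp only
        rw [← mul_div_assoc, div_le_iff₀ hp']
        nlinarith
      · rw [hρ]
        simp only
        rw [← mul_div_assoc, le_div_iff₀ hp]
        nlinarith
    have hρmono : ∀ t, 0 < t → ρ a t ≤ ρ a' t := by
      intro t ht
      have h1 := hrat M _ _ t ht (ha_mono M t ht a a' haa')
      rw [hρ]
      simp only
      rw [div_le_div_iff₀ (hnpos _ _ ht) (hnpos _ _ ht)]
      exact h1
    have hD : ∀ t t', 0 < t → t ≤ t' → (t' - t) * (ρ a t' - ρ a t) ≤
        (rM M a' t' - rM M a t') - (rM M a' t - rM M a t) := by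
      intro t t' ht htt'
      have ht' : 0 < t' := lt_of_lt_of_le ht htt'
      have h1 := (hstep a' t t' ht htt').1
      have h2 := (hstep a t t' ht htt').2
      have h3 : (t' - t) * ρ a t' ≤ (t' - t) * ρ a' t' :=
        mul_le_mul_of_nonneg_left (hρmono t' ht') (by linarith)
      linarith
    -- Riemann sum
    have hsum : ∀ n : ℕ, 0 < n → (β' - β) / n * (ρ a β' - ρ a β) ≤
        (rM M a' β' - rM M a β') - (rM M a' β - rM M a β) := by
      intro n hn0
      have hnR : (0 : ℝ) < n := by exact_mod_cast hn0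
      set t : ℕ → ℝ := fun k => β + k * ((β' - β) / n) with ht
      have hδ : 0 ≤ (β' - β) / n := div_nonneg (by linarith) hnR.le
      have htpos : ∀ k, 0 < t k := fun k => by
        rw [ht]; simp only
        have : 0 ≤ (k : ℝ) * ((β' - β) / n) := mul_nonneg (Nat.cast_nonneg _) hδ
        linarith
      have htd : ∀ k, t (k + 1) - t k = (β' - β) / n := fun k => by
        rw [ht]; simp only; push_cast; ring
      have key : ∀ k : ℕ, (β' - β) / n * (ρ a (t k) - ρ a (t 0)) ≤
          (rM M a' (t k) - rM M a (t k)) - (rM M a' (t 0) - rM M a (t 0)) := by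
        intro k
        induction k with
        | zero => simp
        | succ k ih =>
          have h1 := hD (t k) (t (k + 1)) (htpos k) (by linarith [htd k])
          rw [htd k] at h1
          linarith [h1, ih]
      have h0 : t 0 = β := by rw [ht]; simp
      have hnn : t n = β' := by
        rw [ht]; simp only
        field_simp
        ring
      have := key n
      rw [h0, hnn] at this
      exact this
    have htend : Tendsto (fun n : ℕ => (β' - β) / n * (ρ a β' - ρ a β)) atTop (𝓝 (0 * (ρ a β' - ρ a β))) :=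
      (tendsto_const_div_atTop_nhds_zero_nat (β' - β)).mul_const _
    rw [zero_mul] at htend
    have := le_of_tendsto htend (Filter.eventually_atTop.2 ⟨1, fun n hn0 => hsum n hn0⟩)
    linarith
  refine ⟨R, fun β hβ => ⟨?_, ?_, ?_, ?_, ?_⟩⟩
  · intro a M
    have h1 := hslope M β hβ _ _ (hR_le β hβ a M)
    rw [hrM M a β hβ] at h1
    linarith [hR_le β hβ a M]
  · intro r hr
    have := (hlim β hβ 0).eventually (gt_mem_nhds hr)
    obtain ⟨M, hM⟩ := this.exists
    refine ⟨M, ?_⟩
    have h1 := hslope M β hβ _ _ hM.le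
    rw [hrM M 0 β hβ] at h1
    linarith
  · intro β' hββ' a a' haa'
    have hβ' : 0 < β' := lt_of_lt_of_le hβ hββ'
    exact le_of_tendsto_of_tendsto' ((hlim β hβ a').sub (hlim β hβ a))
      ((hlim β' hβ' a').sub (hlim β' hβ' a)) (fun M => hgapM M β hβ β' hββ' a a' haa')
  · obtain ⟨B, hB⟩ := hM_low β hβ 0
    obtain ⟨C, hC⟩ := hlip β hβ (|B| + β + 1)
    refine ⟨2 * |C|, fun a ha ha1 => ?_⟩
    have hM : ∀ M, 2 * rM M 0 β - rM M (-a) β - rM M a β ≤ 2 * |C| * a ^ 2 := by
      intro M
      set s := rM M 0 β with hs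
      set x := s - rM M (-a) β with hx
      set y := rM M a β - s with hy
      have hx0 : 0 ≤ x := by
        rw [hx, hs]; linarith [ha_mono M β hβ (-a) 0 (by linarith)]
      have hy0 : 0 ≤ y := by
        rw [hy, hs]; linarith [ha_mono M β hβ 0 a (by linarith)]
      have hxa : x ≤ a := by
        rw [hx, hs]; linarith [ha_lip M β hβ (-a) 0 (by linarith)]
      have hya : y ≤ a := by
        rw [hy, hs]; linarith [ha_lip M β hβ 0 a (by linarith)]
      have hsβ : s ≤ β := by
        have h1 := hlow M s β hβ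
        rw [hs, hrM M 0 β hβ] at h1
        rw [hs]
        linarith
      have hsB : B ≤ s := hB M
      set n1 := nn M (rM M (-a) β) β with hn1
      set n2 := nn M (rM M a β) β with hn2
      have hn1' : 1 ≤ n1 := hn M _ β hβ
      have hn2' : 1 ≤ n2 := hn M _ β hβ
      have hCn : n2 - n1 ≤ |C| * (x + y) := by
        have h1 := hC M (rM M (-a) β) (rM M a β)
          (by
            have : -|B| ≤ B := neg_abs_le B
            have h2 : rM M (-a) β = s - x := by rw [hx]; ring
            rw [h2]; linarith)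
          (ha_mono M β hβ (-a) a (by linarith))
          (by
            have h2 : rM M a β = s + y := by rw [hy]; ring
            rw [h2]
            linarith [abs_nonneg B])
        have h2 : rM M a β - rM M (-a) β = x + y := by rw [hx, hy]; ring
        rw [h2] at h1
        exact h1.trans (mul_le_mul_of_nonneg_right (le_abs_self C) (by linarith))
      -- a ≥ n1 x, a ≤ n2 y
      have hax : x * n1 ≤ a := by
        have h1 := (hS M β hβ (rM M (-a) β) s).1
        rw [hs, hrM M 0 β hβ, hrM M (-a) β hβ] at h1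
        rw [hx, hs, hn1]
        linarith
      have hay : a ≤ y * n2 := by
        have h1 := (hS M β hβ s (rM M a β)).2
        rw [hs, hrM M 0 β hβ, hrM M a β hβ] at h1
        rw [hy, hs, hn2]
        linarith
      have hgoal : x - y ≤ 2 * |C| * a ^ 2 := by
        -- x * n1 ≤ y * n2 = y * n1 + y * (n2 - n1)
        have h1 : (x - y) * n1 ≤ y * (n2 - n1) := by nlinarith
        have h2 : y * (n2 - n1) ≤ y * (|C| * (x + y)) := mul_le_mul_of_nonneg_left hCn hy0
        have h3 : y * (|C| * (x + y)) ≤ a * (|C| * (2 * a)) := by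
          refine mul_le_mul hya (mul_le_mul_of_nonneg_left (by linarith) (abs_nonneg C))
            (mul_nonneg (abs_nonneg C) (by linarith)) ha.le
        have h4 : (x - y) * n1 ≤ 2 * |C| * a ^ 2 := by nlinarith
        rcases le_total 0 (x - y) with h5 | h5
        · nlinarith
        · have : 0 ≤ 2 * |C| * a ^ 2 := by positivity
          linarith
      have : 2 * s - rM M (-a) β - rM M a β = x - y := by rw [hx, hy]; ring
      rw [this]; exact hgoal
    exact le_of_tendsto' ((((hlim β hβ 0).const_mul 2).sub (hlim β hβ (-a))).sub (hlim β hβ a)) hM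
  · intro a a' haa'
    constructor
    · exact le_of_tendsto_of_tendsto' (hlim β hβ a) (hlim β hβ a')
        (fun M => ha_mono M β hβ a a' haa')
    · exact le_of_tendsto_of_tendsto' (hlim β hβ a') ((hlim β hβ a).add_const (a' - a))
        (fun M => ha_lip M β hβ a a' haa')

end Pool.Agent.MP_55179a_pr
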