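import Pool.Agent.Lib.MP_55179a_pr.Core1

/-!
Convolution of finitely supported sequences and the monotone likelihood ratio order.
-/

set_option autoImplicit false

namespace Pool.Agent.MP_55179a_pr

open Finset

/-- Cauchy-Binet type inequality. -/
theorem cb_sum (N : ℕ) (u v a b : ℕ → ℝ)
    (h : ∀ x y, x ≤ y → y < N → v x * u y ≤ v y * u x)
    (h' : ∀ x y, x ≤ y → y < N → a x * b y ≤ b x * a y) :
    (∑ x ∈ range N, v x * b x) * (∑ x ∈ range N, u x * a x) ≤
      (∑ x ∈ range N, v x * a x) * (∑ x ∈ range N, u x * b x) := by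
  have h1 : (∑ x ∈ range N, v x * a x) * (∑ x ∈ range N, u x * b x) =
      ∑ x ∈ range N, ∑ y ∈ range N, v x * a x * (u y * b y) := by rw [sum_mul_sum]
  have h1' : (∑ x ∈ range N, v x * a x) * (∑ x ∈ range N, u x * b x) =
      ∑ x ∈ range N, ∑ y ∈ range N, v y * a y * (u x * b x) := by rw [sum_mul_sum, sum_comm]
  have h2 : (∑ x ∈ range N, v x * b x) * (∑ x ∈ range N, u x * a x) =
      ∑ x ∈ range N, ∑ y ∈ range N, v x * b x * (u y * a y) := by rw [sum_mul_sum]
  have h2' : (∑ x ∈ range N, v x * b x) * (∑ x ∈ range N, u x * a x) =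
      ∑ x ∈ range N, ∑ y ∈ range N, v y * b y * (u x * a x) := by rw [sum_mul_sum, sum_comm]
  have key : 0 ≤ ∑ x ∈ range N, ∑ y ∈ range N, (v x * u y - v y * u x) * (a x * b y - b x * a y) := by
    refine sum_nonneg fun x hx => sum_nonneg fun y hy => ?_
    rw [mem_range] at hx hy
    rcases le_total x y with hxy | hxy
    · exact mul_nonneg_of_nonpos_of_nonpos (sub_nonpos.2 (h x y hxy hy)) (sub_nonpos.2 (h' x y hxy hy))
    · have e1 := h y x hxy hx
      have e2 := h' y x hxy hx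
      exact mul_nonneg (by linarith) (by linarith)
  have e : ∑ x ∈ range N, ∑ y ∈ range N, (v x * u y - v y * u x) * (a x * b y - b x * a y) =
      (∑ x ∈ range N, ∑ y ∈ range N, v x * a x * (u y * b y)) +
      (∑ x ∈ range N, ∑ y ∈ range N, v y * a y * (u x * b x))
      - (∑ x ∈ range N, ∑ y ∈ range N, v x * b x * (u y * a y)) -
      (∑ x ∈ range N, ∑ y ∈ range N, v y * b y * (u x * a x)) := by
    simp only [← sum_add_distrib, ← sum_sub_distrib]
    refine sum_congr rfl fun x _ => sum_congr rfl fun y _ => ?_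
    ring
  rw [e, ← h1, ← h1', ← h2, ← h2'] at key
  linarith

/-- shifted kernel -/
noncomputable def kz (k : ℕ → ℝ) (x s : ℕ) : ℝ := if x ≤ s then k (s - x) else 0

/-- convolution -/
noncomputable def cv (M : ℕ) (u k : ℕ → ℝ) (s : ℕ) : ℝ := ∑ x ∈ range (M + 1), u x * kz k x s

theorem cv_eq (M : ℕ) (u k : ℕ → ℝ) (hu : ∀ x, M < x → u x = 0) (s : ℕ) :
    cv M u k s = ∑ x ∈ range (s + 1), u x * k (s - x) := by
  unfold cv
  have h1 : ∑ x ∈ range (M + 1), u x * kz k x s = ∑ x ∈ range (M + 1 + (s + 1)), u x * kz k x s := by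
    refine sum_subset (range_subset_range.2 (by omega)) fun x _ hx => ?_
    rw [hu x (by simpa using hx), zero_mul]
  have h2 : ∑ x ∈ range (s + 1), u x * kz k x s = ∑ x ∈ range (M + 1 + (s + 1)), u x * kz k x s := by
    refine sum_subset (range_subset_range.2 (by omega)) fun x _ hx => ?_
    have : s < x := by simpa using hx
    rw [kz, if_neg (by omega), mul_zero]
  rw [h1, ← h2]
  refine sum_congr rfl fun x hx => ?_
  rw [kz, if_pos (by have := mem_range.1 hx; omega)]

theorem cv_comm (M : ℕ) (u k : ℕ → ℝ) (hu : ∀ x, M < x → u x = 0) (hk : ∀ x, M < x → k x = 0)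
    (s : ℕ) : cv M u k s = cv M k u s := by
  rw [cv_eq M u k hu, cv_eq M k u hk, ← sum_range_reflect]
  refine sum_congr rfl fun x hx => ?_
  have := mem_range.1 hx
  rw [show s + 1 - 1 - x = s - x by omega, show s - (s - x) = x by omega, mul_comm]

/-- Grouping by the sum of the indices. -/
theorem sum_group (M : ℕ) (u k G : ℕ → ℝ) (hk : ∀ x, M < x → k x = 0) :
    ∑ i ∈ range (M + 1), ∑ j ∈ range (M + 1), u i * k j * G (i + j) =
      ∑ s ∈ range (2 * M + 1), cv M u k s * G s := by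
  have h : ∀ i ∈ range (M + 1), ∑ j ∈ range (M + 1), u i * k j * G (i + j) =
      ∑ s ∈ range (2 * M + 1), u i * kz k i s * G s := by
    intro i hi
    have hi' := mem_range.1 hi
    have e : 2 * M + 1 = i + (2 * M + 1 - i) := by omega
    rw [e, sum_range_add (fun s => u i * kz k i s * G s) i]
    have z : ∑ s ∈ range i, u i * kz k i s * G s = 0 := by
      refine sum_eq_zero fun s hs => ?_
      rw [kz, if_neg (by have := mem_range.1 hs; omega), mul_zero, zero_mul]
    rw [z, zero_add]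
    have e2 : ∑ x ∈ range (2 * M + 1 - i), u i * kz k i (i + x) * G (i + x) =
        ∑ x ∈ range (2 * M + 1 - i), u i * k x * G (i + x) := by
      refine sum_congr rfl fun x _ => ?_
      rw [kz, if_pos (by omega), Nat.add_sub_cancel_left]
    rw [e2]
    refine sum_subset (range_subset_range.2 (by omega)) fun x _ hx => ?_
    rw [hk x (by simpa using hx), mul_zero, zero_mul]
  rw [sum_congr rfl h, sum_comm]
  refine sum_congr rfl fun s _ => ?_
  rw [cv, sum_mul]

/-- One step: convolution with a log-concave sequence preserves the MLR order. -/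
theorem cv_step (M : ℕ) (u v k : ℕ → ℝ) (hk0 : ∀ x, 0 ≤ k x)
    (hlc : ∀ x y, x ≤ y → k x * k (y + 1) ≤ k (x + 1) * k y)
    (h : ∀ x y, x ≤ y → y ≤ M → v x * u y ≤ v y * u x) (s : ℕ) :
    cv M v k s * cv M u k (s + 1) ≤ cv M v k (s + 1) * cv M u k s := by
  unfold cv
  refine cb_sum (M + 1) u v (fun x => kz k x (s + 1)) (fun x => kz k x s)
    (fun x y hxy hy => h x y hxy (by omega)) ?_
  intro x y hxy _
  show kz k x (s + 1) * kz k y s ≤ kz k x s * kz k y (s + 1)
  rcases le_or_gt y s with hys | hys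
  · rw [kz, kz, kz, kz, if_pos (by omega), if_pos (by omega), if_pos (by omega), if_pos (by omega)]
    have h1 := hlc (s - y) (s - x) (by omega)
    rw [show s + 1 - x = s - x + 1 by omega, show s + 1 - y = s - y + 1 by omega]
    linarith
  · have : kz k y s = 0 := by rw [kz, if_neg (by omega)]
    rw [this, mul_zero]
    have h1 : ∀ a b, 0 ≤ kz k a b := fun a b => by
      rw [kz]; split_ifs
      · exact hk0 _
      · exact le_rfl
    exact mul_nonneg (h1 _ _) (h1 _ _)

theorem cv_pos (M : ℕ) (u k : ℕ → ℝ) (hu : ∀ x, x ≤ M → 0 < u x) (hu' : ∀ x, M < x → u x = 0)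
    (hk : ∀ x, x ≤ M → 0 < k x) (hk' : ∀ x, 0 ≤ k x) (s : ℕ) (hs : s ≤ 2 * M) : 0 < cv M u k s := by
  rw [cv_eq M u k hu']
  have hnn : ∀ x ∈ range (s + 1), 0 ≤ u x * k (s - x) := fun x _ => by
    refine mul_nonneg ?_ (hk' _)
    rcases le_or_gt x M with h | h
    · exact (hu x h).le
    · rw [hu' x h]
  refine sum_pos' hnn ⟨s - min s M, by simp, ?_⟩
  refine mul_pos (hu _ (by omega)) (hk _ (by omega))

theorem cv_zero (M : ℕ) (u k : ℕ → ℝ) (hk' : ∀ x, M < x → k x = 0) (s : ℕ) (hs : 2 * M < s) :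
    cv M u k s = 0 := by
  unfold cv
  refine sum_eq_zero fun x hx => ?_
  have := mem_range.1 hx
  rw [kz, if_pos (by omega), hk' _ (by omega), mul_zero]

/-- The self-convolutions are MLR ordered (consecutive version). -/
theorem cv_sq_step (M : ℕ) (u v : ℕ → ℝ) (hu : ∀ x, x ≤ M → 0 < u x) (hu' : ∀ x, M < x → u x = 0)
    (hv : ∀ x, x ≤ M → 0 < v x) (hv' : ∀ x, M < x → v x = 0)
    (hulc : ∀ x y, x ≤ y → u x * u (y + 1) ≤ u (x + 1) * u y)
    (hvlc : ∀ x y, x ≤ y → v x * v (y + 1) ≤ v (x + 1) * v y)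
    (h : ∀ x y, x ≤ y → y ≤ M → v x * u y ≤ v y * u x) (s : ℕ) (hs : s + 1 ≤ 2 * M) :
    cv M v v s * cv M u u (s + 1) ≤ cv M v v (s + 1) * cv M u u s := by
  have hu0 : ∀ x, 0 ≤ u x := fun x => by
    rcases le_or_gt x M with h | h
    · exact (hu x h).le
    · rw [hu' x h]
  have hv0 : ∀ x, 0 ≤ v x := fun x => by
    rcases le_or_gt x M with h | h
    · exact (hv x h).le
    · rw [hv' x h]
  have h1 := cv_step M u v v hv0 hvlc h s
  have h2 := cv_step M u v u hu0 hulc h s
  rw [cv_comm M u v hu' hv' (s + 1), cv_comm M u v hu' hv' s] at h1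
  have p1 := cv_pos M v u hv hv' hu hu0 (s + 1) hs
  have p0 := cv_pos M v u hv hv' hu hu0 s (by omega)
  have q1 := cv_pos M v v hv hv' hv hv0 (s + 1) hs
  have q0 := cv_pos M v v hv hv' hv hv0 s (by omega)
  have r1 := cv_pos M u u hu hu' hu hu0 (s + 1) hs
  have r0 := cv_pos M u u hu hu' hu hu0 s (by omega)
  have h3 : (cv M v v s * cv M u u (s + 1)) * (cv M v u s * cv M v u (s + 1)) ≤
      (cv M v v (s + 1) * cv M u u s) * (cv M v u s * cv M v u (s + 1)) := by
    calc (cv M v v s * cv M u u (s + 1)) * (cv M v u s * cv M v u (s + 1))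
        = (cv M v v s * cv M v u (s + 1)) * (cv M v u s * cv M u u (s + 1)) := by ring
      _ ≤ (cv M v v (s + 1) * cv M v u s) * (cv M v u (s + 1) * cv M u u s) :=
          mul_le_mul h1 h2 (by positivity) (by positivity)
      _ = _ := by ring
  exact le_of_mul_le_mul_right h3 (by positivity)

theorem ratio_chain (N : ℕ) (A B : ℕ → ℝ) (hA : ∀ s, s ≤ N → 0 < A s) (hB : ∀ s, s ≤ N → 0 < B s)
    (h : ∀ s, s + 1 ≤ N → B s * A (s + 1) ≤ B (s + 1) * A s) :
    ∀ s t, s ≤ t → t ≤ N → B s * A t ≤ B t * A s := by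
  intro s t hst ht
  obtain ⟨d, rfl⟩ := Nat.exists_eq_add_of_le hst
  clear hst
  induction d with
  | zero => simp
  | succ d ih =>
    have ih' := ih (by omega)
    have h1 := h (s + d) (by omega)
    have a0 := hA (s + d) (by omega)
    have a1 := hA (s + (d + 1)) ht
    have b0 := hB (s + d) (by omega)
    have b1 := hB (s + (d + 1)) ht
    have as := hA s (by omega)
    have bs := hB s (by omega)
    rw [← add_assoc] at a1 b1 ⊢
    have h2 : (B s * A (s + d + 1)) * (A (s + d) * B (s + d)) ≤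
        (B (s + d + 1) * A s) * (A (s + d) * B (s + d)) := by
      calc (B s * A (s + d + 1)) * (A (s + d) * B (s + d))
          = (B s * A (s + d)) * (B (s + d) * A (s + d + 1)) := by ring
        _ ≤ (B (s + d) * A s) * (B (s + d + 1) * A (s + d)) :=
            mul_le_mul ih' h1 (by positivity) (by positivity)
        _ = _ := by ring
    exact le_of_mul_le_mul_right h2 (by positivity)

/-- The key monotonicity: size-biased second moment over first moment. -/
theorem mlr_key (M : ℕ) (u v c : ℕ → ℝ) (hc : ∀ s, 0 < c s)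
    (hu : ∀ x, x ≤ M → 0 < u x) (hu' : ∀ x, M < x → u x = 0)
    (hv : ∀ x, x ≤ M → 0 < v x) (hv' : ∀ x, M < x → v x = 0)
    (hulc : ∀ x y, x ≤ y → u x * u (y + 1) ≤ u (x + 1) * u y)
    (hvlc : ∀ x y, x ≤ y → v x * v (y + 1) ≤ v (x + 1) * v y)
    (h : ∀ x y, x ≤ y → y ≤ M → v x * u y ≤ v y * u x) :
    (∑ i ∈ range (M + 1), ∑ j ∈ range (M + 1), u i * u j * (c (i + j) * (((i + j : ℕ) : ℝ) + 1) ^ 2)) *
    (∑ i ∈ range (M + 1), ∑ j ∈ range (M + 1), v i * v j * (c (i + j) * (((i + j : ℕ) : ℝ) + 1))) ≤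
    (∑ i ∈ range (M + 1), ∑ j ∈ range (M + 1), v i * v j * (c (i + j) * (((i + j : ℕ) : ℝ) + 1) ^ 2)) *
    (∑ i ∈ range (M + 1), ∑ j ∈ range (M + 1), u i * u j * (c (i + j) * (((i + j : ℕ) : ℝ) + 1))) := by
  have hu0 : ∀ x, 0 ≤ u x := fun x => by
    rcases le_or_gt x M with h | h
    · exact (hu x h).le
    · rw [hu' x h]
  have hv0 : ∀ x, 0 ≤ v x := fun x => by
    rcases le_or_gt x M with h | h
    · exact (hv x h).le
    · rw [hv' x h]
  rw [sum_group M u u (fun s => c s * ((s : ℝ) + 1) ^ 2) hu',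
    sum_group M v v (fun s => c s * ((s : ℝ) + 1)) hv',
    sum_group M v v (fun s => c s * ((s : ℝ) + 1) ^ 2) hv',
    sum_group M u u (fun s => c s * ((s : ℝ) + 1)) hu']
  have hchain := ratio_chain (2 * M) (cv M u u) (cv M v v)
    (fun s hs => cv_pos M u u hu hu' hu hu0 s hs) (fun s hs => cv_pos M v v hv hv' hv hv0 s hs)
    (fun s hs => cv_sq_step M u v hu hu' hv hv' hulc hvlc h s hs)
  have hm := mlr_sum (2 * M + 1) (fun s => cv M u u s * (c s * ((s : ℝ) + 1)))
    (fun s => cv M v v s * (c s * ((s : ℝ) + 1))) (fun s => (s : ℝ) + 1) (by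
      intro x y hxy hy
      have h1 := hchain x y hxy (by omega)
      have h2 : 0 ≤ (c x * ((x : ℝ) + 1)) * (c y * ((y : ℝ) + 1)) := by
        have := hc x; have := hc y; positivity
      show cv M u u y * (c y * ((y : ℝ) + 1)) * (cv M v v x * (c x * ((x : ℝ) + 1))) ≤
        cv M u u x * (c x * ((x : ℝ) + 1)) * (cv M v v y * (c y * ((y : ℝ) + 1)))
      have := mul_le_mul_of_nonneg_right h1 h2
      linarith) (by
      intro x y hxy _
      have : (x : ℝ) ≤ y := by exact_mod_cast hxy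
      show (x : ℝ) + 1 ≤ y + 1
      linarith)
  have e : ∀ w : ℕ → ℝ, ∑ s ∈ range (2 * M + 1), cv M w w s * (c s * ((s : ℝ) + 1)) * ((s : ℝ) + 1) =
      ∑ s ∈ range (2 * M + 1), cv M w w s * (c s * ((s : ℝ) + 1) ^ 2) := fun w =>
    sum_congr rfl fun s _ => by ring
  rw [e u, e v] at hm
  exact hm

end Pool.Agent.MP_55179a_pr
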