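import Pool.Agent.Lib.MP_55179a_pr.Core7

/-!
Perron eigenvector of the truncated kernel, Rayleigh bound, convexity of the logarithm of the eigenvalue.
-/

set_option autoImplicit false
namespace Pool.Agent.MP_55179a_pr
open Finset Filter

theorem K_symm (r β : ℝ) (i j : ℕ) : K r β i j = K r β j i := by
  unfold K
  have h : (i + j).choose i = (j + i).choose j := by
    rw [Nat.add_comm j i]; exact Nat.choose_symm_add
  rw [h]
  congr 2
  ring

/-- existence of a positive eigenvector, by maximising the Rayleigh quotient over the simplex -/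
theorem exists_pev_fin (n : ℕ) (hn : 0 < n) (A : Fin n → Fin n → ℝ) (hA : ∀ i j, 0 < A i j)
    (hs : ∀ i j, A i j = A j i) :
    ∃ (l : ℝ) (x : Fin n → ℝ), (∀ i, 0 < x i) ∧ ∀ i, ∑ j, A i j * x j = l * x i := by
  have : Nonempty (Fin n) := ⟨⟨0, hn⟩⟩
  set Q : (Fin n → ℝ) → ℝ := fun x => ∑ i, ∑ j, A i j * x i * x j with hQ
  set N : (Fin n → ℝ) → ℝ := fun x => ∑ i, x i ^ 2 with hN
  have hNpos : ∀ x : Fin n → ℝ, (∃ i, x i ≠ 0) → 0 < N x := by
    rintro x ⟨i, hi⟩
    exact Finset.sum_pos' (fun j _ => sq_nonneg _) ⟨i, mem_univ _, by positivity⟩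
  have hsimp : ∀ x ∈ stdSimplex ℝ (Fin n), ∃ i, 0 < x i := by
    rintro x ⟨hx0, hx1⟩
    by_contra hcon
    push Not at hcon
    have : ∑ i, x i = 0 := Finset.sum_eq_zero fun i _ => le_antisymm (hcon i) (hx0 i)
    rw [hx1] at this
    exact one_ne_zero this
  have hcont : ContinuousOn (fun x => Q x / N x) (stdSimplex ℝ (Fin n)) := by
    apply ContinuousOn.div
    · apply Continuous.continuousOn
      simp only [hQ]
      fun_prop
    · apply Continuous.continuousOn
      simp only [hN]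
      fun_prop
    · intro x hx
      obtain ⟨i, hi⟩ := hsimp x hx
      exact (hNpos x ⟨i, hi.ne'⟩).ne'
  obtain ⟨x, hx, hmax⟩ := (isCompact_stdSimplex ℝ (Fin n)).exists_isMaxOn
    (by exact ⟨_, single_mem_stdSimplex ℝ (⟨0, hn⟩ : Fin n)⟩) hcont
  obtain ⟨i0, hi0⟩ := hsimp x hx
  have hNx : 0 < N x := hNpos x ⟨i0, hi0.ne'⟩
  set l : ℝ := Q x / N x with hl
  have hlQ : Q x = l * N x := by rw [hl]; field_simp
  have key : ∀ z : Fin n → ℝ, (∀ i, 0 ≤ z i) → (∃ i, 0 < z i) → Q z ≤ l * N z := by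
    rintro z hz0 ⟨i, hi⟩
    set s := ∑ i, z i with hs'
    have hspos : 0 < s := Finset.sum_pos' (fun j _ => hz0 j) ⟨i, mem_univ _, hi⟩
    have hmem : (fun i => z i / s) ∈ stdSimplex ℝ (Fin n) := by
      refine ⟨fun i => div_nonneg (hz0 i) hspos.le, ?_⟩
      rw [← Finset.sum_div, ← hs', div_self hspos.ne']
    have h1 := hmax hmem
    simp only [Set.mem_ofPred_eq] at h1
    have h2 : Q (fun i => z i / s) = Q z / s ^ 2 := by
      simp only [hQ]
      rw [Finset.sum_div]
      refine Finset.sum_congr rfl fun a _ => ?_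
      rw [Finset.sum_div]
      refine Finset.sum_congr rfl fun b _ => ?_
      field_simp
    have h3 : N (fun i => z i / s) = N z / s ^ 2 := by
      simp only [hN]
      rw [Finset.sum_div]
      refine Finset.sum_congr rfl fun a _ => ?_
      rw [div_pow]
    rw [h2, h3, ← hl] at h1
    have hNz : 0 < N z := hNpos z ⟨i, hi.ne'⟩
    rw [div_div_div_cancel_right₀ (by positivity), div_le_iff₀ hNz] at h1
    exact h1
  have hAx : ∀ i, 0 < ∑ j, A i j * x j := fun i =>
    Finset.sum_pos' (fun j _ => mul_nonneg (hA i j).le (hx.1 j)) ⟨i0, mem_univ _, mul_pos (hA i i0) hi0⟩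
  have hle : ∀ i, ∑ j, A i j * x j ≤ l * x i := by
    intro i
    by_contra hcon
    push Not at hcon
    set d := ∑ j, A i j * x j - l * x i with hd
    have hdpos : 0 < d := by linarith
    set ε := d / (|l - A i i| + 1) with hε
    have hεpos : 0 < ε := by positivity
    have h1 := key (fun j => x j + ε * (if j = i then 1 else 0))
      (fun j => by
        have := hx.1 j
        split_ifs
        · positivity
        · simpa using this)
      ⟨i, by have := hx.1 i; simp; positivity⟩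
    have h2 : Q (fun j => x j + ε * (if j = i then 1 else 0)) =
        Q x + 2 * ε * (∑ j, A i j * x j) + ε ^ 2 * A i i := by
      simp only [hQ]
      have e1 : ∀ a, ∑ b, A a b * (x a + ε * (if a = i then 1 else 0)) * (x b + ε * (if b = i then 1 else 0))
          = (∑ b, A a b * x a * x b) + ε * (A a i * x a) + (if a = i then 1 else 0) *
            (ε * (∑ b, A a b * x b) + ε ^ 2 * A a i) := by
        intro a
        have : ∀ b, A a b * (x a + ε * (if a = i then 1 else 0)) * (x b + ε * (if b = i then 1 else 0)) =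
            A a b * x a * x b + (if b = i then ε * (A a b * x a) else 0) + (if a = i then 1 else 0) *
            (ε * (A a b * x b) + (if b = i then ε ^ 2 * A a b else 0)) := by
          intro b
          split_ifs <;> ring
        rw [Finset.sum_congr rfl fun b _ => this b, Finset.sum_add_distrib, Finset.sum_add_distrib,
          Finset.sum_ite_eq' univ i, ← Finset.mul_sum, Finset.sum_add_distrib, ← Finset.mul_sum,
          Finset.sum_ite_eq' univ i]
        simp
      rw [Finset.sum_congr rfl fun a _ => e1 a, Finset.sum_add_distrib, Finset.sum_add_distrib,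
        ← Finset.mul_sum]
      have e2 : ∑ a, A a i * x a = ∑ a, A i a * x a := Finset.sum_congr rfl fun a _ => by rw [hs a i]
      have e3 : ∑ a, (if a = i then (1:ℝ) else 0) * (ε * (∑ b, A a b * x b) + ε ^ 2 * A a i) =
          ε * (∑ b, A i b * x b) + ε ^ 2 * A i i := by
        simp only [ite_mul, one_mul, zero_mul]
        rw [Finset.sum_ite_eq' univ i]
        simp
      rw [e2, e3]
      ring
    have h3 : N (fun j => x j + ε * (if j = i then 1 else 0)) = N x + 2 * ε * x i + ε ^ 2 := by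
      simp only [hN]
      have : ∀ b, (x b + ε * (if b = i then 1 else 0)) ^ 2 =
            x b ^ 2 + (if b = i then 2 * ε * x b + ε ^ 2 else 0) := by
          intro b
          split_ifs <;> ring
      rw [Finset.sum_congr rfl fun b _ => this b, Finset.sum_add_distrib, Finset.sum_ite_eq' univ i]
      simp
      ring
    rw [h2, h3, hlQ] at h1
    have h4 : 2 * d ≤ ε * (l - A i i) := by
      have : ε * (2 * d) ≤ ε * (ε * (l - A i i)) := by
        rw [hd]; nlinarith
      exact le_of_mul_le_mul_left this hεpos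
    have h5 : ε * (l - A i i) ≤ d := by
      calc ε * (l - A i i) ≤ ε * (|l - A i i| + 1) := by
            apply mul_le_mul_of_nonneg_left _ hεpos.le
            have := le_abs_self (l - A i i)
            linarith
        _ = d := by rw [hε]; field_simp
    linarith
  have hzero : ∑ i, x i * (l * x i - ∑ j, A i j * x j) = 0 := by
    have : ∑ i, x i * (l * x i - ∑ j, A i j * x j) = l * N x - Q x := by
      simp only [hQ, hN]
      rw [Finset.mul_sum, ← Finset.sum_sub_distrib]
      refine Finset.sum_congr rfl fun a _ => ?_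
      have : ∑ j, A a j * x a * x j = x a * ∑ j, A a j * x j := by
        rw [Finset.mul_sum]
        exact Finset.sum_congr rfl fun b _ => by ring
      rw [this]; ring
    rw [this, hlQ]; ring
  have hall := (Finset.sum_eq_zero_iff_of_nonneg (fun i _ =>
    mul_nonneg (hx.1 i) (sub_nonneg.mpr (hle i)))).mp hzero
  have hxpos : ∀ i, 0 < x i := by
    intro i
    rcases (hx.1 i).lt_or_eq with h | h
    · exact h
    · have h1 := hAx i
      have h2 := hle i
      rw [← h] at h2
      simp at h2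
      linarith
  refine ⟨l, x, hxpos, fun i => ?_⟩
  have h := hall i (mem_univ _)
  rcases mul_eq_zero.mp h with h1 | h1
  · exact absurd h1 (hxpos i).ne'
  · linarith

/-- the same on `range (M+1)` -/
theorem exists_pev (M : ℕ) (A : ℕ → ℕ → ℝ) (hA : ∀ i j, 0 < A i j) (hs : ∀ i j, A i j = A j i) :
    ∃ (l : ℝ) (x : ℕ → ℝ), 0 < l ∧ x 0 = 1 ∧ (∀ i, 0 < x i) ∧
      ∀ i, ∑ j ∈ range (M + 1), A i j * x j = l * x i := by
  obtain ⟨l, x, hx, he⟩ := exists_pev_fin (M + 1) (by omega) (fun i j => A i j)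
    (fun i j => hA _ _) (fun i j => hs _ _)
  have hsum : ∀ i : ℕ, 0 < ∑ j : Fin (M + 1), A i j * x j := fun i =>
    Finset.sum_pos (fun j _ => mul_pos (hA _ _) (hx j)) ⟨0, mem_univ _⟩
  have hl : 0 < l := by
    have h1 := he 0
    have h2 := hsum ((0 : Fin (M + 1)) : ℕ)
    rw [h1] at h2
    exact (pos_iff_pos_of_mul_pos h2).mpr (hx 0)
  have hx' : ∀ i : Fin (M + 1), (∑ j : Fin (M + 1), A i j * x j) / (l * x 0) = x i / x 0 := by
    intro i
    rw [he i, mul_div_mul_left _ _ hl.ne']
  refine ⟨l, fun i => (∑ j : Fin (M + 1), A i j * x j) / (l * x 0), hl, ?_, ?_, ?_⟩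
  · have := hx' 0
    simp only [Fin.val_zero] at this
    beta_reduce
    rw [this, div_self (hx 0).ne']
  · intro i
    exact div_pos (hsum i) (mul_pos hl (hx 0))
  · intro i
    rw [Finset.sum_range]
    have e : ∀ j : Fin (M + 1), A i j * ((∑ k : Fin (M + 1), A j k * x k) / (l * x 0)) =
        (A i j * x j) / x 0 := fun j => by rw [hx' j]; ring
    beta_reduce
    rw [Finset.sum_congr rfl fun j _ => e j, ← Finset.sum_div]
    have hx0 := (hx 0).ne'
    have hl' := hl.ne'
    field_simp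

/-- upper bound for the iterates -/
theorem g_le_aux (M : ℕ) (r β l : ℝ) (x : ℕ → ℝ) (hx0 : x 0 = 1) (hx : ∀ i, 0 < x i)
    (he : ∀ i, ∑ j ∈ range (M + 1), K r β i j * x j = l * x i) (L i : ℕ) :
    g M r β L i ≤ l ^ L * x i := by
  induction L generalizing i with
  | zero =>
    simp only [g, pow_zero, one_mul]
    split_ifs with h
    · rw [h, hx0]
    · exact (hx i).le
  | succ L ih =>
    rw [g_succ]
    calc ∑ j ∈ range (M + 1), K r β i j * g M r β L j
        ≤ ∑ j ∈ range (M + 1), K r β i j * (l ^ L * x j) :=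
          Finset.sum_le_sum fun j _ => mul_le_mul_of_nonneg_left (ih j) (K_pos r β i j).le
      _ = l ^ L * ∑ j ∈ range (M + 1), K r β i j * x j := by
          rw [Finset.mul_sum]; exact Finset.sum_congr rfl fun j _ => by ring
      _ = l ^ (L + 1) * x i := by rw [he i]; ring

/-- lower bound for the iterates -/
theorem g_ge_aux (M : ℕ) (r β l : ℝ) (x : ℕ → ℝ) (hl : 0 < l) (hx : ∀ i, 0 < x i)
    (he : ∀ i, ∑ j ∈ range (M + 1), K r β i j * x j = l * x i) :
    ∃ c : ℝ, 0 < c ∧ ∀ L i, i ≤ M → c * l ^ (L + 1) * x i ≤ g M r β (L + 1) i := by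
  obtain ⟨i0, hi0, hmin⟩ := Finset.exists_min_image (range (M + 1))
    (fun i => g M r β 1 i / (l * x i)) ⟨0, by simp⟩
  refine ⟨g M r β 1 i0 / (l * x i0), div_pos (g_pos M r β 0 i0) (mul_pos hl (hx i0)), ?_⟩
  set c := g M r β 1 i0 / (l * x i0) with hc
  intro L
  induction L with
  | zero =>
    intro i hi
    have h := hmin i (by simpa using Nat.lt_succ_of_le hi)
    rw [le_div_iff₀ (mul_pos hl (hx i))] at h
    simpa [mul_assoc] using h
  | succ L ih =>
    intro i hi
    rw [g_succ]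
    calc c * l ^ (L + 1 + 1) * x i = ∑ j ∈ range (M + 1), K r β i j * (c * l ^ (L + 1) * x j) := by
          have : ∑ j ∈ range (M + 1), K r β i j * (c * l ^ (L + 1) * x j) =
            c * l ^ (L + 1) * ∑ j ∈ range (M + 1), K r β i j * x j := by
            rw [Finset.mul_sum]; exact Finset.sum_congr rfl fun j _ => by ring
          rw [this, he i]; ring
      _ ≤ _ := Finset.sum_le_sum fun j hj =>
          mul_le_mul_of_nonneg_left (ih j (by simpa using Nat.le_of_lt_succ (mem_range.mp hj))) (K_pos r β i j).le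

/-- contraction -/
theorem osc_aux (M : ℕ) (r β l : ℝ) (x : ℕ → ℝ) (hl : 0 < l) (hx : ∀ i, 0 < x i)
    (he : ∀ i, ∑ j ∈ range (M + 1), K r β i j * x j = l * x i) :
    ∃ (ρ C : ℝ), 0 ≤ ρ ∧ ρ < 1 ∧ ∀ L, ∃ m : ℝ, ∀ i, i ≤ M →
      m ≤ g M r β L i / (l ^ L * x i) ∧ g M r β L i / (l ^ L * x i) ≤ m + C * ρ ^ L := by
  set P : ℕ → ℕ → ℝ := fun i j => K r β i j * x j / (l * x i) with hP
  have hPpos : ∀ i j, 0 < P i j := fun i j => by
    have := K_pos r β i j
    have := hx i
    have := hx j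
    simp only [hP]; positivity
  have hPsum : ∀ i, ∑ j ∈ range (M + 1), P i j = 1 := fun i => by
    simp only [hP]
    rw [← Finset.sum_div, he i, div_self (mul_pos hl (hx i)).ne']
  obtain ⟨ij, _, hmin⟩ := Finset.exists_min_image (range (M + 1) ×ˢ range (M + 1))
    (fun ij => P ij.1 ij.2) ⟨(0, 0), by simp⟩
  set δ := P ij.1 ij.2 with hδ
  have hδpos : 0 < δ := hPpos _ _
  have hδle : ∀ i ≤ M, ∀ j ≤ M, δ ≤ P i j := fun i hi j hj =>
    hmin (i, j) (by simp; omega)
  have hρ0 : 0 ≤ 1 - (M + 1) * δ := by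
    have := Finset.card_nsmul_le_sum (range (M + 1)) (fun j => P 0 j) δ
      (fun j hj => hδle 0 (by omega) j (by simpa using Nat.le_of_lt_succ (mem_range.mp hj)))
    rw [hPsum 0] at this
    simp at this
    linarith
  have hρ1 : 1 - ((M : ℝ) + 1) * δ < 1 := by
    have : 0 < ((M : ℝ) + 1) * δ := by positivity
    linarith
  set ρ := 1 - ((M : ℝ) + 1) * δ with hρ
  set y : ℕ → ℕ → ℝ := fun L i => g M r β L i / (l ^ L * x i) with hy
  have hrec : ∀ L i, y (L + 1) i = ∑ j ∈ range (M + 1), P i j * y L j := by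
    intro L i
    simp only [hy, hP]
    rw [g_succ, Finset.sum_div]
    refine Finset.sum_congr rfl fun j _ => ?_
    have := (hx i).ne'
    have := (hx j).ne'
    have := hl.ne'
    field_simp
    ring
  obtain ⟨i1, _, hi1⟩ := Finset.exists_max_image (range (M + 1)) (fun i => |y 0 i|) ⟨0, by simp⟩
  refine ⟨ρ, 2 * |y 0 i1|, hρ0, hρ1, ?_⟩
  intro L
  induction L with
  | zero =>
    refine ⟨-|y 0 i1|, fun i hi => ?_⟩
    have h := hi1 i (by simpa using Nat.lt_succ_of_le hi)
    have h2 := abs_le.mp h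
    change -|y 0 i1| ≤ y 0 i ∧ y 0 i ≤ _
    rw [pow_zero]
    constructor <;> linarith [h2.1, h2.2]
  | succ L ih =>
    obtain ⟨m, hm⟩ := ih
    refine ⟨δ * ∑ j ∈ range (M + 1), y L j + ρ * m, fun i hi => ?_⟩
    change _ ≤ y (L + 1) i ∧ y (L + 1) i ≤ _
    have h1 : y (L + 1) i - δ * ∑ j ∈ range (M + 1), y L j =
        ∑ j ∈ range (M + 1), (P i j - δ) * y L j := by
      rw [hrec, Finset.mul_sum, ← Finset.sum_sub_distrib]
      exact Finset.sum_congr rfl fun j _ => by ring
    have h2 : ∑ j ∈ range (M + 1), (P i j - δ) = ρ := by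
      rw [Finset.sum_sub_distrib, hPsum i]; simp [hρ]
    have h3 : ρ * m ≤ ∑ j ∈ range (M + 1), (P i j - δ) * y L j := by
      rw [← h2, Finset.sum_mul]
      refine Finset.sum_le_sum fun j hj => ?_
      have hj' : j ≤ M := Nat.le_of_lt_succ (mem_range.mp hj)
      exact mul_le_mul_of_nonneg_left (hm j hj').1 (sub_nonneg.mpr (hδle i hi j hj'))
    have h4 : ∑ j ∈ range (M + 1), (P i j - δ) * y L j ≤ ρ * (m + 2 * |y 0 i1| * ρ ^ L) := by
      rw [← h2, Finset.sum_mul, h2]
      refine Finset.sum_le_sum fun j hj => ?_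
      have hj' : j ≤ M := Nat.le_of_lt_succ (mem_range.mp hj)
      exact mul_le_mul_of_nonneg_left (hm j hj').2 (sub_nonneg.mpr (hδle i hi j hj'))
    constructor
    · linarith
    · rw [pow_succ]; nlinarith [h4, h1]

/-- PF1: existence of the Perron eigenvector and convergence of the power iteration. -/
theorem perron (M : ℕ) (r β : ℝ) : ∃ (lv : ℝ × (ℕ → ℝ)), 0 < lv.1 ∧ lv.2 0 = 1 ∧ (∀ i, 0 < lv.2 i) ∧
    (∀ i, ∑ j ∈ range (M + 1), K r β i j * lv.2 j = lv.1 * lv.2 i) ∧
    (∀ i, Tendsto (fun L => g M r β L i / g M r β L 0) atTop (nhds (lv.2 i))) := by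
  obtain ⟨l, x, hl, hx0, hx, he⟩ := exists_pev M (K r β) (K_pos r β) (K_symm r β)
  refine ⟨(l, x), hl, hx0, hx, he, ?_⟩
  obtain ⟨ρ, C, hρ0, hρ1, hosc⟩ := osc_aux M r β l x hl hx he
  obtain ⟨c, hc, hlow⟩ := g_ge_aux M r β l x hl hx he
  have hfin : ∀ i, i ≤ M → Tendsto (fun L => g M r β (L + 1) i / g M r β (L + 1) 0) atTop (nhds (x i)) := by
    intro i hi
    have hpow' : Tendsto (fun L : ℕ => x i * (|C| * ρ ^ (L + 1) / c)) atTop (nhds 0) := by
      have := (tendsto_pow_atTop_nhds_zero_of_lt_one hρ0 hρ1).comp (tendsto_add_atTop_nat 1)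
      have := ((this.const_mul |C|).div_const c).const_mul (x i)
      simpa [Function.comp_def] using this
    rw [tendsto_iff_dist_tendsto_zero]
    refine squeeze_zero (fun _ => dist_nonneg) (fun L => ?_) hpow'
    obtain ⟨m, hm⟩ := hosc (L + 1)
    have h0 := hm 0 (by omega)
    have h1 := hm i hi
    have hl0 := hlow L 0 (by omega)
    rw [hx0, mul_one] at hl0 h0
    set yi := g M r β (L + 1) i / (l ^ (L + 1) * x i) with hyi
    set y0 := g M r β (L + 1) 0 / (l ^ (L + 1)) with hy0
    have hlp : 0 < l ^ (L + 1) := by positivity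
    have hy0c : c ≤ y0 := by rw [hy0, le_div_iff₀ hlp]; exact hl0
    have hgi : g M r β (L + 1) i = yi * (l ^ (L + 1) * x i) := by
      rw [hyi]; have := (hx i).ne'; field_simp
    have hg0 : g M r β (L + 1) 0 = y0 * l ^ (L + 1) := by rw [hy0]; field_simp
    have hy0pos : 0 < y0 := lt_of_lt_of_le hc hy0c
    rw [Real.dist_eq, hgi, hg0]
    have e : yi * (l ^ (L + 1) * x i) / (y0 * l ^ (L + 1)) - x i = x i * ((yi - y0) / y0) := by
      field_simp
    rw [e, abs_mul, abs_of_pos (hx i)]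
    apply mul_le_mul_of_nonneg_left _ (hx i).le
    rw [abs_div, abs_of_pos hy0pos]
    have habs : |yi - y0| ≤ |C| * ρ ^ (L + 1) := by
      have hC : C * ρ ^ (L + 1) ≤ |C| * ρ ^ (L + 1) :=
        mul_le_mul_of_nonneg_right (le_abs_self C) (by positivity)
      rw [abs_le]
      constructor <;> linarith [h0.1, h0.2, h1.1, h1.2]
    exact div_le_div₀ (by positivity) habs hc hy0c
  intro i
  rw [← tendsto_add_atTop_iff_nat 2]
  have hnum : ∀ i, Tendsto (fun L => ∑ j ∈ range (M + 1), K r β i j *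
      (g M r β (L + 1) j / g M r β (L + 1) 0)) atTop (nhds (l * x i)) := by
    intro i
    rw [← he i]
    exact tendsto_finsetSum _ fun j hj =>
      (hfin j (Nat.le_of_lt_succ (mem_range.mp hj))).const_mul _
  have hlx : l * x i / (l * x 0) = x i := by
    rw [hx0, mul_one, mul_div_cancel_left₀ _ hl.ne']
  have := (hnum i).div (hnum 0) (mul_pos hl (hx 0)).ne'
  rw [hlx] at this
  refine this.congr fun L => ?_
  have hg : ∀ i, ∑ j ∈ range (M + 1), K r β i j * (g M r β (L + 1) j / g M r β (L + 1) 0) =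
      g M r β (L + 2) i / g M r β (L + 1) 0 := by
    intro i
    rw [g_succ M r β (L + 1) i, Finset.sum_div]
    exact Finset.sum_congr rfl fun j _ => by ring
  rw [Pi.div_apply, hg i, hg 0, div_div_div_cancel_right₀ (g_pos M r β L 0).ne']

noncomputable def lam (M : ℕ) (r β : ℝ) : ℝ := (Classical.choose (perron M r β)).1
noncomputable def ev (M : ℕ) (r β : ℝ) : ℕ → ℝ := (Classical.choose (perron M r β)).2

theorem lam_pos (M : ℕ) (r β : ℝ) : 0 < lam M r β := (Classical.choose_spec (perron M r β)).1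
theorem ev_zero (M : ℕ) (r β : ℝ) : ev M r β 0 = 1 := (Classical.choose_spec (perron M r β)).2.1
theorem ev_pos (M : ℕ) (r β : ℝ) (i : ℕ) : 0 < ev M r β i :=
  (Classical.choose_spec (perron M r β)).2.2.1 i
theorem ev_eq (M : ℕ) (r β : ℝ) (i : ℕ) :
    ∑ j ∈ range (M + 1), K r β i j * ev M r β j = lam M r β * ev M r β i :=
  (Classical.choose_spec (perron M r β)).2.2.2.1 i
theorem ev_tendsto (M : ℕ) (r β : ℝ) (i : ℕ) :
    Tendsto (fun L => g M r β L i / g M r β L 0) atTop (nhds (ev M r β i)) :=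
  (Classical.choose_spec (perron M r β)).2.2.2.2 i

/-- Rayleigh bound. -/
theorem rayleigh (M : ℕ) (r β : ℝ) (x : ℕ → ℝ) :
    ∑ i ∈ range (M + 1), ∑ j ∈ range (M + 1), K r β i j * x i * x j ≤
      lam M r β * ∑ i ∈ range (M + 1), x i ^ 2 := by
  have key : ∀ i j, K r β i j * x i * x j ≤
      (K r β i j * ev M r β j) * (x i ^ 2 / ev M r β i) / 2 +
      (K r β j i * ev M r β i) * (x j ^ 2 / ev M r β j) / 2 := by
    intro i j
    have hi := ev_pos M r β i
    have hj := ev_pos M r β j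
    have hK := K_pos r β i j
    rw [K_symm r β j i]
    have e : (K r β i j * ev M r β j) * (x i ^ 2 / ev M r β i) / 2 +
      (K r β i j * ev M r β i) * (x j ^ 2 / ev M r β j) / 2 - K r β i j * x i * x j =
      K r β i j / (2 * ev M r β i * ev M r β j) * (ev M r β j * x i - ev M r β i * x j) ^ 2 := by
      field_simp
      ring
    have : 0 ≤ K r β i j / (2 * ev M r β i * ev M r β j) * (ev M r β j * x i - ev M r β i * x j) ^ 2 := by
      positivity
    linarith
  have h1 : ∑ i ∈ range (M + 1), ∑ j ∈ range (M + 1),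
      (K r β i j * ev M r β j) * (x i ^ 2 / ev M r β i) / 2 =
      lam M r β * (∑ i ∈ range (M + 1), x i ^ 2) / 2 := by
    rw [Finset.mul_sum, Finset.sum_div]
    refine Finset.sum_congr rfl fun i _ => ?_
    rw [← Finset.sum_div, ← Finset.sum_mul, ev_eq]
    have hi := (ev_pos M r β i).ne'
    field_simp
  calc ∑ i ∈ range (M + 1), ∑ j ∈ range (M + 1), K r β i j * x i * x j
      ≤ ∑ i ∈ range (M + 1), ∑ j ∈ range (M + 1), ((K r β i j * ev M r β j) * (x i ^ 2 / ev M r β i) / 2 +
      (K r β j i * ev M r β i) * (x j ^ 2 / ev M r β j) / 2) :=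
        Finset.sum_le_sum fun i _ => Finset.sum_le_sum fun j _ => key i j
    _ = lam M r β * ∑ i ∈ range (M + 1), x i ^ 2 := by
        rw [Finset.sum_congr rfl fun i _ => Finset.sum_add_distrib, Finset.sum_add_distrib, h1,
          Finset.sum_comm, h1]
        ring

/-- total weight -/
noncomputable def W (M : ℕ) (r β : ℝ) : ℝ :=
  ∑ i ∈ range (M + 1), ∑ j ∈ range (M + 1), ev M r β i * ev M r β j * K r β i j
/-- stationary mean of the local time -/
noncomputable def nn (M : ℕ) (r β : ℝ) : ℝ :=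
  (∑ i ∈ range (M + 1), ∑ j ∈ range (M + 1), ev M r β i * ev M r β j * K r β i j * ((i : ℝ) + j + 1)) / W M r β
/-- stationary second moment of the local time -/
noncomputable def hh (M : ℕ) (r β : ℝ) : ℝ :=
  (∑ i ∈ range (M + 1), ∑ j ∈ range (M + 1), ev M r β i * ev M r β j * K r β i j * ((i : ℝ) + j + 1) ^ 2) / W M r β

theorem W_eq (M : ℕ) (r β : ℝ) : W M r β = lam M r β * ∑ i ∈ range (M + 1), ev M r β i ^ 2 := by
  unfold W
  rw [Finset.mul_sum]
  refine Finset.sum_congr rfl fun i _ => ?_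
  calc ∑ j ∈ range (M + 1), ev M r β i * ev M r β j * K r β i j
      = ev M r β i * ∑ j ∈ range (M + 1), K r β i j * ev M r β j := by
        rw [Finset.mul_sum]; exact Finset.sum_congr rfl fun j _ => by ring
    _ = _ := by rw [ev_eq]; ring

theorem W_pos (M : ℕ) (r β : ℝ) : 0 < W M r β := by
  unfold W
  exact Finset.sum_pos (fun i _ => Finset.sum_pos (fun j _ =>
    mul_pos (mul_pos (ev_pos _ _ _ _) (ev_pos _ _ _ _)) (K_pos _ _ _ _)) ⟨0, by simp⟩) ⟨0, by simp⟩

/-- tilting the kernel -/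
theorem K_tilt (r β r' β' : ℝ) (i j : ℕ) :
    K r' β' i j = K r β i j *
      Real.exp ((r' - r) * ((i : ℝ) + j + 1) - (β' - β) * ((i : ℝ) + j + 1) ^ 2) := by
  unfold K
  rw [mul_assoc, ← Real.exp_add]
  congr 2
  ring

/-- tilted weights are controlled by the eigenvalue at the other parameters -/
theorem tilt_le (M : ℕ) (r β r' β' : ℝ) :
    (∑ i ∈ range (M + 1), ∑ j ∈ range (M + 1), ev M r β i * ev M r β j * K r β i j *
      Real.exp ((r' - r) * ((i : ℝ) + j + 1) - (β' - β) * ((i : ℝ) + j + 1) ^ 2)) / W M r β ≤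
      lam M r' β' / lam M r β := by
  rw [div_le_div_iff₀ (W_pos M r β) (lam_pos M r β), W_eq]
  have h := rayleigh M r' β' (ev M r β)
  have e : ∑ i ∈ range (M + 1), ∑ j ∈ range (M + 1), K r' β' i j * ev M r β i * ev M r β j =
      ∑ i ∈ range (M + 1), ∑ j ∈ range (M + 1), ev M r β i * ev M r β j * K r β i j *
      Real.exp ((r' - r) * ((i : ℝ) + j + 1) - (β' - β) * ((i : ℝ) + j + 1) ^ 2) := by
    refine Finset.sum_congr rfl fun i _ => Finset.sum_congr rfl fun j _ => ?_
    rw [K_tilt r β r' β']; ring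
  rw [e] at h
  have hl := lam_pos M r β
  nlinarith [mul_le_mul_of_nonneg_right h hl.le]

/-- P1 (Rayleigh + Jensen) -/
theorem lam_sub (M : ℕ) (r β r' β' : ℝ) :
    Real.log (lam M r β) + (r' - r) * nn M r β - (β' - β) * hh M r β ≤ Real.log (lam M r' β') := by
  have hW := W_pos M r β
  have h := tilt_le M r β r' β'
  set a := (r' - r) * nn M r β - (β' - β) * hh M r β with ha
  have hJ : Real.exp a ≤ (∑ i ∈ range (M + 1), ∑ j ∈ range (M + 1), ev M r β i * ev M r β j * K r β i j *
      Real.exp ((r' - r) * ((i : ℝ) + j + 1) - (β' - β) * ((i : ℝ) + j + 1) ^ 2)) / W M r β := by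
    rw [le_div_iff₀ hW]
    have hpt : ∀ i j : ℕ, ev M r β i * ev M r β j * K r β i j *
        (Real.exp a * (1 + ((r' - r) * ((i : ℝ) + j + 1) - (β' - β) * ((i : ℝ) + j + 1) ^ 2 - a))) ≤
        ev M r β i * ev M r β j * K r β i j *
        Real.exp ((r' - r) * ((i : ℝ) + j + 1) - (β' - β) * ((i : ℝ) + j + 1) ^ 2) := by
      intro i j
      apply mul_le_mul_of_nonneg_left _
        (mul_pos (mul_pos (ev_pos _ _ _ _) (ev_pos _ _ _ _)) (K_pos _ _ _ _)).le
      have := Real.add_one_le_exp ((r' - r) * ((i : ℝ) + j + 1) - (β' - β) * ((i : ℝ) + j + 1) ^ 2 - a)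
      calc Real.exp a * (1 + ((r' - r) * ((i : ℝ) + j + 1) - (β' - β) * ((i : ℝ) + j + 1) ^ 2 - a))
          ≤ Real.exp a * Real.exp ((r' - r) * ((i : ℝ) + j + 1) - (β' - β) * ((i : ℝ) + j + 1) ^ 2 - a) := by
            apply mul_le_mul_of_nonneg_left _ (Real.exp_pos _).le
            linarith
        _ = _ := by rw [← Real.exp_add]; ring_nf
    refine le_trans (le_of_eq ?_) (Finset.sum_le_sum fun i _ => Finset.sum_le_sum fun j _ => hpt i j)
    have e : ∀ i j : ℕ, ev M r β i * ev M r β j * K r β i j *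
        (Real.exp a * (1 + ((r' - r) * ((i : ℝ) + j + 1) - (β' - β) * ((i : ℝ) + j + 1) ^ 2 - a))) =
        Real.exp a * ((1 - a) * (ev M r β i * ev M r β j * K r β i j) +
          (r' - r) * (ev M r β i * ev M r β j * K r β i j * ((i : ℝ) + j + 1)) -
          (β' - β) * (ev M r β i * ev M r β j * K r β i j * ((i : ℝ) + j + 1) ^ 2)) := by
      intro i j; ring
    rw [Finset.sum_congr rfl fun i _ => Finset.sum_congr rfl fun j _ => e i j]
    simp only [← Finset.mul_sum, Finset.sum_sub_distrib, Finset.sum_add_distrib]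
    have hn : ∑ i ∈ range (M + 1), ∑ j ∈ range (M + 1), ev M r β i * ev M r β j * K r β i j *
        ((i : ℝ) + j + 1) = nn M r β * W M r β := by
      unfold nn; field_simp
    have hh' : ∑ i ∈ range (M + 1), ∑ j ∈ range (M + 1), ev M r β i * ev M r β j * K r β i j *
        ((i : ℝ) + j + 1) ^ 2 = hh M r β * W M r β := by
      unfold hh; field_simp
    rw [hn, hh']
    have hWd : ∑ i ∈ range (M + 1), ∑ j ∈ range (M + 1), ev M r β i * ev M r β j * K r β i j =
        W M r β := rfl
    rw [hWd, ha]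
    ring
  have h2 := hJ.trans h
  have h3 := Real.log_le_log (Real.exp_pos _) h2
  rw [Real.log_exp, Real.log_div (lam_pos _ _ _).ne' (lam_pos _ _ _).ne'] at h3
  linarith

/-- P2 -/
theorem one_le_nn (M : ℕ) (r β : ℝ) : 1 ≤ nn M r β := by
  unfold nn
  rw [le_div_iff₀ (W_pos M r β), one_mul]
  unfold W
  refine Finset.sum_le_sum fun i _ => Finset.sum_le_sum fun j _ => ?_
  have h := (mul_pos (mul_pos (ev_pos M r β i) (ev_pos M r β j)) (K_pos r β i j)).le
  have : (1 : ℝ) ≤ (i : ℝ) + j + 1 := by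
    have := Nat.cast_nonneg (α := ℝ) i
    have := Nat.cast_nonneg (α := ℝ) j
    linarith
  nlinarith

/-- exponential moments: used for P4 -/
theorem exp_moment (M : ℕ) (r β s : ℝ) :
    (∑ i ∈ range (M + 1), ∑ j ∈ range (M + 1), ev M r β i * ev M r β j * K r β i j *
      Real.exp (s * ((i : ℝ) + j + 1))) / W M r β ≤ lam M (r + s) β / lam M r β := by
  have h := tilt_le M r β (r + s) β
  simpa using h

/-- P5 -/
theorem lam_mono (M : ℕ) (r β : ℝ) : lam M r β ≤ lam (M + 1) r β := by
  set x : ℕ → ℝ := fun i => if i ≤ M then ev M r β i else 0 with hx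
  have h := rayleigh (M + 1) r β x
  have hxM : x (M + 1) = 0 := by simp [hx]
  have hx1 : ∀ i ∈ range (M + 1), x i = ev M r β i := fun i hi => by
    have : i ≤ M := Nat.le_of_lt_succ (mem_range.mp hi)
    simp [hx, this]
  have hs : 0 < ∑ i ∈ range (M + 1), ev M r β i ^ 2 :=
    Finset.sum_pos (fun i _ => by have := ev_pos M r β i; positivity) ⟨0, by simp⟩
  have e1 : ∑ i ∈ range (M + 1 + 1), ∑ j ∈ range (M + 1 + 1), K r β i j * x i * x j = W M r β := by
    rw [Finset.sum_range_succ, hxM]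
    simp only [mul_zero, zero_mul, Finset.sum_const_zero, add_zero]
    unfold W
    refine Finset.sum_congr rfl fun i hi => ?_
    rw [Finset.sum_range_succ, hxM, mul_zero, add_zero]
    refine Finset.sum_congr rfl fun j hj => ?_
    rw [hx1 i hi, hx1 j hj]; ring
  have e2 : ∑ i ∈ range (M + 1 + 1), x i ^ 2 = ∑ i ∈ range (M + 1), ev M r β i ^ 2 := by
    rw [Finset.sum_range_succ, hxM]
    simp only [ne_eq, OfNat.ofNat_ne_zero, not_false_eq_true, zero_pow, add_zero]
    exact Finset.sum_congr rfl fun i hi => by rw [hx1 i hi]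
  rw [e1, e2, W_eq] at h
  exact le_of_mul_le_mul_right h hs

/-- P6 -/
theorem lam_bdd (r β : ℝ) (hβ : 0 < β) : ∃ C, ∀ M, lam M r β ≤ C := by
  set c0 := (r + 2 * Real.log 2) ^ 2 / (4 * β) with hc0
  have hK : ∀ i j : ℕ, K r β i j ≤ Real.exp c0 * (1 / 2) ^ j := by
    intro i j
    have h1 : ((i + j).choose i : ℝ) ≤ Real.exp (Real.log 2 * ((i : ℝ) + j)) := by
      have : (i + j).choose i ≤ 2 ^ (i + j) := Nat.choose_le_two_pow (i + j) i
      have h2 : ((i + j).choose i : ℝ) ≤ 2 ^ (i + j) := by exact_mod_cast this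
      have e : Real.exp (Real.log 2 * ((i : ℝ) + j)) = 2 ^ (i + j) := by
        rw [mul_comm, show ((i : ℝ) + j) = ((i + j : ℕ) : ℝ) by push_cast; ring, Real.exp_nat_mul,
          Real.exp_log (by norm_num)]
      rw [e]; exact h2
    have h2 : ((1 : ℝ) / 2) ^ j = Real.exp (-(Real.log 2 * j)) := by
      rw [Real.exp_neg, mul_comm, Real.exp_nat_mul, Real.exp_log (by norm_num)]
      simp
    unfold K
    rw [h2, ← Real.exp_add]
    calc _ ≤ Real.exp (Real.log 2 * ((i : ℝ) + j)) *
          Real.exp (r * ((i : ℝ) + j + 1) - β * ((i : ℝ) + j + 1) ^ 2) :=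
          mul_le_mul_of_nonneg_right h1 (Real.exp_pos _).le
      _ = Real.exp (Real.log 2 * ((i : ℝ) + j) + (r * ((i : ℝ) + j + 1) - β * ((i : ℝ) + j + 1) ^ 2)) := by
          rw [Real.exp_add]
      _ ≤ _ := by
          apply Real.exp_le_exp.mpr
          have hlog : 0 < Real.log 2 := Real.log_pos (by norm_num)
          have hi := Nat.cast_nonneg (α := ℝ) i
          have hj := Nat.cast_nonneg (α := ℝ) j
          set ℓ := (i : ℝ) + j + 1 with hℓ
          have h3 : (r + 2 * Real.log 2) * ℓ - β * ℓ ^ 2 ≤ c0 := by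
            rw [hc0, le_div_iff₀ (by positivity)]
            nlinarith [sq_nonneg (r + 2 * Real.log 2 - 2 * β * ℓ)]
          have h4 : Real.log 2 * ((i : ℝ) + j) ≤ Real.log 2 * ℓ := by
            apply mul_le_mul_of_nonneg_left _ hlog.le; linarith
          have h5 : Real.log 2 * (j : ℝ) ≤ Real.log 2 * ℓ := by
            apply mul_le_mul_of_nonneg_left _ hlog.le; linarith
          linarith
  refine ⟨Real.exp c0 * 2, fun M => ?_⟩
  have hrow : ∀ i, ∑ j ∈ range (M + 1), K r β i j ≤ Real.exp c0 * 2 := by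
    intro i
    calc ∑ j ∈ range (M + 1), K r β i j ≤ ∑ j ∈ range (M + 1), Real.exp c0 * (1 / 2) ^ j :=
          Finset.sum_le_sum fun j _ => hK i j
      _ = Real.exp c0 * ∑ j ∈ range (M + 1), (1 / 2 : ℝ) ^ j := by rw [Finset.mul_sum]
      _ ≤ Real.exp c0 * 2 := by
          apply mul_le_mul_of_nonneg_left _ (Real.exp_pos _).le
          exact sum_geometric_two_le (M + 1)
  have hs : 0 < ∑ i ∈ range (M + 1), ev M r β i ^ 2 :=
    Finset.sum_pos (fun i _ => by have := ev_pos M r β i; positivity) ⟨0, by simp⟩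
  have hW := W_eq M r β
  have hle : W M r β ≤ Real.exp c0 * 2 * ∑ i ∈ range (M + 1), ev M r β i ^ 2 := by
    have h1 : W M r β ≤ ∑ i ∈ range (M + 1), ∑ j ∈ range (M + 1),
        (K r β i j * ev M r β i ^ 2 / 2 + K r β j i * ev M r β j ^ 2 / 2) := by
      unfold W
      refine Finset.sum_le_sum fun i _ => Finset.sum_le_sum fun j _ => ?_
      rw [K_symm r β j i]
      have hk := K_pos r β i j
      nlinarith [mul_nonneg hk.le (sq_nonneg (ev M r β i - ev M r β j))]
    have h2 : ∑ i ∈ range (M + 1), ∑ j ∈ range (M + 1), K r β i j * ev M r β i ^ 2 / 2 ≤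
        Real.exp c0 * 2 * (∑ i ∈ range (M + 1), ev M r β i ^ 2) / 2 := by
      rw [Finset.mul_sum, Finset.sum_div]
      refine Finset.sum_le_sum fun i _ => ?_
      rw [← Finset.sum_div, ← Finset.sum_mul]
      have := mul_le_mul_of_nonneg_right (hrow i) (sq_nonneg (ev M r β i))
      linarith
    rw [Finset.sum_congr rfl fun i _ => Finset.sum_add_distrib, Finset.sum_add_distrib] at h1
    rw [Finset.sum_comm (f := fun i j => K r β j i * ev M r β j ^ 2 / 2)] at h1
    linarith
  rw [hW] at hle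
  exact le_of_mul_le_mul_right hle hs

/-- P8 -/
theorem g_le_lam (M : ℕ) (r β : ℝ) (L : ℕ) : g M r β (L + 1) 0 ≤ lam M r β ^ (L + 1) := by
  have h := g_le_aux M r β (lam M r β) (ev M r β) (ev_zero M r β) (ev_pos M r β) (ev_eq M r β) (L + 1) 0
  rwa [ev_zero, mul_one] at h

/-- P7 -/
theorem lam_ge (M : ℕ) (r β : ℝ) : Real.exp (r - β) ≤ lam M r β := by
  have h := g_le_lam M r β 0
  rw [zero_add, g_one, pow_one] at h
  have e : K r β 0 0 = Real.exp (r - β) := by unfold K; simp
  rwa [e] at h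

/-- P9 -/
theorem lam_le_g (M : ℕ) (r β : ℝ) : ∃ c : ℝ, 0 < c ∧ ∀ L : ℕ, c * lam M r β ^ (L + 1) ≤ g M r β (L + 1) 0 := by
  obtain ⟨c, hc, h⟩ := g_ge_aux M r β (lam M r β) (ev M r β) (lam_pos M r β) (ev_pos M r β) (ev_eq M r β)
  refine ⟨c, hc, fun L => ?_⟩
  have := h L 0 (by omega)
  rwa [ev_zero, mul_one] at this

end Pool.Agent.MP_55179a_pr
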