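import Pool.Agent.Lib.MP_55179a_pr.MLR1
import Pool.Agent.Lib.MP_55179a_pr.Core8
import Pool.Agent.Lib.MP_55179a_pr.PF

/-!
Consequences for the Perron eigenvector: monotonicity of `hh / nn` in `r` and Lipschitz bound for `nn`.
-/

set_option autoImplicit false

namespace Pool.Agent.MP_55179a_pr

open Finset Filter

theorem exp_rt (M : ℕ) (β : ℝ) (L i : ℕ) (r : ℝ) :
    Real.exp (rt M β L i r) = Real.exp r * (g M r β (L + 1) (i + 1) / g M r β (L + 1) i) := by
  unfold rt
  rw [Real.exp_sub, Real.exp_add, Real.exp_log (g_pos _ _ _ _ _), Real.exp_log (g_pos _ _ _ _ _)]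
  ring

theorem ratio_tendsto (M : ℕ) (r β : ℝ) (i : ℕ) :
    Tendsto (fun L => Real.exp (rt M β L i r)) atTop
      (nhds (Real.exp r * (ev M r β (i + 1) / ev M r β i))) := by
  have h1 := (ev_tendsto M r β (i + 1)).comp (tendsto_add_atTop_nat 1)
  have h2 := (ev_tendsto M r β i).comp (tendsto_add_atTop_nat 1)
  have h3 := (h1.div h2 (ev_pos M r β i).ne').const_mul (Real.exp r)
  refine h3.congr fun L => ?_
  simp only [Function.comp, Pi.div_apply]
  rw [exp_rt]
  have h0 := (g_pos M r β L 0).ne'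
  have hi := (g_pos M r β L i).ne'
  field_simp

/-- tilted eigenvector ratio -/
noncomputable def er (M : ℕ) (β : ℝ) (i : ℕ) (r : ℝ) : ℝ := Real.exp r * (ev M r β (i + 1) / ev M r β i)

theorem er_pos (M : ℕ) (β : ℝ) (i : ℕ) (r : ℝ) : 0 < er M β i r := by
  unfold er
  have h1 := ev_pos M r β i
  have h2 := ev_pos M r β (i + 1)
  positivity

theorem er_mono (M : ℕ) (β : ℝ) (hβ : 0 < β) (i : ℕ) : Monotone (er M β i) := by
  intro r r' h
  refine le_of_tendsto_of_tendsto' (ratio_tendsto M r β i) (ratio_tendsto M r' β i) fun L => ?_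
  exact Real.exp_le_exp.2 (rt_mono M β hβ L i h)

/-- the constant -/
noncomputable def c2 (β : ℝ) : ℝ := 2 / (1 - pp β)

theorem c2_pos {β : ℝ} (hβ : 0 < β) : 0 < c2 β := by
  unfold c2; have := pp_lt_one hβ; exact div_pos two_pos (by linarith)

theorem er_lip (M : ℕ) (β : ℝ) (hβ : 0 < β) (i : ℕ) (r r' : ℝ) (h : r ≤ r') :
    er M β i r' ≤ Real.exp (c2 β * (r' - r)) * er M β i r := by
  refine le_of_tendsto_of_tendsto' (ratio_tendsto M r' β i)
    ((ratio_tendsto M r β i).const_mul _) fun L => ?_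
  rw [← Real.exp_add]
  apply Real.exp_le_exp.2
  have := rt_lip M β hβ L i r r' h
  unfold c2
  linarith

theorem ev_lc (M : ℕ) (r β : ℝ) (hβ : 0 < β) (i : ℕ) :
    ev M r β i * ev M r β (i + 2) ≤ ev M r β (i + 1) ^ 2 := by
  have h0 := (ev_tendsto M r β i).comp (tendsto_add_atTop_nat 1)
  have h1 := (ev_tendsto M r β (i + 1)).comp (tendsto_add_atTop_nat 1)
  have h2 := (ev_tendsto M r β (i + 2)).comp (tendsto_add_atTop_nat 1)
  refine le_of_tendsto_of_tendsto' (h0.mul h2) (h1.pow 2) fun L => ?_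
  simp only [Function.comp]
  have hp := g_pos M r β L 0
  rw [div_mul_div_comm, div_pow, ← sq]
  exact div_le_div_of_nonneg_right (g_lc M r β hβ L i) (by positivity)

/-- tilted eigenvector divided by factorials, cut off at `M` -/
noncomputable def hw (M : ℕ) (β r : ℝ) (i : ℕ) : ℝ :=
  if i ≤ M then Real.exp (r * i) * ev M r β i / (i.factorial : ℝ) else 0

theorem hw_pos (M : ℕ) (β r : ℝ) (i : ℕ) (h : i ≤ M) : 0 < hw M β r i := by
  rw [hw, if_pos h]
  have := ev_pos M r β i
  positivity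

theorem hw_zero (M : ℕ) (β r : ℝ) (i : ℕ) (h : M < i) : hw M β r i = 0 := by
  rw [hw, if_neg (by omega)]

theorem hw_succ (M : ℕ) (β r : ℝ) (i : ℕ) (h : i + 1 ≤ M) :
    hw M β r (i + 1) * ((i : ℝ) + 1) = hw M β r i * er M β i r := by
  rw [hw, hw, if_pos h, if_pos (by omega), er, Nat.factorial_succ]
  have h1 := ev_pos M r β i
  have h2 : (0 : ℝ) < (i.factorial : ℝ) := by exact_mod_cast i.factorial_pos
  push_cast
  have he : Real.exp (r * ((i : ℝ) + 1)) = Real.exp (r * i) * Real.exp r := by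
    rw [← Real.exp_add]; congr 1; ring
  rw [he]
  have h3 : (0 : ℝ) < (i : ℝ) + 1 := by positivity
  field_simp

theorem er_anti (M : ℕ) (β r : ℝ) (hβ : 0 < β) (i : ℕ) : er M β (i + 1) r ≤ er M β i r := by
  unfold er
  have h := ev_lc M r β hβ i
  have p0 := ev_pos M r β i
  have p1 := ev_pos M r β (i + 1)
  refine mul_le_mul_of_nonneg_left ?_ (Real.exp_pos _).le
  rw [div_le_div_iff₀ p1 p0]
  show ev M r β (i + 2) * ev M r β i ≤ _
  nlinarith

theorem hw_lc (M : ℕ) (β r : ℝ) (hβ : 0 < β) (x y : ℕ) (hxy : x ≤ y) :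
    hw M β r x * hw M β r (y + 1) ≤ hw M β r (x + 1) * hw M β r y := by
  rcases le_or_gt (y + 1) M with hy | hy
  · have h1 := hw_succ M β r x (by omega)
    have h2 := hw_succ M β r y hy
    have hanti : er M β y r ≤ er M β x r := by
      obtain ⟨d, rfl⟩ := Nat.exists_eq_add_of_le hxy
      clear hxy h1 h2 hy
      induction d with
      | zero => simp
      | succ d ih => exact (er_anti M β r hβ (x + d)).trans ih
    have px := hw_pos M β r x (by omega)
    have py := hw_pos M β r y (by omega)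
    have hx0 : (0 : ℝ) < (x : ℝ) + 1 := by positivity
    have hy0 : (0 : ℝ) < (y : ℝ) + 1 := by positivity
    have hxy' : (x : ℝ) ≤ y := by exact_mod_cast hxy
    have e1 : hw M β r (x + 1) = hw M β r x * er M β x r / ((x : ℝ) + 1) := by
      rw [eq_div_iff hx0.ne', h1]
    have e2 : hw M β r (y + 1) = hw M β r y * er M β y r / ((y : ℝ) + 1) := by
      rw [eq_div_iff hy0.ne', h2]
    rw [e1, e2]
    have h3 : er M β y r / ((y : ℝ) + 1) ≤ er M β x r / ((x : ℝ) + 1) :=
      div_le_div₀ (er_pos M β x r).le hanti hx0 (by linarith)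
    have h4 := mul_le_mul_of_nonneg_left h3 (mul_nonneg px.le py.le)
    calc hw M β r x * (hw M β r y * er M β y r / ((y : ℝ) + 1))
        = hw M β r x * hw M β r y * (er M β y r / ((y : ℝ) + 1)) := by ring
      _ ≤ hw M β r x * hw M β r y * (er M β x r / ((x : ℝ) + 1)) := h4
      _ = _ := by ring
  · rw [hw_zero M β r (y + 1) hy, mul_zero]
    have h1 : ∀ z, 0 ≤ hw M β r z := fun z => by
      rcases le_or_gt z M with h | h
      · exact (hw_pos M β r z h).le
      · rw [hw_zero M β r z h]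
    exact mul_nonneg (h1 _) (h1 _)

theorem hw_mlr (M : ℕ) (β r r' : ℝ) (hβ : 0 < β) (hr : r ≤ r') (x y : ℕ) (hxy : x ≤ y) (hy : y ≤ M) :
    hw M β r' x * hw M β r y ≤ hw M β r' y * hw M β r x := by
  refine ratio_chain M (hw M β r) (hw M β r') (hw_pos M β r) (hw_pos M β r') ?_ x y hxy hy
  intro s hs
  have h1 := hw_succ M β r s hs
  have h2 := hw_succ M β r' s hs
  have hs0 : (0 : ℝ) < (s : ℝ) + 1 := by positivity
  have p1 := hw_pos M β r s (by omega)
  have p2 := hw_pos M β r' s (by omega)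
  have h3 := er_mono M β hβ s hr
  have e1 : hw M β r (s + 1) = hw M β r s * er M β s r / ((s : ℝ) + 1) := by
    rw [eq_div_iff hs0.ne', h1]
  have e2 : hw M β r' (s + 1) = hw M β r' s * er M β s r' / ((s : ℝ) + 1) := by
    rw [eq_div_iff hs0.ne', h2]
  rw [e1, e2]
  have h4 := mul_le_mul_of_nonneg_left h3 (mul_nonneg p1.le p2.le)
  have h5 := div_le_div_of_nonneg_right h4 hs0.le
  calc hw M β r' s * (hw M β r s * er M β s r / ((s : ℝ) + 1))
      = hw M β r s * hw M β r' s * er M β s r / ((s : ℝ) + 1) := by ring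
    _ ≤ hw M β r s * hw M β r' s * er M β s r' / ((s : ℝ) + 1) := h5
    _ = _ := by ring

/-- the site weight -/
noncomputable def cs (β : ℝ) (s : ℕ) : ℝ := (s.factorial : ℝ) * Real.exp (-β * ((s : ℝ) + 1) ^ 2)

theorem cs_pos (β : ℝ) (s : ℕ) : 0 < cs β s := by unfold cs; positivity

theorem ev_K (M : ℕ) (r β : ℝ) (i j : ℕ) (hi : i ≤ M) (hj : j ≤ M) :
    ev M r β i * ev M r β j * K r β i j =
      Real.exp r * (hw M β r i * hw M β r j * cs β (i + j)) := by
  rw [hw, hw, if_pos hi, if_pos hj, cs, K]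
  have h1 : ((i + j).choose i : ℝ) * (i.factorial : ℝ) * (j.factorial : ℝ) = ((i + j).factorial : ℝ) := by
    have := Nat.add_choose_mul_factorial_mul_factorial i j
    rw [← Nat.choose_symm_add] at this
    exact_mod_cast this
  have hi0 : (0 : ℝ) < (i.factorial : ℝ) := by exact_mod_cast i.factorial_pos
  have hj0 : (0 : ℝ) < (j.factorial : ℝ) := by exact_mod_cast j.factorial_pos
  rw [← h1]
  have h2 : Real.exp (r * ((i : ℝ) + j + 1) - β * ((i : ℝ) + j + 1) ^ 2) =
      Real.exp r * (Real.exp (r * i) * Real.exp (r * j) * Real.exp (-β * (((i + j : ℕ) : ℝ) + 1) ^ 2)) := by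
    rw [← Real.exp_add, ← Real.exp_add, ← Real.exp_add]; congr 1; push_cast; ring
  rw [h2]
  field_simp

theorem sum_ev_K (M : ℕ) (r β : ℝ) (G : ℕ → ℝ) :
    ∑ i ∈ range (M + 1), ∑ j ∈ range (M + 1), ev M r β i * ev M r β j * K r β i j * G (i + j) =
    Real.exp r * ∑ i ∈ range (M + 1), ∑ j ∈ range (M + 1),
      hw M β r i * hw M β r j * (cs β (i + j) * G (i + j)) := by
  rw [mul_sum]
  refine sum_congr rfl fun i hi => ?_
  rw [mul_sum]
  refine sum_congr rfl fun j hj => ?_
  rw [ev_K M r β i j (by have := mem_range.1 hi; omega) (by have := mem_range.1 hj; omega)]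
  ring

/-- P3 -/
theorem hh_nn_mono (M : ℕ) (r r' β : ℝ) (hβ : 0 < β) (hr : r ≤ r') :
    hh M r β * nn M r' β ≤ hh M r' β * nn M r β := by
  have hk := mlr_key M (hw M β r) (hw M β r') (cs β) (cs_pos β) (hw_pos M β r) (hw_zero M β r)
    (hw_pos M β r') (hw_zero M β r') (fun x y h => hw_lc M β r hβ x y h)
    (fun x y h => hw_lc M β r' hβ x y h) (fun x y h h' => hw_mlr M β r r' hβ hr x y h h')
  have e1 : ∀ r, ∑ i ∈ range (M + 1), ∑ j ∈ range (M + 1), ev M r β i * ev M r β j * K r β i j *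
      ((i : ℝ) + j + 1) = Real.exp r * ∑ i ∈ range (M + 1), ∑ j ∈ range (M + 1),
      hw M β r i * hw M β r j * (cs β (i + j) * (((i + j : ℕ) : ℝ) + 1)) := by
    intro r
    rw [← sum_ev_K M r β (fun s => (s : ℝ) + 1)]
    refine sum_congr rfl fun i _ => sum_congr rfl fun j _ => ?_
    push_cast; ring
  have e2 : ∀ r, ∑ i ∈ range (M + 1), ∑ j ∈ range (M + 1), ev M r β i * ev M r β j * K r β i j *
      ((i : ℝ) + j + 1) ^ 2 = Real.exp r * ∑ i ∈ range (M + 1), ∑ j ∈ range (M + 1),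
      hw M β r i * hw M β r j * (cs β (i + j) * (((i + j : ℕ) : ℝ) + 1) ^ 2) := by
    intro r
    rw [← sum_ev_K M r β (fun s => ((s : ℝ) + 1) ^ 2)]
    refine sum_congr rfl fun i _ => sum_congr rfl fun j _ => ?_
    push_cast; ring
  unfold hh nn
  rw [div_mul_div_comm, div_mul_div_comm, mul_comm (W M r' β) (W M r β)]
  refine div_le_div_of_nonneg_right ?_ (mul_pos (W_pos _ _ _) (W_pos _ _ _)).le
  rw [e1, e1, e2, e2]
  have h := mul_le_mul_of_nonneg_left hk (mul_pos (Real.exp_pos r) (Real.exp_pos r')).le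
  linarith

end Pool.Agent.MP_55179a_pr
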