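import Pool.Agent.Lib.MP_55179a_pr.MLR2

/-!
Lipschitz bound for `nn` in `r`, uniformly in `M`.
-/

set_option autoImplicit false

namespace Pool.Agent.MP_55179a_pr

open Finset Filter

theorem hw_at_zero (M : ℕ) (β r : ℝ) : hw M β r 0 = 1 := by
  rw [hw, if_pos (Nat.zero_le _), ev_zero]; simp

theorem hw_nonneg (M : ℕ) (β r : ℝ) (i : ℕ) : 0 ≤ hw M β r i := by
  rcases le_or_gt i M with h | h
  · exact (hw_pos M β r i h).le
  · rw [hw_zero M β r i h]

theorem hw_ge (M : ℕ) (β r r' : ℝ) (hβ : 0 < β) (hr : r ≤ r') (i : ℕ) (hi : i ≤ M) :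
    hw M β r i ≤ hw M β r' i := by
  induction i with
  | zero => rw [hw_at_zero, hw_at_zero]
  | succ i ih =>
    have h1 := hw_succ M β r i hi
    have h2 := hw_succ M β r' i hi
    have h3 := ih (by omega)
    have h4 := er_mono M β hβ i hr
    have h5 := mul_le_mul h3 h4 (er_pos M β i r).le (hw_nonneg M β r' i)
    rw [← h1, ← h2] at h5
    exact le_of_mul_le_mul_right h5 (by positivity)

theorem hw_le (M : ℕ) (β r r' : ℝ) (hβ : 0 < β) (hr : r ≤ r') (i : ℕ) (hi : i ≤ M) :
    hw M β r' i ≤ Real.exp (c2 β * (r' - r) * i) * hw M β r i := by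
  induction i with
  | zero => rw [hw_at_zero, hw_at_zero]; simp
  | succ i ih =>
    have h1 := hw_succ M β r i hi
    have h2 := hw_succ M β r' i hi
    have h3 := ih (by omega)
    have h4 := er_lip M β hβ i r r' hr
    have h5 := mul_le_mul h3 h4 (er_pos M β i r').le
      (mul_nonneg (Real.exp_pos _).le (hw_nonneg M β r i))
    have h6 : hw M β r' (i + 1) * ((i : ℝ) + 1) ≤
        (Real.exp (c2 β * (r' - r) * ((i + 1 : ℕ) : ℝ)) * hw M β r (i + 1)) * ((i : ℝ) + 1) := by
      rw [h2]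
      refine h5.trans (le_of_eq ?_)
      have e : Real.exp (c2 β * (r' - r) * ((i + 1 : ℕ) : ℝ)) =
          Real.exp (c2 β * (r' - r) * i) * Real.exp (c2 β * (r' - r)) := by
        rw [← Real.exp_add]; congr 1; push_cast; ring
      rw [e, mul_assoc (Real.exp (c2 β * (r' - r) * i) * Real.exp (c2 β * (r' - r))), h1]
      ring
    exact le_of_mul_le_mul_right h6 (by positivity)

theorem elem_bound (x δ : ℝ) (hx : 0 ≤ x) (hδ : 0 ≤ δ) :
    x * (Real.exp (δ * x) - 1) ≤ 2 * δ * Real.exp ((δ + 1) * x) := by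
  have h1 : Real.exp (δ * x) - 1 ≤ δ * x * Real.exp (δ * x) := by
    have h := Real.add_one_le_exp (-(δ * x))
    have hp := Real.exp_pos (δ * x)
    have h2 := mul_le_mul_of_nonneg_right h hp.le
    rw [← Real.exp_add] at h2
    simp only [neg_add_cancel, Real.exp_zero] at h2
    linarith
  have h3 : x ^ 2 ≤ 2 * Real.exp x := by
    have := Real.quadratic_le_exp_of_nonneg hx
    nlinarith
  have h4 : Real.exp ((δ + 1) * x) = Real.exp (δ * x) * Real.exp x := by
    rw [← Real.exp_add]; congr 1; ring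
  rw [h4]
  have hp := Real.exp_pos (δ * x)
  calc x * (Real.exp (δ * x) - 1) ≤ x * (δ * x * Real.exp (δ * x)) := mul_le_mul_of_nonneg_left h1 hx
    _ = δ * Real.exp (δ * x) * x ^ 2 := by ring
    _ ≤ δ * Real.exp (δ * x) * (2 * Real.exp x) := mul_le_mul_of_nonneg_left h3 (by positivity)
    _ = _ := by ring

/-- P4 -/
theorem nn_lip (M : ℕ) (r r' β : ℝ) (hβ : 0 < β) (hr : r ≤ r') :
    nn M r' β - nn M r β ≤
      2 * (c2 β * (r' - r)) * (lam M (r + (c2 β * (r' - r) + 1)) β / lam M r β) := by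
  have hc2 := c2_pos hβ
  set δ := c2 β * (r' - r) with hδ
  have hδ0 : 0 ≤ δ := mul_nonneg hc2.le (by linarith)
  have hW := W_pos M r β
  have hW' := W_pos M r' β
  -- W in terms of hw
  have eW : ∀ r, W M r β = Real.exp r * ∑ i ∈ range (M + 1), ∑ j ∈ range (M + 1),
      hw M β r i * hw M β r j * cs β (i + j) := by
    intro r
    have := sum_ev_K M r β (fun _ => 1)
    simp only [mul_one] at this
    unfold W
    rw [this]
  have eN : ∀ r, ∑ i ∈ range (M + 1), ∑ j ∈ range (M + 1), ev M r β i * ev M r β j * K r β i j *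
      ((i : ℝ) + j + 1) = Real.exp r * ∑ i ∈ range (M + 1), ∑ j ∈ range (M + 1),
      hw M β r i * hw M β r j * (cs β (i + j) * (((i + j : ℕ) : ℝ) + 1)) := by
    intro r
    rw [← sum_ev_K M r β (fun s => (s : ℝ) + 1)]
    refine sum_congr rfl fun i _ => sum_congr rfl fun j _ => ?_
    push_cast; ring
  set A := ∑ i ∈ range (M + 1), ∑ j ∈ range (M + 1), hw M β r i * hw M β r j * cs β (i + j) with hA
  set A' := ∑ i ∈ range (M + 1), ∑ j ∈ range (M + 1), hw M β r' i * hw M β r' j * cs β (i + j) with hA'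
  set B := ∑ i ∈ range (M + 1), ∑ j ∈ range (M + 1),
      hw M β r i * hw M β r j * (cs β (i + j) * (((i + j : ℕ) : ℝ) + 1)) with hB
  set B' := ∑ i ∈ range (M + 1), ∑ j ∈ range (M + 1),
      hw M β r' i * hw M β r' j * (cs β (i + j) * (((i + j : ℕ) : ℝ) + 1)) with hB'
  have hAA' : A ≤ A' := by
    refine sum_le_sum fun i hi => sum_le_sum fun j hj => ?_
    have hi' : i ≤ M := by have := mem_range.1 hi; omega
    have hj' : j ≤ M := by have := mem_range.1 hj; omega
    refine mul_le_mul_of_nonneg_right ?_ (cs_pos β _).le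
    exact mul_le_mul (hw_ge M β r r' hβ hr i hi') (hw_ge M β r r' hβ hr j hj')
      (hw_nonneg _ _ _ _) (hw_nonneg _ _ _ _)
  have hApos : 0 < A := by
    have h1 := eW r
    rw [h1] at hW
    exact pos_of_mul_pos_right hW (Real.exp_pos r).le
  have hA'pos : 0 < A' := hApos.trans_le hAA'
  have hB'le : B' ≤ ∑ i ∈ range (M + 1), ∑ j ∈ range (M + 1),
      hw M β r i * hw M β r j * (cs β (i + j) * ((((i + j : ℕ) : ℝ) + 1) *
        Real.exp (δ * (((i + j : ℕ) : ℝ) + 1)))) := by
    refine sum_le_sum fun i hi => sum_le_sum fun j hj => ?_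
    have hi' : i ≤ M := by have := mem_range.1 hi; omega
    have hj' : j ≤ M := by have := mem_range.1 hj; omega
    have h1 := hw_le M β r r' hβ hr i hi'
    have h2 := hw_le M β r r' hβ hr j hj'
    rw [← hδ] at h1 h2
    have h3 := mul_le_mul h1 h2 (hw_nonneg _ _ _ _)
      (mul_nonneg (Real.exp_pos _).le (hw_nonneg _ _ _ _))
    have h4 : Real.exp (δ * i) * hw M β r i * (Real.exp (δ * j) * hw M β r j) ≤
        hw M β r i * hw M β r j * Real.exp (δ * (((i + j : ℕ) : ℝ) + 1)) := by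
      have e : Real.exp (δ * i) * hw M β r i * (Real.exp (δ * j) * hw M β r j) =
          hw M β r i * hw M β r j * Real.exp (δ * (((i + j : ℕ) : ℝ))) := by
        have : Real.exp (δ * (((i + j : ℕ) : ℝ))) = Real.exp (δ * i) * Real.exp (δ * j) := by
          rw [← Real.exp_add]; congr 1; push_cast; ring
        rw [this]; ring
      rw [e]
      refine mul_le_mul_of_nonneg_left ?_ (mul_nonneg (hw_nonneg _ _ _ _) (hw_nonneg _ _ _ _))
      apply Real.exp_le_exp.2
      nlinarith
    have hc : 0 ≤ cs β (i + j) * (((i + j : ℕ) : ℝ) + 1) :=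
      mul_nonneg (cs_pos β _).le (by positivity)
    calc hw M β r' i * hw M β r' j * (cs β (i + j) * (((i + j : ℕ) : ℝ) + 1))
        ≤ (hw M β r i * hw M β r j * Real.exp (δ * (((i + j : ℕ) : ℝ) + 1))) *
          (cs β (i + j) * (((i + j : ℕ) : ℝ) + 1)) :=
          mul_le_mul_of_nonneg_right (h3.trans h4) hc
      _ = _ := by ring
  -- exponential moment
  have hexp := exp_moment M r β (δ + 1)
  have eE : ∑ i ∈ range (M + 1), ∑ j ∈ range (M + 1), ev M r β i * ev M r β j * K r β i j *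
      Real.exp ((δ + 1) * ((i : ℝ) + j + 1)) = Real.exp r * ∑ i ∈ range (M + 1), ∑ j ∈ range (M + 1),
      hw M β r i * hw M β r j * (cs β (i + j) * Real.exp ((δ + 1) * (((i + j : ℕ) : ℝ) + 1))) := by
    rw [← sum_ev_K M r β (fun s => Real.exp ((δ + 1) * ((s : ℝ) + 1)))]
    refine sum_congr rfl fun i _ => sum_congr rfl fun j _ => ?_
    push_cast; rfl
  set E := ∑ i ∈ range (M + 1), ∑ j ∈ range (M + 1),
      hw M β r i * hw M β r j * (cs β (i + j) * Real.exp ((δ + 1) * (((i + j : ℕ) : ℝ) + 1))) with hE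
  rw [eE, eW r, mul_div_mul_left _ _ (Real.exp_pos r).ne'] at hexp
  have hdiff : B' - B ≤ 2 * δ * E := by
    have h1 : B' - B ≤ ∑ i ∈ range (M + 1), ∑ j ∈ range (M + 1),
      hw M β r i * hw M β r j * (cs β (i + j) * ((((i + j : ℕ) : ℝ) + 1) *
        (Real.exp (δ * (((i + j : ℕ) : ℝ) + 1)) - 1))) := by
      have e : ∑ i ∈ range (M + 1), ∑ j ∈ range (M + 1),
        hw M β r i * hw M β r j * (cs β (i + j) * ((((i + j : ℕ) : ℝ) + 1) *
        (Real.exp (δ * (((i + j : ℕ) : ℝ) + 1)) - 1))) =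
        (∑ i ∈ range (M + 1), ∑ j ∈ range (M + 1),
        hw M β r i * hw M β r j * (cs β (i + j) * ((((i + j : ℕ) : ℝ) + 1) *
        Real.exp (δ * (((i + j : ℕ) : ℝ) + 1))))) - B := by
        rw [hB]
        simp only [← sum_sub_distrib]
        refine sum_congr rfl fun i _ => sum_congr rfl fun j _ => ?_
        ring
      rw [e]; linarith
    refine h1.trans ?_
    rw [hE, mul_sum]
    refine sum_le_sum fun i _ => ?_
    rw [mul_sum]
    refine sum_le_sum fun j _ => ?_
    have h2 := elem_bound (((i + j : ℕ) : ℝ) + 1) δ (by positivity) hδ0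
    have h3 : 0 ≤ hw M β r i * hw M β r j * cs β (i + j) :=
      mul_nonneg (mul_nonneg (hw_nonneg _ _ _ _) (hw_nonneg _ _ _ _)) (cs_pos β _).le
    have h4 := mul_le_mul_of_nonneg_left h2 h3
    calc _ = hw M β r i * hw M β r j * cs β (i + j) * ((((i + j : ℕ) : ℝ) + 1) *
        (Real.exp (δ * (((i + j : ℕ) : ℝ) + 1)) - 1)) := by ring
      _ ≤ _ := h4
      _ = _ := by ring
  have hnn' : nn M r' β = B' / A' := by
    unfold nn; rw [eN, eW, mul_div_mul_left _ _ (Real.exp_pos _).ne']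
  have hnn : nn M r β = B / A := by
    unfold nn; rw [eN, eW, mul_div_mul_left _ _ (Real.exp_pos _).ne']
  have hB'0 : 0 ≤ B' := by
    refine sum_nonneg fun i _ => sum_nonneg fun j _ => ?_
    exact mul_nonneg (mul_nonneg (hw_nonneg _ _ _ _) (hw_nonneg _ _ _ _))
      (mul_nonneg (cs_pos β _).le (by positivity))
  rw [hnn', hnn]
  calc B' / A' - B / A ≤ B' / A - B / A := by
        have := div_le_div_of_nonneg_left hB'0 hApos hAA'
        linarith
    _ = (B' - B) / A := by ring
    _ ≤ (2 * δ * E) / A := div_le_div_of_nonneg_right hdiff hApos.le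
    _ = 2 * δ * (E / A) := by ring
    _ ≤ 2 * δ * (lam M (r + (δ + 1)) β / lam M r β) :=
        mul_le_mul_of_nonneg_left hexp (by positivity)

end Pool.Agent.MP_55179a_pr
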