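import Pool.Agent.Lib.MP_55179a_pr.Full

/-!
Module FINAL: the speed is squeezed between the difference quotients of the rate function.
-/

set_option autoImplicit false

namespace Pool.Agent.MP_55179a_pr

open Finset Filter

/-- Positions of the walk with steps `ω`. -/
def posn {n : ℕ} (ω : Fin n → Bool) (k : Fin (n + 1)) : ℤ :=
  ∑ i ∈ Finset.univ.filter (fun i : Fin n => (i : ℕ) < (k : ℕ)), (if ω i then (1 : ℤ) else -1)

theorem posn_zero {n : ℕ} (ω : Fin n → Bool) : posn ω 0 = 0 := by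
  simp [posn]

theorem posn_cons {n : ℕ} (b : Bool) (ω : Fin n → Bool) (k : Fin (n + 1)) :
    posn (Fin.cons b ω : Fin (n + 1) → Bool) k.succ = (if b then (1 : ℤ) else -1) + posn ω k := by
  simp only [posn, Finset.sum_filter]
  rw [Fin.sum_univ_succ]
  simp

theorem posn_last {n : ℕ} (ω : Fin n → Bool) :
    posn ω (Fin.last n) = ∑ i : Fin n, (if ω i then (1 : ℤ) else -1) := by
  simp only [posn, Fin.val_last]
  rw [Finset.filter_true_of_mem]
  intro i _
  exact i.isLt

theorem posn_consEquiv {n : ℕ} (b : Bool) (ω : Fin n → Bool) (k : Fin (n + 1)) :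
    posn ((Fin.consEquiv (fun _ : Fin (n + 1) => Bool)) (b, ω)) k.succ =
      (if b then (1 : ℤ) else -1) + posn ω k := posn_cons b ω k

theorem link_aux : ∀ (n : ℕ) (x : ℤ) (G : List ℤ → ℝ),
    ∑ ω : Fin n → Bool, G (List.ofFn (fun k : Fin (n + 1) => x + posn ω k)) = ws n x G
  | 0, x, G => by
    simp [ws, posn]
  | n + 1, x, G => by
    rw [← (Fin.consEquiv (fun _ : Fin (n + 1) => Bool)).sum_comp, Fintype.sum_prod_type]
    simp only [Fintype.sum_bool, ws]
    congr 1
    · rw [← link_aux n (x + 1)]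
      apply Finset.sum_congr rfl
      intro ω _
      rw [List.ofFn_succ, posn_zero, add_zero]
      congr 3
      funext k
      rw [posn_consEquiv]
      simp only [if_true]
      ring
    · rw [← link_aux n (x - 1)]
      apply Finset.sum_congr rfl
      intro ω _
      rw [List.ofFn_succ, posn_zero, add_zero]
      congr 3
      funext k
      rw [posn_consEquiv]
      simp only [Bool.false_eq_true, if_false]
      ring

theorem link (n : ℕ) (G : List ℤ → ℝ) :
    ∑ ω : Fin n → Bool, G (List.ofFn (fun k : Fin (n + 1) =>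
      ∑ i ∈ Finset.univ.filter (fun i : Fin n => (i : ℕ) < (k : ℕ)), (if ω i then (1 : ℤ) else -1))) =
    ws n 0 G := by
  rw [← link_aux n 0 G]
  simp only [zero_add]
  rfl

theorem count_ofFn (y : ℤ) : ∀ (m : ℕ) (f : Fin m → ℤ),
    (List.ofFn f).count y = ∑ i : Fin m, if f i = y then 1 else 0
  | 0, f => by simp
  | m + 1, f => by
    rw [List.ofFn_succ, List.count_cons, count_ofFn y m, Fin.sum_univ_succ, add_comm]
    simp

theorem Hl_ofFn (m : ℕ) (f : Fin m → ℤ) :
    (Finset.univ.filter (fun p : Fin m × Fin m => f p.1 = f p.2)).card = Hl (List.ofFn f) := by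
  rw [Finset.card_filter, Fintype.sum_prod_type, Hl, List.map_ofFn, List.sum_ofFn]
  rw [Finset.sum_comm]
  apply Finset.sum_congr rfl
  intro i _
  rw [Function.comp_apply, count_ofFn]

theorem ham_eq (n : ℕ) (ω : Fin n → Bool) :
    (Finset.univ.filter (fun p : Fin (n+1) × Fin (n+1) =>
                (∑ i ∈ Finset.univ.filter (fun i : Fin n => (i:ℕ) < (p.1:ℕ)),
                    (if ω i then (1:ℤ) else -1)) =
                (∑ i ∈ Finset.univ.filter (fun i : Fin n => (i:ℕ) < (p.2:ℕ)),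
                    (if ω i then (1:ℤ) else -1)))).card =
    Hl (List.ofFn (fun k : Fin (n + 1) =>
      ∑ i ∈ Finset.univ.filter (fun i : Fin n => (i : ℕ) < (k : ℕ)), (if ω i then (1 : ℤ) else -1))) :=
  Hl_ofFn (n + 1) (posn ω)

/-- Reflection: the weight with `-b |S|` is at most twice the half line weight. -/
theorem ws_abs_le (β b : ℝ) (n : ℕ) :
    ws n 0 (fun l => Real.exp (-β * (Hl l : ℝ) - b * |((l.getLastD 0 : ℤ) : ℝ)|)) ≤
      2 * Zp β b n := by
  have h1 : ws n 0 (fun l => Real.exp (-β * (Hl l : ℝ) - b * |((l.getLastD 0 : ℤ) : ℝ)|)) ≤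
      ws n 0 (fun l =>
      (if 0 ≤ l.getLastD 0 then Real.exp (-β * (Hl l : ℝ) - b * ((l.getLastD 0 : ℤ) : ℝ)) else 0) +
      (if 0 ≤ (l.map (fun z => -z)).getLastD 0 then
        Real.exp (-β * (Hl (l.map (fun z => -z)) : ℝ) -
          b * (((l.map (fun z => -z)).getLastD 0 : ℤ) : ℝ)) else 0)) := by
    apply ws_mono
    intro l hl
    rw [getLastD_map _ hl.ne_nil, Hl_map _ neg_injective]
    rcases le_total 0 (l.getLastD 0) with h | h
    · rw [if_pos h]
      have : 0 ≤ (if 0 ≤ -l.getLastD 0 then Real.exp (-β * (Hl l : ℝ) -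
          b * ((-l.getLastD 0 : ℤ) : ℝ)) else 0) := by split_ifs <;> positivity
      rw [abs_of_nonneg (by exact_mod_cast h)]
      linarith
    · have h' : 0 ≤ -l.getLastD 0 := by linarith
      rw [if_pos h']
      have : 0 ≤ (if 0 ≤ l.getLastD 0 then Real.exp (-β * (Hl l : ℝ) -
          b * ((l.getLastD 0 : ℤ) : ℝ)) else 0) := by split_ifs <;> positivity
      rw [abs_of_nonpos (by exact_mod_cast h), Int.cast_neg]
      linarith
  rw [ws_add] at h1
  have h2 := ws_neg n 0 (fun l => if 0 ≤ l.getLastD 0 then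
    Real.exp (-β * (Hl l : ℝ) - b * ((l.getLastD 0 : ℤ) : ℝ)) else 0)
  rw [neg_zero] at h2
  rw [← h2] at h1
  have e : Zp β b n = ws n 0 (fun l => if 0 ≤ l.getLastD 0 then
    Real.exp (-β * (Hl l : ℝ) - b * ((l.getLastD 0 : ℤ) : ℝ)) else 0) := rfl
  rw [e]
  linarith

theorem getLastD_ofFn (n : ℕ) (f : Fin (n + 1) → ℤ) :
    (List.ofFn f).getLastD 0 = f (Fin.last n) := by
  rw [List.getLastD_eq_getLast?, List.getLast?_eq_getLast_of_ne_nil (by simp), Option.getD_some,
    List.getLast_ofFn]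
  rfl

/-- The weight of a walk. -/
noncomputable def wt (β : ℝ) {n : ℕ} (ω : Fin n → Bool) : ℝ :=
  Real.exp (-β * (((Finset.univ.filter (fun p : Fin (n+1) × Fin (n+1) =>
                (∑ i ∈ Finset.univ.filter (fun i : Fin n => (i:ℕ) < (p.1:ℕ)),
                    (if ω i then (1:ℤ) else -1)) =
                (∑ i ∈ Finset.univ.filter (fun i : Fin n => (i:ℕ) < (p.2:ℕ)),
                    (if ω i then (1:ℤ) else -1)))).card : ℕ) : ℝ))

theorem wt_eq (β : ℝ) {n : ℕ} (ω : Fin n → Bool) :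
    wt β ω = Real.exp (-β * (Hl (List.ofFn (posn ω)) : ℝ)) := by
  rw [wt, ham_eq]
  rfl

theorem sum_wt (β : ℝ) (n : ℕ) : ∑ ω : Fin n → Bool, wt β ω = Zf β n := by
  simp only [wt_eq]
  exact link n (fun l => Real.exp (-β * (Hl l : ℝ)))

theorem Zf_pos (β : ℝ) (n : ℕ) : 0 < Zf β n := by
  rw [← sum_wt]
  exact Finset.sum_pos (fun ω _ => Real.exp_pos _) Finset.univ_nonempty

theorem sum_wt_abs (β b : ℝ) (n : ℕ) :
    ∑ ω : Fin n → Bool, wt β ω * Real.exp (-b * |∑ i : Fin n, (if ω i then (1 : ℝ) else -1)|) ≤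
      2 * Zp β b n := by
  refine le_trans (le_of_eq ?_) (ws_abs_le β b n)
  rw [← link]
  apply Finset.sum_congr rfl
  intro ω _
  rw [getLastD_ofFn, wt_eq, ← Real.exp_add]
  have e : (∑ i ∈ Finset.univ.filter (fun i : Fin n => (i : ℕ) < ((Fin.last n : Fin (n + 1)) : ℕ)),
      (if ω i then (1 : ℤ) else -1)) = ∑ i : Fin n, (if ω i then (1 : ℤ) else -1) := posn_last ω
  rw [e]
  push_cast
  congr 1
  have e2 : (List.ofFn (posn ω)) = List.ofFn (fun k : Fin (n + 1) =>
      ∑ i ∈ Finset.univ.filter (fun i : Fin n => (i : ℕ) < (k : ℕ)),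
        (if ω i then (1 : ℤ) else -1)) := rfl
  rw [e2]
  ring

/-- If the event `good` carries half of the mass and `b |S| ≤ b γ n` on it, then `Zf` is small. -/
theorem half_mass (β b γ : ℝ) (n : ℕ) (good : (Fin n → Bool) → Prop) [DecidablePred good]
    (hgood : ∀ ω, good ω → b * |∑ i : Fin n, (if ω i then (1 : ℝ) else -1)| ≤ b * γ * n)
    (hmass : Zf β n / 2 ≤ ∑ ω ∈ Finset.univ.filter good, wt β ω) :
    Zf β n ≤ 4 * Real.exp (b * γ * n) * Zp β b n := by
  have h1 : ∑ ω ∈ Finset.univ.filter good, wt β ω ≤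
      ∑ ω : Fin n → Bool, Real.exp (b * γ * n) *
        (wt β ω * Real.exp (-b * |∑ i : Fin n, (if ω i then (1 : ℝ) else -1)|)) := by
    rw [Finset.sum_filter]
    apply Finset.sum_le_sum
    intro ω _
    have hw : 0 < wt β ω := Real.exp_pos _
    split_ifs with h
    · have h2 := hgood ω h
      have h3 : 1 ≤ Real.exp (b * γ * n) *
          Real.exp (-b * |∑ i : Fin n, (if ω i then (1 : ℝ) else -1)|) := by
        rw [← Real.exp_add, Real.one_le_exp_iff]
        linarith
      nlinarith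
    · positivity
  rw [← Finset.mul_sum] at h1
  have h4 := sum_wt_abs β b n
  have h5 : 0 < Real.exp (b * γ * n) := Real.exp_pos _
  nlinarith

/-- The contradiction with the exponential growth rate. -/
theorem growth_contra (β b γ : ℝ) (ra : ℝ → ℝ)
    (hup : ∀ ρ : ℝ, ρ < ra b → ∃ C : ℝ, 0 < C ∧ ∀ n : ℕ, Zp β b n ≤ C * Real.exp (-ρ * n))
    (hlow : ∀ r : ℝ, ra 0 < r → ∀ N0 : ℕ, ∃ n : ℕ, N0 ≤ n ∧ Real.exp (-r * ((n : ℝ) + 1)) ≤ Zf β n)
    (hb : b * γ < ra b - ra 0)
    (hev : ∀ᶠ n : ℕ in atTop, Zf β n ≤ 4 * Real.exp (b * γ * n) * Zp β b n) : False := by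
  set κ := (ra b - ra 0 - b * γ) / 3 with hκ
  have hκpos : 0 < κ := by rw [hκ]; linarith
  obtain ⟨C, hC, hZ⟩ := hup (ra b - κ) (by linarith)
  obtain ⟨N0, hN0⟩ := eventually_atTop.1 hev
  -- eventually `exp (κ n) > 4 C exp r`
  have hlim : Tendsto (fun n : ℕ => Real.exp (κ * n)) atTop atTop := by
    apply Real.tendsto_exp_atTop.comp
    exact Tendsto.const_mul_atTop hκpos tendsto_natCast_atTop_atTop
  obtain ⟨N1, hN1⟩ := eventually_atTop.1 (hlim.eventually_gt_atTop (4 * C * Real.exp (ra 0 + κ)))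
  obtain ⟨n, hn, hlo⟩ := hlow (ra 0 + κ) (by linarith) (max N0 N1)
  have h1 := hN0 n (le_trans (le_max_left _ _) hn)
  have h2 := hN1 n (le_trans (le_max_right _ _) hn)
  have h3 := hZ n
  have h4 : Real.exp (-(ra 0 + κ) * ((n : ℝ) + 1)) ≤
      4 * Real.exp (b * γ * n) * (C * Real.exp (-(ra b - κ) * n)) := by
    refine le_trans hlo (le_trans h1 ?_)
    gcongr
  have h5 : Real.exp (κ * n) ≤ 4 * C * Real.exp (ra 0 + κ) := by
    have e1 : Real.exp (κ * n) = Real.exp (-(ra 0 + κ) * ((n : ℝ) + 1)) *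
        Real.exp (-(b * γ * n)) * Real.exp ((ra b - κ) * n) * Real.exp (ra 0 + κ) := by
      rw [← Real.exp_add, ← Real.exp_add, ← Real.exp_add]
      congr 1
      rw [hκ]; ring
    have e2 : 4 * C * Real.exp (ra 0 + κ) = (4 * Real.exp (b * γ * n) *
        (C * Real.exp (-(ra b - κ) * n))) * Real.exp (-(b * γ * n)) *
        Real.exp ((ra b - κ) * n) * Real.exp (ra 0 + κ) := by
      have : Real.exp (b * γ * n) * Real.exp (-(ra b - κ) * n) * Real.exp (-(b * γ * n)) *
        Real.exp ((ra b - κ) * n) = 1 := by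
        rw [← Real.exp_add, ← Real.exp_add, ← Real.exp_add, Real.exp_eq_one_iff]
        ring
      calc 4 * C * Real.exp (ra 0 + κ) = 4 * C * Real.exp (ra 0 + κ) *
          (Real.exp (b * γ * n) * Real.exp (-(ra b - κ) * n) * Real.exp (-(b * γ * n)) *
        Real.exp ((ra b - κ) * n)) := by rw [this, mul_one]
        _ = _ := by ring
    rw [e1, e2]
    gcongr
  linarith

theorem speed_bounds (β θ : ℝ) (hβ : 0 < β)
    (h : ∀ ε : ℝ, 0 < ε →
        Filter.Tendsto
          (fun n : ℕ =>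
            (∑ ω ∈ Finset.univ.filter (fun ω : Fin n → Bool =>
                ε < |(|(∑ i : Fin n, (if ω i then (1:ℝ) else -1))| / (n:ℝ)) - θ|),
              Real.exp (-β * (((Finset.univ.filter (fun p : Fin (n+1) × Fin (n+1) =>
                (∑ i ∈ Finset.univ.filter (fun i : Fin n => (i:ℕ) < (p.1:ℕ)),
                    (if ω i then (1:ℤ) else -1)) =
                (∑ i ∈ Finset.univ.filter (fun i : Fin n => (i:ℕ) < (p.2:ℕ)),
                    (if ω i then (1:ℤ) else -1)))).card : ℕ) : ℝ)))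
            /
            (∑ ω : Fin n → Bool,
              Real.exp (-β * (((Finset.univ.filter (fun p : Fin (n+1) × Fin (n+1) =>
                (∑ i ∈ Finset.univ.filter (fun i : Fin n => (i:ℕ) < (p.1:ℕ)),
                    (if ω i then (1:ℤ) else -1)) =
                (∑ i ∈ Finset.univ.filter (fun i : Fin n => (i:ℕ) < (p.2:ℕ)),
                    (if ω i then (1:ℤ) else -1)))).card : ℕ) : ℝ))))
          Filter.atTop (nhds 0))
    (ra : ℝ → ℝ)
    (hup : ∀ a : ℝ, |a| ≤ β / 4 → ∀ ρ : ℝ, ρ < ra a → ∃ C : ℝ, 0 < C ∧ ∀ n : ℕ, Zp β a n ≤ C * Real.exp (-ρ * n))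
    (hlow : ∀ r : ℝ, ra 0 < r → ∀ N0 : ℕ, ∃ n : ℕ, N0 ≤ n ∧ Real.exp (-r * ((n : ℝ) + 1)) ≤ Zf β n)
    (a : ℝ) (ha0 : 0 < a) (ha : a ≤ β / 4) :
    (ra a - ra 0) / a ≤ θ ∧ θ ≤ (ra 0 - ra (-a)) / a := by
  have key : ∀ ε : ℝ, 0 < ε → ∀ᶠ n : ℕ in atTop, Zf β n / 2 ≤
      ∑ ω ∈ Finset.univ.filter (fun ω : Fin n → Bool =>
        ¬ ε < |(|(∑ i : Fin n, (if ω i then (1:ℝ) else -1))| / (n:ℝ)) - θ|), wt β ω := by
    intro ε hε
    have h1 := (h ε hε).eventually_lt_const (show (0 : ℝ) < 1 / 2 by norm_num)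
    filter_upwards [h1] with n hn
    have hn' : (∑ ω ∈ Finset.univ.filter (fun ω : Fin n → Bool =>
        ε < |(|(∑ i : Fin n, (if ω i then (1:ℝ) else -1))| / (n:ℝ)) - θ|), wt β ω) /
        (∑ ω : Fin n → Bool, wt β ω) < 1 / 2 := hn
    rw [sum_wt, div_lt_iff₀ (Zf_pos β n)] at hn'
    have h2 := Finset.sum_filter_add_sum_filter_not (Finset.univ : Finset (Fin n → Bool))
      (fun ω : Fin n → Bool =>
        ε < |(|(∑ i : Fin n, (if ω i then (1:ℝ) else -1))| / (n:ℝ)) - θ|) (wt β)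
    rw [sum_wt] at h2
    linarith
  constructor
  · by_contra hlt
    push Not at hlt
    obtain ⟨γ, hγ1, hγ2⟩ := exists_between hlt
    apply growth_contra β a γ ra (hup a (by rw [abs_of_pos ha0]; exact ha)) hlow
    · rw [lt_div_iff₀ ha0] at hγ2
      linarith
    · filter_upwards [key (γ - θ) (by linarith), eventually_gt_atTop 0] with n hn hn0
      refine half_mass β a γ n _ ?_ hn
      intro ω hω
      have hn0' : (0 : ℝ) < n := by exact_mod_cast hn0
      push Not at hω
      have h3 := (abs_le.1 hω).2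
      have h4 : |∑ i : Fin n, (if ω i then (1 : ℝ) else -1)| / n ≤ γ := by linarith
      rw [div_le_iff₀ hn0'] at h4
      calc a * |∑ i : Fin n, (if ω i then (1 : ℝ) else -1)| ≤ a * (γ * n) := by gcongr
        _ = a * γ * n := by ring
  · by_contra hlt
    push Not at hlt
    obtain ⟨γ, hγ1, hγ2⟩ := exists_between hlt
    apply growth_contra β (-a) γ ra (hup (-a) (by rw [abs_neg, abs_of_pos ha0]; exact ha)) hlow
    · rw [div_lt_iff₀ ha0] at hγ1
      linarith
    · filter_upwards [key (θ - γ) (by linarith), eventually_gt_atTop 0] with n hn hn0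
      refine half_mass β (-a) γ n _ ?_ hn
      intro ω hω
      have hn0' : (0 : ℝ) < n := by exact_mod_cast hn0
      push Not at hω
      have h3 := (abs_le.1 hω).1
      have h4 : γ ≤ |∑ i : Fin n, (if ω i then (1 : ℝ) else -1)| / n := by linarith
      rw [le_div_iff₀ hn0'] at h4
      have h5 : a * (γ * n) ≤ a * |∑ i : Fin n, (if ω i then (1 : ℝ) else -1)| := by gcongr
      linarith

end Pool.Agent.MP_55179a_pr
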