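import Pool.Agent.Lib.MP_55179a_pr.MLR3
import Pool.Agent.Lib.MP_55179a_pr.Bridge
import Pool.Agent.Lib.MP_55179a_pr.Full
import Pool.Agent.Lib.MP_55179a_pr.Gap
import Pool.Agent.Lib.MP_55179a_pr.Speed

/-!
Assembly of the proof.
-/

set_option autoImplicit false

namespace Pool.Agent.MP_55179a_pr

open Finset Filter

theorem log_lam_mono_r (M : ℕ) (β r r' : ℝ) (h : r ≤ r') :
    Real.log (lam M r β) ≤ Real.log (lam M r' β) := by
  have h1 := lam_sub M r β r' β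
  have h2 := one_le_nn M r β
  nlinarith

theorem lam_mono_r (M : ℕ) (β r r' : ℝ) (h : r ≤ r') : lam M r β ≤ lam M r' β :=
  (Real.log_le_log_iff (lam_pos _ _ _) (lam_pos _ _ _)).1 (log_lam_mono_r M β r r' h)

theorem nn_lip_unif (β : ℝ) (hβ : 0 < β) (r0 : ℝ) : ∃ C, ∀ (M : ℕ) (r r' : ℝ), -r0 ≤ r → r ≤ r' → r' ≤ r0 →
    nn M r' β - nn M r β ≤ C * (r' - r) := by
  obtain ⟨Cb, hCb⟩ := lam_bdd (r0 + (c2 β * (2 * r0) + 1)) β hβ
  have hc2 := c2_pos hβ
  refine ⟨2 * c2 β * (Cb / Real.exp (-r0 - β)), fun M r r' h1 h2 h3 => ?_⟩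
  have h4 := nn_lip M r r' β hβ h2
  have h5 : lam M (r + (c2 β * (r' - r) + 1)) β ≤ Cb := by
    refine (lam_mono_r M β _ _ ?_).trans (hCb M)
    nlinarith
  have h6 : Real.exp (-r0 - β) ≤ lam M r β :=
    (Real.exp_le_exp.2 (by linarith)).trans (lam_ge M r β)
  have hCb0 : 0 ≤ Cb := (lam_pos M _ β).le.trans (hCb M)
  have h7 : lam M (r + (c2 β * (r' - r) + 1)) β / lam M r β ≤ Cb / Real.exp (-r0 - β) :=
    div_le_div₀ hCb0 h5 (Real.exp_pos _) h6
  refine h4.trans ?_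
  have h8 : 0 ≤ 2 * (c2 β * (r' - r)) := by
    have : 0 ≤ c2 β * (r' - r) := mul_nonneg hc2.le (by linarith)
    linarith
  have h9 := mul_le_mul_of_nonneg_left h7 h8
  linarith

theorem exists_R : ∃ R : ℝ → ℝ → ℝ, ∀ β, 0 < β →
      (∀ a M, Real.log (lam M (R a β) β) ≤ a) ∧
      (∀ r, R 0 β < r → ∃ M, 0 < Real.log (lam M r β)) ∧
      (∀ β', β ≤ β' → ∀ a a', a ≤ a' → R a' β - R a β ≤ R a' β' - R a β') ∧
      (∃ C, ∀ a, 0 < a → a ≤ 1 → 2 * R 0 β - R (-a) β - R a β ≤ C * a ^ 2) ∧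
      (∀ a a', a ≤ a' → R a β ≤ R a' β ∧ R a' β ≤ R a β + (a' - a)) := by
  refine gap_module (fun M r β => Real.log (lam M r β)) nn hh ?_ ?_ ?_ ?_ ?_ ?_ ?_
  · intro M r β r' β' _ _; exact lam_sub M r β r' β'
  · intro M r β _; exact one_le_nn M r β
  · intro M r r' β hβ h; exact hh_nn_mono M r r' β hβ h
  · intro M r β _; exact Real.log_le_log (lam_pos _ _ _) (lam_mono M r β)
  · intro r β hβ
    obtain ⟨C, hC⟩ := lam_bdd r β hβ
    exact ⟨Real.log C, fun M => Real.log_le_log (lam_pos _ _ _) (hC M)⟩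
  · intro M r β _
    have := Real.log_le_log (Real.exp_pos _) (lam_ge M r β)
    rwa [Real.log_exp] at this
  · intro β hβ r0; exact nn_lip_unif β hβ r0

theorem Br_bound (R : ℝ → ℝ → ℝ) (β : ℝ) (h : ∀ a M, Real.log (lam M (R a β) β) ≤ a)
    (a : ℝ) (m L : ℕ) : Br β m L ≤ Real.exp (a * ((L : ℝ) + 1) - R a β * ((m : ℝ) + 1)) := by
  have h1 := BridgeM.bridge_le (R a β) β m L (m + 1) le_rfl
  have h2 := g_le_lam (m + 1) (R a β) β L
  have h3 : lam (m + 1) (R a β) β ≤ Real.exp a :=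
    (Real.log_le_iff_le_exp (lam_pos _ _ _)).1 (h a (m + 1))
  have h4 : lam (m + 1) (R a β) β ^ (L + 1) ≤ Real.exp a ^ (L + 1) :=
    pow_le_pow_left₀ (lam_pos _ _ _).le h3 _
  rw [← Real.exp_nat_mul] at h4
  have h5 : Br β m L * Real.exp (R a β * ((m : ℝ) + 1)) ≤ Real.exp (((L + 1 : ℕ) : ℝ) * a) :=
    h1.trans (h2.trans h4)
  rw [Real.exp_sub, le_div_iff₀ (Real.exp_pos _)]
  refine h5.trans (le_of_eq ?_)
  congr 1; push_cast; ring

theorem Br_le_Zf (β : ℝ) (n L : ℕ) : Br β n L ≤ Zf β n := by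
  unfold Br Zf
  refine BridgeM.ws_le n 0 _ _ fun t _ => ?_
  show (if _ then _ else _) ≤ _
  split_ifs
  · exact le_rfl
  · exact (Real.exp_pos _).le

theorem Zf_lower (β : ℝ) (r : ℝ) (M : ℕ) (hM : 0 < Real.log (lam M r β)) (N0 : ℕ) :
    ∃ n : ℕ, N0 ≤ n ∧ Real.exp (-r * ((n : ℝ) + 1)) ≤ Zf β n := by
  obtain ⟨c, hc, hcl⟩ := lam_le_g M r β
  have hlam : 1 < lam M r β := (Real.log_pos_iff (lam_pos _ _ _).le).1 hM
  set C0 := ∑ n ∈ range N0, Zf β n * Real.exp (r * ((n : ℝ) + 1)) with hC0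
  by_contra hcon
  push Not at hcon
  -- upper bound for all L
  have hZ0 : ∀ n, 0 ≤ Zf β n := fun n => BridgeM.ws_nonneg n 0 _ fun t _ => (Real.exp_pos _).le
  have hup : ∀ L : ℕ, c * lam M r β ^ (L + 1) ≤ C0 + (2 * M + 2) * ((L : ℝ) + 1) := by
    intro L
    refine (hcl L).trans ((BridgeM.le_bridge r β L M).trans ?_)
    set N := (2 * M + 2) * (L + 1) with hN
    have h1 : ∀ n ∈ range N, Br β n L * Real.exp (r * ((n : ℝ) + 1)) ≤
        (if n < N0 then Zf β n * Real.exp (r * ((n : ℝ) + 1)) else 0) + 1 := by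
      intro n _
      have hexp := Real.exp_pos (r * ((n : ℝ) + 1))
      split_ifs with hn
      · have := mul_le_mul_of_nonneg_right (Br_le_Zf β n L) hexp.le
        linarith
      · have h2 := hcon n (not_lt.1 hn)
        have h3 := (Br_le_Zf β n L).trans h2.le
        have h4 := mul_le_mul_of_nonneg_right h3 hexp.le
        rw [← Real.exp_add] at h4
        have e : -r * ((n : ℝ) + 1) + r * ((n : ℝ) + 1) = 0 := by ring
        rw [e, Real.exp_zero] at h4
        linarith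
    refine (sum_le_sum h1).trans ?_
    rw [sum_add_distrib]
    have h5 : ∑ n ∈ range N, (if n < N0 then Zf β n * Real.exp (r * ((n : ℝ) + 1)) else 0) ≤ C0 := by
      rw [hC0, ← sum_filter]
      refine sum_le_sum_of_subset_of_nonneg ?_ fun n _ _ => mul_nonneg (hZ0 n) (Real.exp_pos _).le
      intro n hn
      simp only [mem_filter, mem_range] at hn ⊢
      exact hn.2
    have h6 : ∑ _n ∈ range N, (1 : ℝ) = (2 * M + 2) * ((L : ℝ) + 1) := by
      rw [sum_const, card_range, nsmul_eq_mul, mul_one, hN]; push_cast; ring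
    rw [h6]
    linarith
  -- contradiction by growth
  have ht : Tendsto (fun n : ℕ => (n : ℝ) ^ 1 / lam M r β ^ n) atTop (nhds 0) :=
    tendsto_pow_const_div_const_pow_of_one_lt 1 hlam
  have hC0' : 0 ≤ C0 := sum_nonneg fun n _ => mul_nonneg (hZ0 n) (Real.exp_pos _).le
  have hpos : 0 < c / (C0 + (2 * M + 2)) := by positivity
  have hev := (ht.eventually (gt_mem_nhds hpos)).and (eventually_ge_atTop 1)
  obtain ⟨n, hn, hn1⟩ := hev.exists
  obtain ⟨L, rfl⟩ : ∃ L, n = L + 1 := ⟨n - 1, by omega⟩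
  have hlp : 0 < lam M r β ^ (L + 1) := by have := lam_pos M r β; positivity
  rw [div_lt_div_iff₀ hlp (by positivity)] at hn
  have h7 := hup L
  have hL : (1 : ℝ) ≤ (L : ℝ) + 1 := by
    have : (0 : ℝ) ≤ L := Nat.cast_nonneg L
    linarith
  push_cast at hn
  have hM0 : (0 : ℝ) ≤ M := Nat.cast_nonneg M
  nlinarith

theorem main :
    ∀ θ : ℝ → ℝ,
      (∀ β : ℝ, 0 < β → ∀ ε : ℝ, 0 < ε →
        Filter.Tendsto
          (fun n : ℕ =>
            (∑ ω ∈ Finset.univ.filter (fun ω : Fin n → Bool =>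
                ε < |(|(∑ i : Fin n, (if ω i then (1:ℝ) else -1))| / (n:ℝ)) - θ β|),
              Real.exp (-β * (((Finset.univ.filter (fun p : Fin (n+1) × Fin (n+1) =>
                (∑ i ∈ Finset.univ.filter (fun i : Fin n => (i:ℕ) < (p.1:ℕ)),
                    (if ω i then (1:ℤ) else -1)) =
                (∑ i ∈ Finset.univ.filter (fun i : Fin n => (i:ℕ) < (p.2:ℕ)),
                    (if ω i then (1:ℤ) else -1)))).card : ℕ) : ℝ)))
            /
            (∑ ω : Fin n → Bool,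
              Real.exp (-β * (((Finset.univ.filter (fun p : Fin (n+1) × Fin (n+1) =>
                (∑ i ∈ Finset.univ.filter (fun i : Fin n => (i:ℕ) < (p.1:ℕ)),
                    (if ω i then (1:ℤ) else -1)) =
                (∑ i ∈ Finset.univ.filter (fun i : Fin n => (i:ℕ) < (p.2:ℕ)),
                    (if ω i then (1:ℤ) else -1)))).card : ℕ) : ℝ))))
          Filter.atTop (nhds 0)) →
      MonotoneOn θ (Set.Ioi 0) := by
  intro θ hθ
  obtain ⟨R, hR⟩ := exists_R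
  have hbounds : ∀ β, 0 < β → ∀ a, 0 < a → a ≤ β / 4 →
      (R a β - R 0 β) / a ≤ θ β ∧ θ β ≤ (R 0 β - R (-a) β) / a := by
    intro β hβ a ha ha'
    obtain ⟨h1, h2, -, -, h5⟩ := hR β hβ
    refine speed_bounds β (θ β) hβ (hθ β hβ) (fun a => R a β) ?_ ?_ a ha ha'
    · intro b hb ρ hρ
      exact Zp_le β hβ (fun a => R a β) (fun x y hxy => (h5 x y hxy).1) (fun x y hxy => (h5 x y hxy).2)
        (fun b m L => Br_bound R β h1 b m L) b hb ρ hρ
    · intro r hr N0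
      obtain ⟨M, hM⟩ := h2 r hr
      exact Zf_lower β r M hM N0
  intro β₁ hβ₁ β₂ hβ₂ hle
  rw [Set.mem_Ioi] at hβ₁ hβ₂
  obtain ⟨-, -, h3, -, -⟩ := hR β₁ hβ₁
  obtain ⟨-, -, -, ⟨C, hC⟩, -⟩ := hR β₂ hβ₂
  -- for all small a : θ β₁ - θ β₂ ≤ C a
  have hsmall : ∀ a, 0 < a → a ≤ min 1 (β₁ / 4) → θ β₁ ≤ θ β₂ + |C| * a := by
    intro a ha ha'
    have ha1 : a ≤ 1 := ha'.trans (min_le_left _ _)
    have ha2 : a ≤ β₁ / 4 := ha'.trans (min_le_right _ _)
    have b1 := (hbounds β₁ hβ₁ a ha ha2).2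
    have b2 := (hbounds β₂ hβ₂ a ha (ha2.trans (by linarith))).1
    have g1 := h3 β₂ hle (-a) 0 (by linarith)
    have s1 := hC a ha ha1
    rw [le_div_iff₀ ha] at b1
    rw [div_le_iff₀ ha] at b2
    have h4 : (θ β₁ - θ β₂) * a ≤ |C| * a * a := by
      have : C * a ^ 2 ≤ |C| * a ^ 2 := mul_le_mul_of_nonneg_right (le_abs_self C) (sq_nonneg a)
      nlinarith
    have := le_of_mul_le_mul_right h4 ha
    linarith
  by_contra hcon
  push Not at hcon
  set d := θ β₁ - θ β₂ with hd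
  have hd0 : 0 < d := by linarith
  set a := min (min 1 (β₁ / 4)) (d / (2 * (|C| + 1))) with ha
  have hC1 : 0 < |C| + 1 := by positivity
  have ha0 : 0 < a := by
    rw [ha]; refine lt_min (lt_min one_pos (by linarith)) (by positivity)
  have h5 := hsmall a ha0 (min_le_left _ _)
  have h6 : a ≤ d / (2 * (|C| + 1)) := min_le_right _ _
  rw [le_div_iff₀ (by positivity)] at h6
  have h7 : |C| * a ≤ (|C| + 1) * a := by nlinarith
  nlinarith

end Pool.Agent.MP_55179a_pr
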